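import Pool.Agent.Lib.MP_7bc51d_an_top.Stmts

/-!
# Exactly invariant sets of lines
-/

set_option autoImplicit false

namespace Pool.Agent.Lib.BTop

open Complex MeasureTheory Set Filter Topology
open Pool.Agent.Lib.Bil

namespace EAux

variable {n : ℕ} {v : Fin n → ℂ}

/-- Lines entering the polygon through the relative interior of the side `s`. -/
def EN (v : Fin n → ℂ) (s : Fin n × Fin n) : Set (ℂ × ℝ) :=
  {p | cr p.1 (v s.2) < p.2 ∧ p.2 < cr p.1 (v s.1)}

/-- Scaling of a line. -/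
noncomputable def sc (r : ℝ) (p : ℂ × ℝ) : ℂ × ℝ := ((r : ℂ) * p.1, r * p.2)

theorem en_sub_MM (hn : 3 ≤ n) (hv : ConvexIndependent ℝ v) {s : Fin n × Fin n}
    (hs : IsSide v s.1 s.2) {p : ℂ × ℝ} (hp : p ∈ EN v s) : p ∈ MM v := by
  obtain ⟨h1, h2⟩ := hp
  obtain ⟨t, t0, t1, te, tw⟩ := side_line h1 h2
  obtain ⟨ε, hε, hin⟩ := inward hn hv hs t0 t1 tw
  refine ⟨?_, _, hin ε hε le_rfl, ?_⟩
  · intro h0
    rw [h0, cr_zero_left] at h1 h2
    exact lt_irrefl _ (h1.trans h2)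
  · rw [cr_add_right, te, cr_smul_right, cr_self, mul_zero, add_zero]

theorem ng_en {s : Fin n × Fin n} {p : ℂ × ℝ} (hp : p ∈ EX v s) : ng p ∈ EN v s := by
  obtain ⟨h1, h2⟩ := hp
  refine ⟨?_, ?_⟩
  · simp only [ng, cr_neg_left]; linarith
  · simp only [ng, cr_neg_left]; linarith

theorem ng_mem_MM {p : ℂ × ℝ} (hp : ng p ∈ MM v) : p ∈ MM v := by
  obtain ⟨h1, x, hx, h2⟩ := hp
  refine ⟨fun h0 => h1 (by simp [ng, h0]), x, hx, ?_⟩
  simp only [ng, cr_neg_left] at h2
  linarith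

theorem ex_sub_MM (hn : 3 ≤ n) (hv : ConvexIndependent ℝ v) {s : Fin n × Fin n}
    (hs : IsSide v s.1 s.2) {p : ℂ × ℝ} (hp : p ∈ EX v s) : p ∈ MM v :=
  ng_mem_MM (en_sub_MM hn hv hs (ng_en hp))

theorem RL_en {s : Fin n × Fin n} (hne : v s.2 - v s.1 ≠ 0) {p : ℂ × ℝ} (hp : p ∈ EX v s) :
    RL v s p ∈ EN v s :=
  cross_after hne hp.1 hp.2

theorem RL_ex {s : Fin n × Fin n} (hne : v s.2 - v s.1 ≠ 0) {p : ℂ × ℝ} (hp : p ∈ EN v s) :
    RL v s p ∈ EX v s := by
  obtain ⟨h1, h2⟩ := hp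
  have e1 : cr (rl (v s.2 - v s.1) p.1) (v s.2) =
      cr (rl (v s.2 - v s.1) p.1) (v s.1) + cr p.1 (v s.1) - cr p.1 (v s.2) := by
    have h3 : cr (rl (v s.2 - v s.1) p.1) (v s.2 - v s.1) = - cr p.1 (v s.2 - v s.1) :=
      cr_rl_left hne p.1
    rw [cr_sub_right, cr_sub_right] at h3
    linarith
  refine ⟨?_, ?_⟩
  · simp only [RL, rfh]; linarith
  · simp only [RL, rfh]; linarith

theorem RL_RL {s : Fin n × Fin n} (hne : v s.2 - v s.1 ≠ 0) (p : ℂ × ℝ) :
    RL v s (RL v s p) = p := by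
  simp only [RL, rfh, rl_rl hne]
  ext
  · rfl
  · simp only; ring

theorem rl_neg (a w : ℂ) : rl a (-w) = - rl a w := by
  simp only [rl, map_neg]; ring

theorem RL_ng {s : Fin n × Fin n} (hne : v s.2 - v s.1 ≠ 0) (p : ℂ × ℝ) :
    RL v s (ng (RL v s p)) = ng p := by
  simp only [RL, rfh, ng, rl_neg, rl_rl hne, cr_neg_left]
  ext
  · rfl
  · simp only; ring

theorem ng_RL_ex {s : Fin n × Fin n} (hne : v s.2 - v s.1 ≠ 0) {p : ℂ × ℝ} (hp : p ∈ EX v s) :
    ng (RL v s p) ∈ EX v s := by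
  obtain ⟨h1, h2⟩ := RL_en hne hp
  refine ⟨?_, ?_⟩
  · simp only [ng, cr_neg_left]; linarith
  · simp only [ng, cr_neg_left]; linarith

theorem continuous_RL (s : Fin n × Fin n) : Continuous (RL v s) := by
  unfold RL rfh
  have h1 : Continuous (fun p : ℂ × ℝ => rl (v s.2 - v s.1) p.1) :=
    (continuous_rl _).comp continuous_fst
  have h2 : Continuous (fun p : ℂ × ℝ => cr (rl (v s.2 - v s.1) p.1) (v s.1)) :=
    continuous_cr.comp (h1.prodMk continuous_const)
  have h3 : Continuous (fun p : ℂ × ℝ => cr p.1 (v s.1)) :=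
    continuous_cr.comp (continuous_fst.prodMk continuous_const)
  exact h1.prodMk ((h2.add h3).sub continuous_snd)

theorem continuous_crv (k : Fin n) : Continuous (fun p : ℂ × ℝ => cr p.1 (v k)) :=
  continuous_cr.comp (continuous_fst.prodMk continuous_const)

theorem isOpen_EX (s : Fin n × Fin n) : IsOpen (EX v s) :=
  (isOpen_lt (continuous_crv s.1) continuous_snd).inter
    (isOpen_lt continuous_snd (continuous_crv s.2))

theorem isOpen_EN (s : Fin n × Fin n) : IsOpen (EN v s) :=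
  (isOpen_lt (continuous_crv s.2) continuous_snd).inter
    (isOpen_lt continuous_snd (continuous_crv s.1))

theorem sc_mem_MM {r : ℝ} (hr : 0 < r) (p : ℂ × ℝ) :
    (((r : ℂ) * p.1, r * p.2) : ℂ × ℝ) ∈ MM v ↔ p ∈ MM v := by
  constructor
  · rintro ⟨h1, x, hx, h2⟩
    refine ⟨fun h0 => h1 (by simp [h0]), x, hx, ?_⟩
    simp only [cr_smul_left] at h2
    exact mul_left_cancel₀ hr.ne' h2
  · rintro ⟨h1, x, hx, h2⟩
    refine ⟨mul_ne_zero (by exact_mod_cast hr.ne') h1, x, hx, ?_⟩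
    simp only [cr_smul_left, h2]

theorem xl_MM (hn : 3 ≤ n) (hv : ConvexIndependent ℝ v) : XL v (MM v) where
  sub := subset_rfl
  cone := fun _ hr p => sc_mem_MM hr p
  sym := fun _ hs _ hp => by
    have hne := v_sub_ne hv hs.1
    exact iff_of_true (en_sub_MM hn hv hs (RL_en hne hp)) (ex_sub_MM hn hv hs hp)

theorem isOpen_MM : IsOpen (MM v) := by
  have e : MM v = ⋃ x ∈ PP v, {p : ℂ × ℝ | p.1 ≠ 0} ∩ {p : ℂ × ℝ |
      x + (((p.2 - cr p.1 x) / (p.1.re ^ 2 + p.1.im ^ 2) : ℝ) : ℂ) * (I * p.1) ∈ PP v} := by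
    ext p
    simp only [mem_iUnion, exists_prop]
    constructor
    · rintro ⟨h1, x, hx, h2⟩
      refine ⟨x, hx, h1, ?_⟩
      simp only [mem_ofPred_eq, h2, sub_self, zero_div, ofReal_zero, zero_mul, add_zero]
      exact hx
    · rintro ⟨x, hx, h1, h2⟩
      refine ⟨h1, _, h2, ?_⟩
      have h3 : 0 < p.1.re ^ 2 + p.1.im ^ 2 := esq_pos h1
      rw [cr_add_right, cr_smul_right]
      have h4 : cr p.1 (I * p.1) = p.1.re ^ 2 + p.1.im ^ 2 := by
        simp only [cr, mul_re, mul_im, I_re, I_im]; ring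
      rw [h4]
      field_simp
      ring
  rw [e]
  refine isOpen_biUnion fun x _ => ?_
  have hop : IsOpen {p : ℂ × ℝ | p.1 ≠ 0} := isOpen_ne_fun continuous_fst continuous_const
  refine ContinuousOn.isOpen_inter_preimage ?_ hop isOpen_PP
  have h1 : Continuous (fun p : ℂ × ℝ => p.2 - cr p.1 x) :=
    continuous_snd.sub (continuous_cr.comp (continuous_fst.prodMk continuous_const))
  have h2 : Continuous (fun p : ℂ × ℝ => p.1.re ^ 2 + p.1.im ^ 2) := by fun_prop
  have h3 : ContinuousOn (fun p : ℂ × ℝ => (p.2 - cr p.1 x) / (p.1.re ^ 2 + p.1.im ^ 2))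
      {p : ℂ × ℝ | p.1 ≠ 0} :=
    h1.continuousOn.div h2.continuousOn fun p hp => (esq_pos hp).ne'
  exact continuousOn_const.add ((continuous_ofReal.comp_continuousOn h3).mul
    (continuous_const.mul continuous_fst).continuousOn)

theorem xl_diff (hn : 3 ≤ n) (hv : ConvexIndependent ℝ v) {L : Set (ℂ × ℝ)} (hL : XL v L) :
    XL v (MM v \ L) where
  sub := Set.sdiff_subset
  cone := fun r hr p => by
    rw [Set.mem_sdiff, Set.mem_sdiff, sc_mem_MM hr p, hL.cone r hr p]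
  sym := fun s hs p hp => by
    rw [Set.mem_sdiff, Set.mem_sdiff, (xl_MM hn hv).sym s hs p hp, hL.sym s hs p hp]

theorem xl_inter {L L' : Set (ℂ × ℝ)} (hL : XL v L) (hL' : XL v L') : XL v (L ∩ L') where
  sub := inter_subset_left.trans hL.sub
  cone := fun r hr p => by rw [mem_inter_iff, mem_inter_iff, hL.cone r hr p, hL'.cone r hr p]
  sym := fun s hs p hp => by
    rw [mem_inter_iff, mem_inter_iff, hL.sym s hs p hp, hL'.sym s hs p hp]

theorem xl_interior (hv : ConvexIndependent ℝ v) {L : Set (ℂ × ℝ)} (hL : XL v L) :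
    XL v (interior L) where
  sub := interior_subset.trans hL.sub
  cone := fun r hr p => by
    have hc : ∀ t : ℝ, Continuous (fun p : ℂ × ℝ => (((t : ℂ) * p.1, t * p.2) : ℂ × ℝ)) :=
      fun t => (continuous_const.mul continuous_fst).prodMk (continuous_const.mul continuous_snd)
    have key : ∀ t : ℝ, 0 < t → ∀ q : ℂ × ℝ,
        (((t : ℂ) * q.1, t * q.2) : ℂ × ℝ) ∈ interior L → q ∈ interior L := by
      intro t ht q hq
      refine mem_interior.2 ⟨_, ?_, isOpen_interior.preimage (hc t), hq⟩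
      intro z hz
      exact (hL.cone t ht z).1 (interior_subset hz)
    refine ⟨key r hr p, fun hp => ?_⟩
    apply key r⁻¹ (inv_pos.2 hr)
    have hr' : (r : ℂ) ≠ 0 := by exact_mod_cast hr.ne'
    have e : ((((r⁻¹ : ℝ) : ℂ) * ((r : ℂ) * p.1), r⁻¹ * (r * p.2)) : ℂ × ℝ) = p := by
      ext
      · simp only [ofReal_inv]
        field_simp
      · simp only
        field_simp
    rw [e]
    exact hp
  sym := fun s hs p hp => by
    have hne := v_sub_ne hv hs.1
    constructor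
    · intro h
      refine mem_interior.2 ⟨RL v s ⁻¹' (interior L) ∩ EX v s, ?_,
        (isOpen_interior.preimage (continuous_RL s)).inter (isOpen_EX s), h, hp⟩
      rintro z ⟨hz1, hz2⟩
      exact (hL.sym s hs z hz2).1 (interior_subset hz1)
    · intro h
      refine mem_interior.2 ⟨RL v s ⁻¹' (interior L) ∩ EN v s, ?_,
        (isOpen_interior.preimage (continuous_RL s)).inter (isOpen_EN s), ?_, RL_en hne hp⟩
      · rintro z ⟨hz1, hz2⟩
        have h2 := (hL.sym s hs (RL v s z) (RL_ex hne hz2)).2 (interior_subset hz1)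
        rwa [RL_RL hne] at h2
      · rw [mem_preimage, RL_RL hne]
        exact h

theorem xl_closure (hn : 3 ≤ n) (hv : ConvexIndependent ℝ v) {L : Set (ℂ × ℝ)} (hL : XL v L) :
    XL v (MM v ∩ closure L) := by
  have e : MM v ∩ closure L = MM v \ interior (MM v \ L) := by
    have e1 : interior (MM v \ L) = MM v ∩ (closure L)ᶜ := by
      rw [Set.sdiff_eq, interior_inter, isOpen_MM.interior_eq, interior_compl]
    rw [e1]
    ext p
    simp only [mem_inter_iff, Set.mem_sdiff, mem_compl_iff, not_and, not_not]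
    tauto
  rw [e]
  exact xl_diff hn hv (xl_interior hv (xl_diff hn hv hL))

theorem xl_ng (hv : ConvexIndependent ℝ v) {L : Set (ℂ × ℝ)} (hL : XL v L) :
    XL v (ng ⁻¹' L) where
  sub := fun _ hp => ng_mem_MM (hL.sub hp)
  cone := fun r hr p => by
    have e : ng ((((r : ℂ) * p.1, r * p.2)) : ℂ × ℝ) =
        ((((r : ℂ) * (ng p).1, r * (ng p).2)) : ℂ × ℝ) := by
      simp only [ng]
      ext
      · simp
      · simp
    rw [mem_preimage, mem_preimage, e]
    exact hL.cone r hr (ng p)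
  sym := fun s hs p hp => by
    have hne := v_sub_ne hv hs.1
    have h := hL.sym s hs (ng (RL v s p)) (ng_RL_ex hne hp)
    rw [RL_ng hne] at h
    exact h.symm

theorem xl_lorb (hn : 3 ≤ n) (hv : ConvexIndependent ℝ v) {p : ℂ × ℝ} (hp : p ∈ MM v) :
    XL v (lorb v p) where
  sub := fun _ hq => hq _ (xl_MM hn hv) hp
  cone := fun r hr q => by
    refine forall_congr' fun L => forall_congr' fun hL => forall_congr' fun _ => ?_
    exact hL.cone r hr q
  sym := fun s hs q hq => by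
    refine forall_congr' fun L => forall_congr' fun hL => forall_congr' fun _ => ?_
    exact hL.sym s hs q hq

theorem mem_lorb (p : ℂ × ℝ) : p ∈ lorb v p := fun _ _ h => h

theorem lorb_congr {p q : ℂ × ℝ} (h : ∀ L, XL v L → (p ∈ L ↔ q ∈ L)) : lorb v p = lorb v q := by
  ext z
  refine forall_congr' fun L => forall_congr' fun hL => ?_
  rw [h L hL]

theorem xl_sat (hn : 3 ≤ n) (hv : ConvexIndependent ℝ v) (U : Set (ℂ × ℝ)) : XL v (sat v U) where
  sub := fun _ hp => hp.1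
  cone := fun r hr p => by
    have h1 : lorb v (((r : ℂ) * p.1, r * p.2) : ℂ × ℝ) = lorb v p :=
      lorb_congr fun L hL => hL.cone r hr p
    simp only [sat, mem_ofPred_eq]
    rw [h1, sc_mem_MM hr p]
  sym := fun s hs p hp => by
    have h1 : lorb v (RL v s p) = lorb v p := lorb_congr fun L hL => hL.sym s hs p hp
    simp only [sat, mem_ofPred_eq]
    rw [h1, (xl_MM hn hv).sym s hs p hp]

theorem sub_sat (U : Set (ℂ × ℝ)) : U ∩ MM v ⊆ sat v U :=
  fun p hp => ⟨hp.2, p, mem_lorb p, hp.1⟩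

theorem sat_sub (hn : 3 ≤ n) (hv : ConvexIndependent ℝ v) {U L : Set (ℂ × ℝ)} (hL : XL v L)
    (h : U ∩ MM v ⊆ L) : sat v U ⊆ L := by
  rintro p ⟨hp, q, hq, hqU⟩
  by_contra hpL
  have h1 := hq _ (xl_diff hn hv hL) ⟨hp, hpL⟩
  exact h1.2 (h ⟨hqU, h1.1⟩)

theorem isOpen_sat (hn : 3 ≤ n) (hv : ConvexIndependent ℝ v) {U : Set (ℂ × ℝ)} (hU : IsOpen U) :
    IsOpen (sat v U) := by
  rw [← subset_interior_iff_isOpen]
  exact sat_sub hn hv (xl_interior hv (xl_sat hn hv U))
    (interior_maximal (sub_sat U) (hU.inter isOpen_MM))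

end EAux

open EAux

/-- (E) -/
theorem stmtE : StmtE := fun _ hn _ hv =>
  ⟨xl_MM hn hv, isOpen_MM, fun _ hL => xl_diff hn hv hL, fun _ _ hL hL' => xl_inter hL hL',
    fun _ hL => xl_interior hv hL, fun _ hL => xl_closure hn hv hL, fun _ hL => xl_ng hv hL,
    fun p hp => ⟨xl_lorb hn hv hp, mem_lorb p⟩, fun U => ⟨xl_sat hn hv U, sub_sat U⟩,
    fun _ hU => isOpen_sat hn hv hU, fun _ _ hL h => sat_sub hn hv hL h⟩

end Pool.Agent.Lib.BTop
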