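import Pool.Agent.Lib.MP_7bc51d_an_top.Stmts
import Pool.Agent.Lib.MP_7bc51d_an.Label2
import Pool.Agent.Lib.MP_7bc51d_an.Global
import Pool.Agent.Lib.MP_7bc51d_an.Next

/-!
# Project OC, module B: 0-1 law at the vertices
-/

set_option autoImplicit false

namespace Pool.Agent.Lib.BTop

open Complex MeasureTheory Set Filter Topology
open scoped ComplexConjugate
open Pool.Agent.Lib.Bil

namespace BM

variable {n : ℕ} {v : Fin n → ℂ}

/-- the beginning of the ray from `a` in direction `e` lies in lines of `L` of direction `w` -/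
def Gm (L : Set (ℂ × ℝ)) (a e w : ℂ) : Prop :=
  ∃ ε : ℝ, 0 < ε ∧ ∀ t : ℝ, 0 < t → t < ε → (w, cr w (a + (t : ℂ) * e)) ∈ L

theorem Gm_same {L : Set (ℂ × ℝ)} {a e e' w : ℂ} {r : ℝ} (hr : 0 < r)
    (he : cr w e' = r * cr w e) (h : Gm L a e w) : Gm L a e' w := by
  obtain ⟨ε, hε, h1⟩ := h
  refine ⟨ε / r, by positivity, fun t ht ht2 => ?_⟩
  rw [lt_div_iff₀ hr, mul_comm] at ht2
  have h2 := h1 (r * t) (by positivity) ht2
  rw [cr_add_right, cr_smul_right] at h2 ⊢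
  rw [he]
  rw [show t * (r * cr w e) = r * t * cr w e by ring]
  exact h2

/-- a positive strip -/
theorem Gm_pos {L : Set (ℂ × ℝ)} {a e w : ℂ} (hwe : 0 < cr w e) :
    Gm L a e w ↔ ∃ N : ℕ, ∀ q : ℝ, cr w a < q → q < cr w a + 1 / ((N : ℝ) + 1) * cr w e →
      (w, q) ∈ L := by
  constructor
  · rintro ⟨ε, hε, h⟩
    obtain ⟨N, hN⟩ := exists_nat_one_div_lt hε
    refine ⟨N, fun q h1 h2 => ?_⟩
    have h3 := h ((q - cr w a) / cr w e) (div_pos (by linarith) hwe) (by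
      rw [div_lt_iff₀ hwe]
      have := mul_lt_mul_of_pos_right hN hwe
      linarith)
    rw [cr_add_right, cr_smul_right, div_mul_cancel₀ _ hwe.ne', add_sub_cancel] at h3
    exact h3
  · rintro ⟨N, h⟩
    refine ⟨1 / ((N : ℝ) + 1), by positivity, fun t ht ht2 => ?_⟩
    apply h
    · rw [cr_add_right, cr_smul_right]
      have := mul_pos ht hwe
      linarith
    · rw [cr_add_right, cr_smul_right]
      have := mul_lt_mul_of_pos_right ht2 hwe
      linarith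

/-- a negative strip -/
theorem Gm_neg {L : Set (ℂ × ℝ)} {a e w : ℂ} (hwe : cr w e < 0) :
    Gm L a e w ↔ ∃ N : ℕ, ∀ q : ℝ, cr w a + 1 / ((N : ℝ) + 1) * cr w e < q → q < cr w a →
      (w, q) ∈ L := by
  constructor
  · rintro ⟨ε, hε, h⟩
    obtain ⟨N, hN⟩ := exists_nat_one_div_lt hε
    refine ⟨N, fun q h1 h2 => ?_⟩
    have h3 := h ((q - cr w a) / cr w e) (div_pos_of_neg_of_neg (by linarith) hwe) (by
      rw [div_lt_iff_of_neg hwe]
      have := mul_lt_mul_of_neg_right hN hwe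
      linarith)
    rw [cr_add_right, cr_smul_right, div_mul_cancel₀ _ hwe.ne, add_sub_cancel] at h3
    exact h3
  · rintro ⟨N, h⟩
    refine ⟨1 / ((N : ℝ) + 1), by positivity, fun t ht ht2 => ?_⟩
    apply h
    · rw [cr_add_right, cr_smul_right]
      have := mul_lt_mul_of_neg_right ht2 hwe
      linarith
    · rw [cr_add_right, cr_smul_right]
      have := mul_neg_of_pos_of_neg ht hwe
      linarith

theorem measurableSet_Gm {L : Set (ℂ × ℝ)} (hL : OF v L) (a e : ℂ) :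
    MeasurableSet {w : ℂ | cr w e ≠ 0 ∧ Gm L a e w} := by
  have c0 : ∀ z : ℂ, Continuous (fun w : ℂ => cr w z) := by
    intro z
    unfold cr
    fun_prop
  have c1 : ∀ N : ℕ, Continuous (fun w : ℂ => cr w a + 1 / ((N : ℝ) + 1) * cr w e) := fun N =>
    (c0 a).add (continuous_const.mul (c0 e))
  have e1 : {w : ℂ | cr w e ≠ 0 ∧ Gm L a e w} =
      ({w : ℂ | 0 < cr w e} ∩ ⋃ N : ℕ, {w : ℂ | ∀ q : ℝ, cr w a < q →
        q < cr w a + 1 / ((N : ℝ) + 1) * cr w e → (w, q) ∈ L}) ∪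
      ({w : ℂ | cr w e < 0} ∩ ⋃ N : ℕ, {w : ℂ | ∀ q : ℝ,
        cr w a + 1 / ((N : ℝ) + 1) * cr w e < q → q < cr w a → (w, q) ∈ L}) := by
    ext w
    simp only [mem_union, mem_inter_iff, mem_iUnion, mem_ofPred_eq]
    constructor
    · rintro ⟨h1, h2⟩
      rcases lt_or_gt_of_ne h1 with h3 | h3
      · exact Or.inr ⟨h3, (Gm_neg h3).1 h2⟩
      · exact Or.inl ⟨h3, (Gm_pos h3).1 h2⟩
    · rintro (⟨h1, h2⟩ | ⟨h1, h2⟩)
      · exact ⟨h1.ne', (Gm_pos h1).2 h2⟩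
      · exact ⟨h1.ne, (Gm_neg h1).2 h2⟩
  rw [e1]
  refine ((isOpen_lt continuous_const (c0 e)).measurableSet.inter
    (MeasurableSet.iUnion fun N => hL.meas _ _ (c0 a) (c1 N))).union
    ((isOpen_lt (c0 e) continuous_const).measurableSet.inter
    (MeasurableSet.iUnion fun N => hL.meas _ _ (c1 N) (c0 a)))

theorem Gm_cone {L : Set (ℂ × ℝ)} (hL : OF v L) (a e w : ℂ) {r : ℝ} (hr : 0 < r) :
    Gm L a e w ↔ Gm L a e ((r : ℂ) * w) := by
  unfold Gm
  have h : ∀ x : ℂ, (((r : ℂ) * w, cr ((r : ℂ) * w) x) : ℂ × ℝ) ∈ L ↔ (w, cr w x) ∈ L := by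
    intro x
    rw [cr_smul_left]
    exact hL.cone r hr (w, cr w x)
  simp_rw [h]

/-- symmetry at the points of a side -/
theorem side_sym (hv : ConvexIndependent ℝ v) {L : Set (ℂ × ℝ)} (hL : OF v L)
    {s : Fin n × Fin n} (hs : IsSide v s.1 s.2) :
    ∀ᵐ w : ℂ, ∀ τ : ℝ, 0 < τ → τ < 1 →
      ((w, cr w (v s.1 + (τ : ℂ) * (v s.2 - v s.1))) ∈ L ↔
        (rl (v s.2 - v s.1) w,
          cr (rl (v s.2 - v s.1) w) (v s.1 + (τ : ℂ) * (v s.2 - v s.1))) ∈ L) := by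
  have hne := v_sub_ne hv hs.1
  have h1 := hL.sym
  have h2 := (mp_rl hne).quasiMeasurePreserving.ae h1
  have key : ∀ w : ℂ, (∀ s' : Fin n × Fin n, IsSide v s'.1 s'.2 → ∀ q : ℝ, (w, q) ∈ EX v s' →
      (RL v s' (w, q) ∈ L ↔ (w, q) ∈ L)) → 0 < cr w (v s.2 - v s.1) → ∀ τ : ℝ, 0 < τ → τ < 1 →
      ((w, cr w (v s.1 + (τ : ℂ) * (v s.2 - v s.1))) ∈ L ↔
        (rl (v s.2 - v s.1) w,
          cr (rl (v s.2 - v s.1) w) (v s.1 + (τ : ℂ) * (v s.2 - v s.1))) ∈ L) := by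
    intro w hw hpos τ t0 t1
    have hex : (w, cr w (v s.1 + (τ : ℂ) * (v s.2 - v s.1))) ∈ EX v s := by
      show cr w (v s.1) < cr w (v s.1 + (τ : ℂ) * (v s.2 - v s.1)) ∧
        cr w (v s.1 + (τ : ℂ) * (v s.2 - v s.1)) < cr w (v s.2)
      have e2 : cr w (v s.2) = cr w (v s.1) + cr w (v s.2 - v s.1) := by
        rw [cr_sub_right]; ring
      rw [cr_add_right, cr_smul_right, e2]
      constructor
      · have := mul_pos t0 hpos
        linarith
      · nlinarith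
    have h3 := hw s hs _ hex
    rw [← h3]
    have e3 : RR v s.1 s.2 (v s.1 + (τ : ℂ) * (v s.2 - v s.1))
        = v s.1 + (τ : ℂ) * (v s.2 - v s.1) := by
      rw [RR_add, RR_left, rl_smul, rl_self hne]
    have e4 : RL v s (w, cr w (v s.1 + (τ : ℂ) * (v s.2 - v s.1))) =
        (rl (v s.2 - v s.1) w,
          cr (rl (v s.2 - v s.1) w) (v s.1 + (τ : ℂ) * (v s.2 - v s.1))) := by
      show (rl (v s.2 - v s.1) w, rfh v s w (cr w (v s.1 + (τ : ℂ) * (v s.2 - v s.1)))) = _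
      rw [← rfh_eq s hne, e3]
    rw [e4]
  filter_upwards [h1, h2, ae_cr_ne _ hne] with w g1 g2 g3 τ t0 t1
  rcases lt_or_gt_of_ne g3 with g4 | g4
  · have g5 : 0 < cr (rl (v s.2 - v s.1) w) (v s.2 - v s.1) := by
      have e5 := cr_rl hne w (v s.2 - v s.1)
      rw [rl_self hne] at e5
      rw [e5]
      linarith
    have g6 := key _ g2 g5 τ t0 t1
    rw [rl_rl hne] at g6
    exact g6.symm
  · exact key w g1 g4 τ t0 t1

theorem Gm_iff_of_eq {L : Set (ℂ × ℝ)} {a e w w' : ℂ}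
    (h : ∀ τ : ℝ, 0 < τ → τ < 1 → ((w, cr w (a + (τ : ℂ) * e)) ∈ L ↔
      (w', cr w' (a + (τ : ℂ) * e)) ∈ L)) : Gm L a e w ↔ Gm L a e w' := by
  constructor
  · rintro ⟨ε, hε, h1⟩
    refine ⟨min ε 1, lt_min hε one_pos, fun t t0 t1 => ?_⟩
    exact (h t t0 (t1.trans_le (min_le_right _ _))).1 (h1 t t0 (t1.trans_le (min_le_left _ _)))
  · rintro ⟨ε, hε, h1⟩
    refine ⟨min ε 1, lt_min hε one_pos, fun t t0 t1 => ?_⟩
    exact (h t t0 (t1.trans_le (min_le_right _ _))).2 (h1 t t0 (t1.trans_le (min_le_left _ _)))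

theorem Gm_refl_next (hv : ConvexIndependent ℝ v) {L : Set (ℂ × ℝ)} (hL : OF v L)
    {k q : Fin n} (hkq : IsSide v k q) :
    ∀ᵐ w : ℂ, (Gm L (v k) (v q - v k) w ↔ Gm L (v k) (v q - v k) (rl (v q - v k) w)) := by
  filter_upwards [side_sym hv hL (s := (k, q)) hkq] with w hw
  exact Gm_iff_of_eq hw

theorem Gm_refl_prev (hv : ConvexIndependent ℝ v) {L : Set (ℂ × ℝ)} (hL : OF v L)
    {p k : Fin n} (hpk : IsSide v p k) :
    ∀ᵐ w : ℂ, (Gm L (v k) (v p - v k) w ↔ Gm L (v k) (v p - v k) (rl (v p - v k) w)) := by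
  filter_upwards [side_sym hv hL (s := (p, k)) hpk] with w hw
  apply Gm_iff_of_eq
  intro τ t0 t1
  have h1 : (w, cr w (v p + ((1 - τ : ℝ) : ℂ) * (v k - v p))) ∈ L ↔
      (rl (v k - v p) w, cr (rl (v k - v p) w) (v p + ((1 - τ : ℝ) : ℂ) * (v k - v p))) ∈ L :=
    hw (1 - τ) (by linarith) (by linarith)
  have e1 : v p + ((1 - τ : ℝ) : ℂ) * (v k - v p) = v k + (τ : ℂ) * (v p - v k) := by
    push_cast; ring
  have e2 : rl (v k - v p) w = rl (v p - v k) w := by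
    rw [← rl_neg_left (v p - v k), neg_sub]
  rw [e1, e2] at h1
  exact h1

/-- no births, for both orientations -/
theorem births (hA : StmtA) (hD : StmtD) (hn : 3 ≤ n) (hv : ConvexIndependent ℝ v)
    {L : Set (ℂ × ℝ)} (hL : OF v L) (k : Fin n) :
    ∀ᵐ θ : ℂ, (Out v k θ ∨ Out v k (-θ)) → ∀ δ : ℝ, 0 < δ →
    ((∀ q : ℝ, cr θ (v k) < q → q < cr θ (v k) + δ → (θ, q) ∈ L) → (θ, cr θ (v k)) ∈ L) ∧
    ((∀ q : ℝ, cr θ (v k) - δ < q → q < cr θ (v k) → (θ, q) ∈ L) → (θ, cr θ (v k)) ∈ L) := by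
  have h1 := hA n hn v hv L hL k
  have h2 := hA n hn v hv _ ((hD n hn v hv).2.1 L hL) k
  filter_upwards [h1, ae_neg h2] with θ g1 g2 g3 δ hδ
  rcases g3 with g3 | g3
  · exact g1 g3 δ hδ
  · have g4 := g2 g3 δ hδ
    have e1 : ∀ q : ℝ, ((-θ, q) ∈ ng ⁻¹' L ↔ (θ, -q) ∈ L) := by
      intro q
      show (- -θ, -q) ∈ L ↔ _
      rw [neg_neg]
    simp only [e1, cr_neg_left, neg_neg] at g4
    constructor
    · intro g5
      apply g4.2
      intro q q1 q2
      exact g5 (-q) (by linarith) (by linarith)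
    · intro g5
      apply g4.1
      intro q q1 q2
      exact g5 (-q) (by linarith) (by linarith)

/-- a germ gives the vertex line -/
theorem vertex_of_Gm {L : Set (ℂ × ℝ)} {a e w : ℂ} (hwe : cr w e ≠ 0)
    (hb : ∀ δ : ℝ, 0 < δ →
    ((∀ q : ℝ, cr w a < q → q < cr w a + δ → (w, q) ∈ L) → (w, cr w a) ∈ L) ∧
    ((∀ q : ℝ, cr w a - δ < q → q < cr w a → (w, q) ∈ L) → (w, cr w a) ∈ L))
    (h : Gm L a e w) : (w, cr w a) ∈ L := by
  rcases lt_or_gt_of_ne hwe with h1 | h1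
  · obtain ⟨N, hN⟩ := (Gm_neg h1).1 h
    have hp : 0 < -(1 / ((N : ℝ) + 1) * cr w e) := by
      have : 0 < 1 / ((N : ℝ) + 1) := by positivity
      have := mul_neg_of_pos_of_neg this h1
      linarith
    refine (hb _ hp).2 fun q q1 q2 => hN q (by linarith) q2
  · obtain ⟨N, hN⟩ := (Gm_pos h1).1 h
    have hp : 0 < 1 / ((N : ℝ) + 1) * cr w e := by positivity
    exact (hb _ hp).1 fun q q1 q2 => hN q q1 q2

/-- the vertex line gives all germs -/
theorem Gm_of_vertex {L : Set (ℂ × ℝ)} (hL : OF v L) {a w : ℂ} (e : ℂ)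
    (h : (w, cr w a) ∈ L) : Gm L a e w := by
  have h1 := Metric.isOpen_iff.1 (hL.op w) (cr w a) h
  obtain ⟨ε, hε, h2⟩ := h1
  refine ⟨ε / (|cr w e| + 1), by positivity, fun t t0 t1 => ?_⟩
  apply h2
  rw [Metric.mem_ball, Real.dist_eq, cr_add_right, cr_smul_right, add_sub_cancel_left, abs_mul,
    abs_of_pos t0]
  rw [lt_div_iff₀ (by positivity)] at t1
  have := abs_nonneg (cr w e)
  nlinarith

/-- Matching of the two sides at a vertex. -/
theorem Gm_match (hA : StmtA) (hD : StmtD) (hn : 3 ≤ n) (hv : ConvexIndependent ℝ v)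
    {L : Set (ℂ × ℝ)} (hL : OF v L) {p k q : Fin n} (hkq : IsSide v k q) (hpk : IsSide v p k) :
    ∀ᵐ w : ℂ, (Gm L (v k) (v q - v k) w ↔ Gm L (v k) (v p - v k) w) := by
  have hne1 := v_sub_ne hv hkq.1
  have hne2 := v_sub_ne hv (Ne.symm hpk.1)
  filter_upwards [births hA hD hn hv hL k, ae_cr_ne _ hne1, ae_cr_ne _ hne2] with w h1 h2 h3
  have hcase : (Out v k w ∨ Out v k (-w)) →
      (Gm L (v k) (v q - v k) w ↔ Gm L (v k) (v p - v k) w) := by
    intro h4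
    exact ⟨fun h => Gm_of_vertex hL _ (vertex_of_Gm h2 (h1 h4) h),
      fun h => Gm_of_vertex hL _ (vertex_of_Gm h3 (h1 h4) h)⟩
  rcases lt_or_gt_of_ne h2 with s1 | s1 <;> rcases lt_or_gt_of_ne h3 with s2 | s2
  · have e1 : cr w (v p - v k) = (cr w (v p - v k) / cr w (v q - v k)) * cr w (v q - v k) := by
      field_simp
    have e2 : cr w (v q - v k) = (cr w (v q - v k) / cr w (v p - v k)) * cr w (v p - v k) := by
      field_simp
    exact ⟨fun h => Gm_same (div_pos_of_neg_of_neg s2 s1) e1 h,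
      fun h => Gm_same (div_pos_of_neg_of_neg s1 s2) e2 h⟩
  · exact hcase (Or.inl (out_of_cone hn hkq hpk s1 s2))
  · refine hcase (Or.inr (out_of_cone hn hkq hpk ?_ ?_))
    · rw [cr_neg_left]; linarith
    · rw [cr_neg_left]; linarith
  · have e1 : cr w (v p - v k) = (cr w (v p - v k) / cr w (v q - v k)) * cr w (v q - v k) := by
      field_simp
    have e2 : cr w (v q - v k) = (cr w (v q - v k) / cr w (v p - v k)) * cr w (v p - v k) := by
      field_simp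
    exact ⟨fun h => Gm_same (div_pos s2 s1) e1 h, fun h => Gm_same (div_pos s1 s2) e2 h⟩

/-- Rotation invariance of the germs at a vertex. -/
theorem Gm_rot (hA : StmtA) (hD : StmtD) (hn : 3 ≤ n) (hv : ConvexIndependent ℝ v)
    {L : Set (ℂ × ℝ)} (hL : OF v L) {p k q : Fin n} (hkq : IsSide v k q) (hpk : IsSide v p k)
    {c₀ : ℂ} (hc₀ : ∀ w : ℂ, rl (v p - v k) (rl (v q - v k) w) = c₀ * w) :
    ∀ᵐ w : ℂ, (Gm L (v k) (v q - v k) w ↔ Gm L (v k) (v q - v k) (c₀ * w)) := by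
  have hne1 := v_sub_ne hv hkq.1
  have hne2 := v_sub_ne hv (Ne.symm hpk.1)
  have hmp : MeasurePreserving (fun w : ℂ => c₀ * w) volume volume := by
    have := (mp_rl hne2).comp (mp_rl hne1)
    convert this using 1
    funext w
    exact (hc₀ w).symm
  have h1 := Gm_refl_next hv hL hkq
  have h2 := (mp_rl hne1).quasiMeasurePreserving.ae (Gm_match hA hD hn hv hL hkq hpk)
  have h3 := (mp_rl hne1).quasiMeasurePreserving.ae (Gm_refl_prev hv hL hpk)
  have h4 := hmp.quasiMeasurePreserving.ae (Gm_match hA hD hn hv hL hkq hpk)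
  filter_upwards [h1, h2, h3, h4] with w g1 g2 g3 g4
  rw [g1, g2, g3, hc₀, ← g4]

theorem dich (hA : StmtA) (hD : StmtD) (hn : 3 ≤ n) (hv : ConvexIndependent ℝ v)
    {L : Set (ℂ × ℝ)} (hL : OF v L) {p k q : Fin n} (hkq : IsSide v k q) (hpk : IsSide v p k)
    (hirr : ∀ m : ℕ, 0 < m → (((v q - v k) / (v p - v k)) ^ m).im ≠ 0) :
    (∀ᵐ w : ℂ, ¬ Gm L (v k) (v q - v k) w) ∨ (∀ᵐ w : ℂ, Gm L (v k) (v q - v k) w) := by
  have hne := v_sub_ne hv hkq.1
  have hne' := v_sub_ne hv (Ne.symm hpk.1)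
  have hrot := fun (c₀ : ℂ) (h : ∀ w : ℂ, rl (v p - v k) (rl (v q - v k) w) = c₀ * w) =>
    Gm_rot hA hD hn hv hL hkq hpk h
  set a := v q - v k with ha
  set a' := v p - v k with ha'
  have hca : conj a ≠ 0 := by simpa using hne
  have hca' : conj a' ≠ 0 := by simpa using hne'
  set c : ℂ := a' / conj a' * (conj a / a) with hc
  have hcw : ∀ w : ℂ, rl a' (rl a w) = c * w := by
    intro w
    simp only [rl, map_mul, map_div₀, conj_conj, hc]
    ring
  have hcn : ‖c‖ = 1 := by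
    have h1 : ‖a‖ ≠ 0 := by simpa using hne
    have h2 : ‖a'‖ ≠ 0 := by simpa using hne'
    rw [hc, norm_mul, norm_div, norm_div, RCLike.norm_conj, RCLike.norm_conj]
    field_simp
  have hinv := hrot c hcw
  have hord : ∀ m : ℕ, 0 < m → c ^ m ≠ 1 := by
    intro m hm h
    apply hirr m hm
    have hz : (a / a') ≠ 0 := div_ne_zero hne hne'
    have h1 : c = conj (a / a') / (a / a') := by
      rw [hc, map_div₀]; field_simp
    rw [h1, div_pow, div_eq_one_iff_eq (pow_ne_zero _ hz), ← map_pow] at h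
    exact Complex.conj_eq_iff_im.1 h
  have hcr := ae_cr_ne a hne
  have hmp : MeasurePreserving (fun w : ℂ => c * w) volume volume := by
    have := (mp_rl hne').comp (mp_rl hne)
    convert this using 1
    funext w
    exact (hcw w).symm
  have hcr' := hmp.quasiMeasurePreserving.ae hcr
  have hdich : volume {w : ℂ | cr w a ≠ 0 ∧ Gm L (v k) a w} = 0 ∨
      volume {w : ℂ | cr w a ≠ 0 ∧ Gm L (v k) a w}ᶜ = 0 := by
    refine rot_ergodic (measurableSet_Gm hL _ _) (fun z r hr => ?_) hcn hord ?_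
    · show (cr z a ≠ 0 ∧ Gm L (v k) a z) ↔ (cr ((r : ℂ) * z) a ≠ 0 ∧ Gm L (v k) a ((r : ℂ) * z))
      rw [← Gm_cone hL _ _ _ hr, cr_smul_left, mul_ne_zero_iff]
      exact ⟨fun h => ⟨⟨hr.ne', h.1⟩, h.2⟩, fun h => ⟨h.1.2, h.2⟩⟩
    · filter_upwards [hinv, hcr, hcr'] with w g1 g2 g3
      exact ⟨fun h => ⟨g3, g1.1 h.2⟩, fun h => ⟨g2, g1.2 h.2⟩⟩
  rcases hdich with h0 | h0
  · left
    filter_upwards [measure_eq_zero_iff_ae_notMem.1 h0, hcr] with w g1 g2 g3
    exact g1 ⟨g2, g3⟩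
  · right
    filter_upwards [measure_eq_zero_iff_ae_notMem.1 h0] with w g1
    rw [mem_compl_iff, not_not] at g1
    exact g1.2

end BM

open BM in
/-- (B) 0-1 law at the vertices. -/
theorem stmtB (hA : StmtA) (hD : StmtD) : StmtB := by
  intro n hn v hv hirr L hL k
  obtain ⟨q, hkq⟩ := exists_next hn hv k
  obtain ⟨p, hp⟩ := (nxt_bijective hn hv).2 k
  have hpk : IsSide v p k := by
    have := nxt_side hn hv p
    rwa [hp] at this
  have hne := v_sub_ne hv hkq.1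
  rcases dich hA hD hn hv hL hkq hpk (hirr p k q hkq hpk) with h | h
  · right
    filter_upwards [h] with θ g1 g2 g3
    exact g1 (Gm_of_vertex hL _ g3)
  · left
    filter_upwards [h, births hA hD hn hv hL k, ae_cr_ne _ hne] with θ g1 g2 g3 g4
    exact vertex_of_Gm g3 (g2 g4) g1

end Pool.Agent.Lib.BTop
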