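import Pool.Agent.Lib.MP_7bc51d_an_top.Stmts

/-!
# Orbit closures of irrational polygonal billiards: module C

A set of lines with open slices which has no vertex is empty.
-/

set_option autoImplicit false

namespace Pool.Agent.Lib.BTop

open Complex MeasureTheory Set Filter Topology
open Pool.Agent.Lib.Bil

namespace ModC

variable {n : ℕ} {v : Fin n → ℂ}

/-- A direction which leads from the vertex into the polygon is outgoing. -/
theorem out_of_mem {k : Fin n} {w : ℂ} {t : ℝ} (ht : 0 < t) (h : v k + (t : ℂ) * w ∈ PP v) :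
    Out v k w := by
  refine ⟨t, ht, fun s hs hst => ?_⟩
  rcases eq_or_lt_of_le hst with rfl | hst
  · exact h
  apply convex_KK.openSegment_self_interior_subset_interior (vert_mem_KK k) h
  rw [openSegment_eq_image]
  refine ⟨s / t, ⟨by positivity, by rw [div_lt_one ht]; exact hst⟩, ?_⟩
  have ht' : (t : ℂ) ≠ 0 := by exact_mod_cast ht.ne'
  simp only [real_smul]
  push_cast
  field_simp
  ring

/-- A line through a vertex which meets the open polygon leaves the vertex or enters it. -/
theorem out_or {k : Fin n} {w x : ℂ} (hw : w ≠ 0) (hx : x ∈ PP v) (h : cr w x = cr w (v k)) :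
    Out v k w ∨ Out v k (-w) := by
  have h1 : cr w (x - v k) = 0 := by rw [cr_sub_right, h, sub_self]
  obtain ⟨t, ht⟩ := (cr_eq_zero_iff hw).1 h1
  have hx' : x = v k + (t : ℂ) * w := by rw [← ht]; ring
  rcases lt_trichotomy t 0 with h2 | h2 | h2
  · right
    refine out_of_mem (t := -t) (by linarith) ?_
    rw [hx'] at hx
    convert hx using 1
    push_cast
    ring
  · left
    rw [h2, ofReal_zero, zero_mul, add_zero] at hx'
    rw [hx'] at hx
    have hopen : IsOpen {s : ℝ | v k + (s : ℂ) * w ∈ PP v} := isOpen_PP.preimage (by fun_prop)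
    have hmem : (0 : ℝ) ∈ {s : ℝ | v k + (s : ℂ) * w ∈ PP v} := by simpa using hx
    obtain ⟨ε, hε, hb⟩ := Metric.isOpen_iff.1 hopen 0 hmem
    refine out_of_mem (t := ε / 2) (by positivity) (hb ?_)
    rw [Metric.mem_ball, Real.dist_eq, sub_zero, abs_of_pos (by positivity)]
    linarith
  · left
    refine out_of_mem h2 ?_
    rw [hx'] at hx
    exact hx

/-- Transport of a strip of lines of `L` until it contains a vertex. -/
theorem strip_transport (hv : ConvexIndependent ℝ v) {L : Set (ℂ × ℝ)} {w x : ℂ} {ε : ℝ}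
    (hgood : ∀ g : List (Fin n × Fin n), Val v g → ∀ s : Fin n × Fin n, IsSide v s.1 s.2 →
      ∀ q : ℝ, (Lo v g w, q) ∈ EX v s → (RL v s (Lo v g w, q) ∈ L ↔ (Lo v g w, q) ∈ L))
    (h0 : ∀ q : ℝ, |q - cr w x| < ε → (w, q) ∈ L) :
    ∀ g : List (Fin n × Fin n), Rz v g x w →
      (∀ q : ℝ, |q - cr (Lo v g w) (Fo v g x)| < ε → (Lo v g w, q) ∈ L) ∨
      ∃ g' : List (Fin n × Fin n), ∃ l, Rz v g' x w ∧ |cr (Lo v g' w) (v l - Fo v g' x)| < ε ∧
        ∀ q : ℝ, |q - cr (Lo v g' w) (Fo v g' x)| < ε → (Lo v g' w, q) ∈ L := by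
  intro g
  induction g with
  | nil => intro _; left; exact h0
  | cons s g ih =>
    rintro ⟨h1, h2, h3, h4⟩
    rcases ih h1 with h5 | h5
    · by_cases hl : ∃ l, |cr (Lo v g w) (v l - Fo v g x)| < ε
      · obtain ⟨l, hl⟩ := hl
        exact Or.inr ⟨g, l, h1, hl, h5⟩
      · left
        push Not at hl
        have k1 := hl s.1
        have k2 := hl s.2
        rw [cr_sub_right] at k1 k2
        have e1 : cr (Lo v g w) (v s.1) + ε ≤ cr (Lo v g w) (Fo v g x) := by
          rw [abs_of_neg (by linarith)] at k1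
          linarith
        have e2 : cr (Lo v g w) (Fo v g x) + ε ≤ cr (Lo v g w) (v s.2) := by
          rw [abs_of_pos (by linarith)] at k2
          linarith
        intro q hq
        have e3 : cr (Lo v (s :: g) w) (Fo v (s :: g) x) =
            rfh v s (Lo v g w) (cr (Lo v g w) (Fo v g x)) :=
          rfh_eq s (v_sub_ne hv h2.1) (Lo v g w) (Fo v g x)
        rw [e3] at hq
        set a := cr (rl (v s.2 - v s.1) (Lo v g w)) (v s.1) + cr (Lo v g w) (v s.1) with ha
        have e4 : rfh v s (Lo v g w) (cr (Lo v g w) (Fo v g x)) =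
            a - cr (Lo v g w) (Fo v g x) := rfl
        rw [e4] at hq
        have e5 : |a - q - cr (Lo v g w) (Fo v g x)| < ε := by
          rw [abs_lt] at hq ⊢
          constructor <;> linarith
        have e6 := h5 (a - q) e5
        rw [abs_lt] at e5
        have e7 : (Lo v g w, a - q) ∈ EX v s := by
          constructor
          · change cr (Lo v g w) (v s.1) < a - q
            linarith
          · change a - q < cr (Lo v g w) (v s.2)
            linarith
        have e8 := (hgood g h1.val s h2 (a - q) e7).2 e6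
        have e9 : RL v s (Lo v g w, a - q) = (Lo v (s :: g) w, q) := by
          refine Prod.ext rfl ?_
          change a - (a - q) = q
          ring
        rw [e9] at e8
        exact e8
    · exact Or.inr h5

end ModC

open ModC

/-- (C) a set of lines with open slices which has no vertex is empty. -/
theorem stmtC : StmtC := by
  intro n hn v hv L hL hVN
  have hsym := ae_Lo hv hL.sym
  have hvn : ∀ᵐ w : ℂ, ∀ k : Fin n, (Out v k w ∨ Out v k (-w)) → (w, cr w (v k)) ∉ L := by
    rw [ae_all_iff]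
    exact hVN
  have hvn' := ae_Lo hv hvn
  have h0 : ∀ᵐ w : ℂ, w ≠ 0 := by simp [ae_iff]
  filter_upwards [hsym, hvn', strip hn hv, h0] with w g1 g2 g3 g4 Q hQ
  obtain ⟨-, x, hx, hxQ⟩ := hL.sub hQ
  change cr w x = Q at hxQ
  subst hxQ
  obtain ⟨ε, hε, hb⟩ := Metric.isOpen_iff.1 (hL.op w) _ hQ
  have h1 : ∀ q : ℝ, |q - cr w x| < ε → (w, q) ∈ L := by
    intro q hq
    apply hb
    rw [Metric.mem_ball, Real.dist_eq]
    exact hq
  have hnw : 0 < ‖w‖ := norm_pos_iff.2 g4
  have h2 := g3 x hx (ε / ‖w‖) (by positivity)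
  unfold SF at h2
  push Not at h2
  obtain ⟨g, hg, l, hl⟩ := h2
  rw [div_mul_cancel₀ _ hnw.ne'] at hl
  have h3 : ∃ g' : List (Fin n × Fin n), ∃ l, Rz v g' x w ∧
      |cr (Lo v g' w) (v l - Fo v g' x)| < ε ∧
      ∀ q : ℝ, |q - cr (Lo v g' w) (Fo v g' x)| < ε → (Lo v g' w, q) ∈ L := by
    rcases strip_transport hv g1 h1 g hg with h4 | h4
    · exact ⟨g, l, hg, hl, h4⟩
    · exact h4
  obtain ⟨g', l', k1, k2, k3⟩ := h3
  rw [cr_sub_right] at k2
  have k4 := k3 _ k2
  have hw' : Lo v g' w ≠ 0 := by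
    rw [← norm_pos_iff, norm_Lo hv k1.val]
    exact hnw
  obtain ⟨-, x', hx', hxQ'⟩ := hL.sub k4
  exact g2 g' k1.val l' (out_or hw' hx' hxQ') k4

end Pool.Agent.Lib.BTop
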