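import Pool.Agent.Lib.MP_7bc51d_an_top.Stmts

/-!
# Calculus of invariant sets of lines with open slices
-/

set_option autoImplicit false

namespace Pool.Agent.Lib.BTop

open Complex MeasureTheory Set Filter Topology
open Pool.Agent.Lib.Bil

namespace DAux

variable {n : ℕ} {v : Fin n → ℂ}

theorem rl_neg (a w : ℂ) : rl a (-w) = - rl a w := by
  simp only [rl, map_neg]; ring

theorem RL_ng {s : Fin n × Fin n} (hne : v s.2 - v s.1 ≠ 0) (p : ℂ × ℝ) :
    RL v s (ng (RL v s p)) = ng p := by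
  simp only [RL, rfh, ng, rl_neg, rl_rl hne, cr_neg_left]
  ext
  · rfl
  · simp only; ring

theorem ng_RL_ex {s : Fin n × Fin n} (hne : v s.2 - v s.1 ≠ 0) {p : ℂ × ℝ} (hp : p ∈ EX v s) :
    ng (RL v s p) ∈ EX v s := by
  have h0 := cross_after hne hp.1 hp.2
  obtain ⟨h1, h2⟩ := h0
  refine ⟨?_, ?_⟩
  · simp only [ng, RL, cr_neg_left]; linarith
  · simp only [ng, RL, cr_neg_left]; linarith

theorem ng_mem_MM {p : ℂ × ℝ} (hp : ng p ∈ MM v) : p ∈ MM v := by
  obtain ⟨h1, x, hx, h2⟩ := hp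
  refine ⟨fun h0 => h1 (by simp [ng, h0]), x, hx, ?_⟩
  simp only [ng, cr_neg_left] at h2
  linarith

/-! ### (1) intersections -/

theorem of_inter {L L' : Set (ℂ × ℝ)} (hL : OF v L) (hL' : OF v L') : OF v (L ∩ L') where
  sub := inter_subset_left.trans hL.sub
  cone := fun r hr p => by rw [mem_inter_iff, mem_inter_iff, hL.cone r hr p, hL'.cone r hr p]
  op := fun w => (hL.op w).inter (hL'.op w)
  meas := fun a b ha hb => by
    have e : {w : ℂ | ∀ q : ℝ, a w < q → q < b w → (w, q) ∈ L ∩ L'} =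
        {w : ℂ | ∀ q : ℝ, a w < q → q < b w → (w, q) ∈ L} ∩
        {w : ℂ | ∀ q : ℝ, a w < q → q < b w → (w, q) ∈ L'} := by
      ext w
      constructor
      · intro h
        exact ⟨fun q h1 h2 => (h q h1 h2).1, fun q h1 h2 => (h q h1 h2).2⟩
      · rintro ⟨h1, h2⟩ q h3 h4
        exact ⟨h1 q h3 h4, h2 q h3 h4⟩
    rw [e]
    exact (hL.meas a b ha hb).inter (hL'.meas a b ha hb)
  sym := by
    filter_upwards [hL.sym, hL'.sym] with w h1 h2 s hs q hq
    rw [mem_inter_iff, mem_inter_iff, h1 s hs q hq, h2 s hs q hq]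

/-! ### (2) time reversal -/

theorem of_ng (hv : ConvexIndependent ℝ v) {L : Set (ℂ × ℝ)} (hL : OF v L) :
    OF v (ng ⁻¹' L) where
  sub := fun _ hp => ng_mem_MM (hL.sub hp)
  cone := fun r hr p => by
    have e : ng ((((r : ℂ) * p.1, r * p.2)) : ℂ × ℝ) =
        ((((r : ℂ) * (ng p).1, r * (ng p).2)) : ℂ × ℝ) := by
      simp only [ng]
      ext
      · simp
      · simp
    rw [mem_preimage, mem_preimage, e]
    exact hL.cone r hr (ng p)
  op := fun w => by
    have e : {q : ℝ | (w, q) ∈ ng ⁻¹' L} = (fun q : ℝ => -q) ⁻¹' {q : ℝ | (-w, q) ∈ L} := rfl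
    rw [e]
    exact (hL.op (-w)).preimage continuous_neg
  meas := fun a b ha hb => by
    have h := hL.meas (fun w => - b (-w)) (fun w => - a (-w))
      ((hb.comp continuous_neg).neg) ((ha.comp continuous_neg).neg)
    have e : {w : ℂ | ∀ q : ℝ, a w < q → q < b w → (w, q) ∈ ng ⁻¹' L} = (fun w : ℂ => -w) ⁻¹'
        {w : ℂ | ∀ q : ℝ, - b (-w) < q → q < - a (-w) → (w, q) ∈ L} := by
      ext w
      simp only [mem_ofPred_eq, mem_preimage, neg_neg, ng]
      constructor
      · intro h q h1 h2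
        have := h (-q) (by linarith) (by linarith)
        rwa [neg_neg] at this
      · intro h q h1 h2
        exact h (-q) (by linarith) (by linarith)
    rw [e]
    exact measurable_neg h
  sym := by
    have h1 : ∀ s : Fin n × Fin n, IsSide v s.1 s.2 → ∀ᵐ w : ℂ,
        ∀ q : ℝ, (-(rl (v s.2 - v s.1) w), q) ∈ EX v s →
        (RL v s (-(rl (v s.2 - v s.1) w), q) ∈ L ↔ (-(rl (v s.2 - v s.1) w), q) ∈ L) := by
      intro s hs
      have hne := v_sub_ne hv hs.1
      have h2 : ∀ᵐ w : ℂ, ∀ q : ℝ, (-w, q) ∈ EX v s → (RL v s (-w, q) ∈ L ↔ (-w, q) ∈ L) :=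
        ae_neg (p := fun w => ∀ q : ℝ, (w, q) ∈ EX v s → (RL v s (w, q) ∈ L ↔ (w, q) ∈ L))
          (by filter_upwards [hL.sym] with w hw; exact hw s hs)
      exact (mp_rl hne).quasiMeasurePreserving.ae h2
    have h3 : ∀ᵐ w : ℂ, ∀ s : Fin n × Fin n, IsSide v s.1 s.2 →
        ∀ q : ℝ, (-(rl (v s.2 - v s.1) w), q) ∈ EX v s →
        (RL v s (-(rl (v s.2 - v s.1) w), q) ∈ L ↔ (-(rl (v s.2 - v s.1) w), q) ∈ L) := by
      rw [ae_all_iff]
      intro s
      by_cases hs : IsSide v s.1 s.2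
      · filter_upwards [h1 s hs] with w hw _
        exact hw
      · exact Eventually.of_forall fun w h => absurd h hs
    filter_upwards [h3] with w hw s hs q hq
    have hne := v_sub_ne hv hs.1
    have h4 := hw s hs (- rfh v s w q) (ng_RL_ex hne hq)
    have h5 : RL v s (-(rl (v s.2 - v s.1) w), - rfh v s w q) = ng (w, q) := RL_ng hne (w, q)
    rw [h5] at h4
    exact h4.symm

/-! ### (3) open invariant sets -/

theorem meas_fst {A : Set (ℂ × ℝ)} {U : Set (ℂ × ℝ)} (hU : IsOpen U) (hA : IsClosed A) :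
    MeasurableSet (Prod.fst '' (U ∩ A)) := by
  obtain ⟨F, hF, -, hFU, -⟩ := hU.exists_iUnion_isClosed
  have e : Prod.fst '' (U ∩ A) = ⋃ m : ℕ, ⋃ k : ℕ,
      Prod.fst '' ((F m ∩ A) ∩ Metric.closedBall (0 : ℂ × ℝ) k) := by
    rw [← hFU]
    ext w
    simp only [mem_image, mem_iUnion, mem_inter_iff]
    constructor
    · rintro ⟨p, ⟨⟨m, hm⟩, hA⟩, rfl⟩
      obtain ⟨k, hk⟩ := exists_nat_ge (dist p 0)
      exact ⟨m, k, p, ⟨⟨hm, hA⟩, hk⟩, rfl⟩
    · rintro ⟨m, k, p, ⟨⟨hm, hA⟩, hk⟩, rfl⟩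
      exact ⟨p, ⟨⟨m, hm⟩, hA⟩, rfl⟩
  rw [e]
  refine MeasurableSet.iUnion fun m => MeasurableSet.iUnion fun k => ?_
  have hc : IsCompact ((F m ∩ A) ∩ Metric.closedBall (0 : ℂ × ℝ) k) :=
    (isCompact_closedBall _ _).inter_left ((hF m).inter hA)
  exact (hc.image continuous_fst).measurableSet

theorem of_open {L : Set (ℂ × ℝ)} (hL : XL v L) (ho : IsOpen L) : OF v L where
  sub := hL.sub
  cone := hL.cone
  op := fun w => ho.preimage (by fun_prop : Continuous fun q : ℝ => (w, q))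
  meas := fun a b ha hb => by
    have e : {w : ℂ | ∀ q : ℝ, a w < q → q < b w → (w, q) ∈ L} =
        (Prod.fst '' ({p : ℂ × ℝ | a p.1 < p.2 ∧ p.2 < b p.1} ∩ Lᶜ))ᶜ := by
      ext w
      simp only [mem_ofPred_eq, mem_compl_iff, mem_image, mem_inter_iff, not_exists, not_and]
      constructor
      · rintro h ⟨w', q⟩ ⟨⟨h1, h2⟩, h3⟩ rfl
        exact h3 (h q h1 h2)
      · intro h q h1 h2
        by_contra h3
        exact h (w, q) ⟨⟨h1, h2⟩, h3⟩ rfl
    rw [e]
    refine (meas_fst ?_ ho.isClosed_compl).compl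
    exact (isOpen_lt (ha.comp continuous_fst) continuous_snd).inter
      (isOpen_lt continuous_snd (hb.comp continuous_fst))
  sym := Eventually.of_forall fun w s hs q hq => hL.sym s hs (w, q) hq

/-! ### (4) measurable invariant sets -/

theorem ls_meas {L : Set (ℂ × ℝ)} (hL : XL v L) (hm : MeasurableSet L) : LS v L where
  sub := hL.sub
  meas := hm
  cone := hL.cone
  sym := Eventually.of_forall fun w s hs => Eventually.of_forall fun q hq => hL.sym s hs (w, q) hq

/-! ### (5) essential interior of the slices -/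

theorem exists_of_ae {P : ℝ → Prop} (h : ∀ᵐ q : ℝ, P q) {a b : ℝ} (hab : a < b) :
    ∃ q, a < q ∧ q < b ∧ P q := by
  by_contra hcon
  push Not at hcon
  have h1 : volume (Ioo a b) = 0 := by
    refine measure_mono_null ?_ (ae_iff.1 h)
    intro q hq
    exact hcon q hq.1 hq.2
  rw [Real.volume_Ioo, ENNReal.ofReal_eq_zero] at h1
  linarith

theorem in_sub {L : Set (ℂ × ℝ)} (hL : LS v L) : IN L ⊆ MM v := by
  rintro ⟨w, Q⟩ ⟨ε, hε, h⟩
  simp only at h
  obtain ⟨q1, a1, b1, h1⟩ := exists_of_ae h (a := Q - ε) (b := Q) (by linarith)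
  obtain ⟨q2, a2, b2, h2⟩ := exists_of_ae h (a := Q) (b := Q + ε) (by linarith)
  obtain ⟨hw, x1, hx1, e1⟩ := hL.sub (h1 (by rw [abs_lt]; constructor <;> linarith))
  obtain ⟨-, x2, hx2, e2⟩ := hL.sub (h2 (by rw [abs_lt]; constructor <;> linarith))
  simp only at e1 e2 hw
  refine ⟨hw, ?_⟩
  have hd : 0 < q2 - q1 := by linarith
  refine ⟨((q2 - Q) / (q2 - q1)) • x1 + ((Q - q1) / (q2 - q1)) • x2,
    convex_PP hx1 hx2 (by apply div_nonneg <;> linarith) (by apply div_nonneg <;> linarith)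
      (by field_simp; ring), ?_⟩
  simp only [real_smul, cr_add_right, cr_smul_right, e1, e2]
  field_simp
  ring

theorem ae_scale {P : ℝ → Prop} (h : ∀ᵐ q : ℝ, P q) {r : ℝ} (hr : r ≠ 0) :
    ∀ᵐ q : ℝ, P (r * q) := by
  have hq : Measure.QuasiMeasurePreserving (fun q : ℝ => r * q) volume volume := by
    refine ⟨by fun_prop, ?_⟩
    rw [Real.map_volume_mul_left hr]
    exact Measure.smul_absolutelyContinuous
  exact hq.ae h

theorem in_cone1 {L : Set (ℂ × ℝ)} (hL : LS v L) {r : ℝ} (hr : 0 < r) {p : ℂ × ℝ}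
    (hp : p ∈ IN L) : (((r : ℂ) * p.1, r * p.2) : ℂ × ℝ) ∈ IN L := by
  obtain ⟨ε, hε, h⟩ := hp
  refine ⟨r * ε, by positivity, ?_⟩
  filter_upwards [ae_scale h (inv_ne_zero hr.ne')] with q hq h1
  have h2 : |r⁻¹ * q - p.2| < ε := by
    have e : r⁻¹ * q - p.2 = r⁻¹ * (q - r * p.2) := by field_simp
    rw [e, abs_mul, abs_of_pos (inv_pos.2 hr), inv_mul_lt_iff₀ hr]
    exact h1
  have h3 := (hL.cone r hr (p.1, r⁻¹ * q)).2 (hq h2)
  have e : r * (r⁻¹ * q) = q := by field_simp
  simp only [e] at h3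
  exact h3

theorem in_meas {L : Set (ℂ × ℝ)} (hL : LS v L) (a b : ℂ → ℝ) (ha : Continuous a)
    (hb : Continuous b) :
    MeasurableSet {w : ℂ | ∀ q : ℝ, a w < q → q < b w → (w, q) ∈ IN L} := by
  set T : Set (ℂ × ℝ) := {p | a p.1 < p.2 ∧ p.2 < b p.1} \ L with hT
  have hTm : MeasurableSet T := by
    refine MeasurableSet.diff ?_ hL.meas
    exact ((isOpen_lt (ha.comp continuous_fst) continuous_snd).inter
      (isOpen_lt continuous_snd (hb.comp continuous_fst))).measurableSet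
  have e : {w : ℂ | ∀ q : ℝ, a w < q → q < b w → (w, q) ∈ IN L} =
      (fun w : ℂ => volume (Prod.mk w ⁻¹' T)) ⁻¹' {0} := by
    ext w
    simp only [mem_ofPred_eq, mem_preimage, mem_singleton_iff]
    constructor
    · intro h
      refine measure_null_of_locally_null _ ?_
      rintro q ⟨⟨h1, h2⟩, h3⟩
      obtain ⟨ε, hε, h4⟩ := h q h1 h2
      refine ⟨(Prod.mk w ⁻¹' T) ∩ Metric.ball q ε,
        inter_mem self_mem_nhdsWithin (mem_nhdsWithin_of_mem_nhds (Metric.ball_mem_nhds q hε)), ?_⟩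
      refine measure_mono_null ?_ (ae_iff.1 h4)
      rintro q' ⟨⟨-, h5⟩, h6⟩ h7
      exact h5 (h7 (by rw [← Real.dist_eq]; exact h6))
    · intro h q h1 h2
      refine ⟨min (q - a w) (b w - q), lt_min (by linarith) (by linarith), ?_⟩
      rw [ae_iff]
      refine measure_mono_null ?_ h
      intro q' hq'
      simp only [mem_ofPred_eq, Classical.not_imp] at hq'
      obtain ⟨h3, h4⟩ := hq'
      rw [abs_lt] at h3
      have m1 : min (q - a w) (b w - q) ≤ q - a w := min_le_left _ _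
      have m2 : min (q - a w) (b w - q) ≤ b w - q := min_le_right _ _
      exact ⟨⟨by simp only; linarith, by simp only; linarith⟩, h4⟩
  rw [e]
  exact (measurable_measure_prodMk_left hTm) (measurableSet_singleton 0)

open Classical in
theorem of_in {L : Set (ℂ × ℝ)} (hL : LS v L) : OF v (IN L) where
  sub := in_sub hL
  cone := fun r hr p => by
    refine ⟨fun h => ?_, fun h => in_cone1 hL hr h⟩
    have h1 := in_cone1 hL (inv_pos.2 hr) h
    have hr' : (r : ℂ) ≠ 0 := by exact_mod_cast hr.ne'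
    have e : ((((r⁻¹ : ℝ) : ℂ) * ((r : ℂ) * p.1), r⁻¹ * (r * p.2)) : ℂ × ℝ) = p := by
      ext
      · simp only [ofReal_inv]
        field_simp
      · simp only
        field_simp
    rwa [e] at h1
  op := fun w => by
    rw [Metric.isOpen_iff]
    rintro Q ⟨ε, hε, h⟩
    refine ⟨ε / 2, by positivity, fun Q' hQ' => ⟨ε / 2, by positivity, ?_⟩⟩
    filter_upwards [h] with q hq h1
    refine hq ?_
    rw [Metric.mem_ball, Real.dist_eq] at hQ'
    change |q - Q'| < ε / 2 at h1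
    rw [abs_lt] at hQ' h1 ⊢
    constructor <;> linarith
  meas := fun a b ha hb => in_meas hL a b ha hb
  sym := by
    filter_upwards [hL.sym] with w hw s hs q hq
    set F : ℂ → ℝ → ℝ := fun w q => if (w, q) ∈ L then 1 else 0 with hF
    have hS : SymW v F s w := by
      filter_upwards [hw s hs] with q' h1 h2 h3
      have h4 := h1 ⟨h2, h3⟩
      have h5 : RL v s (w, q') = (rl (v s.2 - v s.1) w, rfh v s w q') := rfl
      rw [h5] at h4
      simp only [hF]
      by_cases h6 : (w, q') ∈ L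
      · rw [if_pos h6, if_pos (h4.2 h6)]
      · rw [if_neg h6, if_neg fun h7 => h6 (h4.1 h7)]
    have key : ∀ (w : ℂ) (Q : ℝ), (w, Q) ∈ IN L ↔ LCv F w Q 1 := by
      intro w Q
      have h1 : ∀ q : ℝ, F w q = 1 ↔ (w, q) ∈ L := by
        intro q
        simp only [hF]
        by_cases h6 : (w, q) ∈ L
        · simp [h6]
        · simp [h6]
      constructor
      · rintro ⟨ε, hε, h⟩
        refine ⟨ε, hε, ?_⟩
        filter_upwards [h] with q hq h2
        exact (h1 q).2 (hq h2)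
      · rintro ⟨ε, hε, h⟩
        refine ⟨ε, hε, ?_⟩
        filter_upwards [h] with q hq h2
        exact (h1 q).1 (hq h2)
    have e : RL v s (w, q) = (rl (v s.2 - v s.1) w, rfh v s w q) := rfl
    rw [e, key, key]
    exact ⟨fun h => LCv_reflect' hS hq.1 hq.2 h, fun h => LCv_reflect hS hq.1 hq.2 h⟩

end DAux

/-- (D) calculus of invariant sets of lines with open slices. -/
theorem stmtD : StmtD := by
  intro n _ v hv
  exact ⟨fun _ _ h h' => DAux.of_inter h h', fun _ h => DAux.of_ng hv h,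
    fun _ h ho => DAux.of_open h ho, fun _ h hm => DAux.ls_meas h hm, fun _ h => DAux.of_in h⟩

end Pool.Agent.Lib.BTop
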