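import Pool.Agent.Lib.MP_7bc51d_an_top.Stmts

/-!
# OC-F (helper65): orbit closures of lines
-/

set_option autoImplicit false

namespace Pool.Agent.Lib.BTop

open Complex MeasureTheory Set Filter Topology
open Pool.Agent.Lib.Bil

/-! ### General facts -/

theorem F_front_dense {X : Type*} [TopologicalSpace X] (S : Set X) :
    Dense (frontier (closure S))ᶜ :=
  interior_eq_empty_iff_dense_compl.1 (interior_frontier isClosed_closure)

theorem F_front_open {X : Type*} [TopologicalSpace X] (S : Set X) :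
    IsOpen (frontier (closure S))ᶜ := isClosed_frontier.isOpen_compl

theorem F_mem_int {X : Type*} [TopologicalSpace X] {S : Set X} {x : X}
    (h : x ∈ (frontier (closure S))ᶜ) (hx : x ∈ closure S) : x ∈ interior (closure S) := by
  by_contra h'
  exact h ⟨by rwa [closure_closure], h'⟩

theorem F_ae_ball {a ε : ℝ} (hε : 0 < ε) (h : ∀ᵐ q : ℝ, ¬ |q - a| < ε) : False := by
  have h1 : volume (Metric.ball a ε) = 0 := by
    rw [ae_iff] at h
    refine measure_mono_null (fun q hq => ?_) h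
    rw [Metric.mem_ball, Real.dist_eq] at hq
    exact not_not.2 hq
  exact (Metric.isOpen_ball.measure_pos volume ⟨a, Metric.mem_ball_self hε⟩).ne' h1

theorem F_ae_exists {a ε : ℝ} {P : ℝ → Prop} (hε : 0 < ε) (h : ∀ᵐ q : ℝ, |q - a| < ε → P q) :
    ∃ q, |q - a| < ε ∧ P q := by
  by_contra hne
  push Not at hne
  exact F_ae_ball hε (h.mono fun q hq hq' => hne q hq' (hq hq'))

theorem F_slice_open {U : Set (ℂ × ℝ)} (hU : IsOpen U) (w : ℂ) : IsOpen {q : ℝ | (w, q) ∈ U} :=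
  hU.preimage (by fun_prop : Continuous fun q : ℝ => ((w, q) : ℂ × ℝ))

theorem F_slice_ball {S : Set ℝ} (hS : IsOpen S) {q : ℝ} (hq : q ∈ S) :
    ∃ ε : ℝ, 0 < ε ∧ ∀ q' : ℝ, |q' - q| < ε → q' ∈ S := by
  obtain ⟨ε, hε, h⟩ := Metric.isOpen_iff.1 hS q hq
  exact ⟨ε, hε, fun q' hq' => h (by rwa [Metric.mem_ball, Real.dist_eq])⟩

/-- An open set of lines with almost everywhere empty slices is empty. -/
theorem F_open_null {U : Set (ℂ × ℝ)} (hU : IsOpen U) (h : ∀ᵐ w : ℂ, ∀ Q : ℝ, (w, Q) ∉ U) :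
    U = ∅ := by
  by_contra hne
  obtain ⟨p, hp⟩ := Set.nonempty_iff_ne_empty.2 hne
  have h1 : IsOpen {w : ℂ | (w, p.2) ∈ U} :=
    hU.preimage (by fun_prop : Continuous fun w : ℂ => ((w, p.2) : ℂ × ℝ))
  have h2 : 0 < volume {w : ℂ | (w, p.2) ∈ U} := h1.measure_pos volume ⟨p.1, hp⟩
  rw [ae_iff] at h
  refine h2.ne' (measure_mono_null (fun w hw => ?_) h)
  intro h3
  exact h3 p.2 hw

variable {n : ℕ} {v : Fin n → ℂ}

/-! ### Invariant sets -/

theorem XL.iUnion' {ι : Sort*} {L : ι → Set (ℂ × ℝ)} (h : ∀ i, XL v (L i)) :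
    XL v (⋃ i, L i) where
  sub := iUnion_subset fun i => (h i).sub
  cone := fun r hr p => by
    simp only [mem_iUnion]
    exact exists_congr fun i => (h i).cone r hr p
  sym := fun s hs p hp => by
    simp only [mem_iUnion]
    exact exists_congr fun i => (h i).sym s hs p hp

theorem VX.mono' {L L' : Set (ℂ × ℝ)} {k : Fin n} (h : VX v L k) (hs : L ⊆ L') : VX v L' k :=
  Filter.Eventually.mono h fun θ hθ ho => hs (hθ ho)

theorem sat_mono' {U U' : Set (ℂ × ℝ)} (h : U ⊆ U') : sat v U ⊆ sat v U' :=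
  fun _ hp => ⟨hp.1, hp.2.mono (inter_subset_inter_right _ h)⟩

theorem sat_sub_MM (U : Set (ℂ × ℝ)) : sat v U ⊆ MM v := fun _ hp => hp.1

theorem lorb_sub {p : ℂ × ℝ} {L : Set (ℂ × ℝ)} (hL : XL v L) (hp : p ∈ L) : lorb v p ⊆ L :=
  fun _ hq => hq L hL hp

theorem CC_sub (k : Fin n) : CC v k ⊆ MM v := fun _ hp => hp.1

/-- A vertex is not a point of the open polygon. -/
theorem vertex_not_PP (hn : 3 ≤ n) (hv : ConvexIndependent ℝ v) (k : Fin n) : v k ∉ PP v := by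
  intro h
  have h4 := (nxt_side hn hv k).cr_pos hv h
  rw [sub_self, cr_zero_right] at h4
  exact lt_irrefl _ h4

theorem Out_ne_zero (hn : 3 ≤ n) (hv : ConvexIndependent ℝ v) {k : Fin n} {θ : ℂ}
    (h : Out v k θ) : θ ≠ 0 := by
  rintro rfl
  obtain ⟨ε, hε, h⟩ := h
  have := h ε hε le_rfl
  rw [mul_zero, add_zero] at this
  exact vertex_not_PP hn hv k this

theorem ray_mem_MM (hn : 3 ≤ n) (hv : ConvexIndependent ℝ v) {k : Fin n} {θ : ℂ}
    (h : Out v k θ ∨ Out v k (-θ)) : (θ, cr θ (v k)) ∈ MM v := by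
  rcases h with h | h
  · refine ⟨Out_ne_zero hn hv h, ?_⟩
    obtain ⟨ε, hε, h⟩ := h
    refine ⟨_, h ε hε le_rfl, ?_⟩
    simp only [cr_add_right, cr_smul_right, cr_self, mul_zero, add_zero]
  · refine ⟨fun h0 => Out_ne_zero hn hv h (by rw [show θ = 0 from h0, neg_zero]), ?_⟩
    obtain ⟨ε, hε, h⟩ := h
    refine ⟨_, h ε hε le_rfl, ?_⟩
    simp only [cr_add_right, cr_smul_right, cr_neg_right, cr_self, neg_zero, mul_zero, add_zero]

theorem ng_ng (p : ℂ × ℝ) : ng (ng p) = p := by simp [ng]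

theorem ng_cont : Continuous ng := by unfold ng; fun_prop

theorem ng_MM {p : ℂ × ℝ} (h : p ∈ MM v) : ng p ∈ MM v := by
  obtain ⟨h0, x, hx, hxp⟩ := h
  refine ⟨neg_ne_zero.2 h0, x, hx, ?_⟩
  simp only [ng, cr_neg_left, hxp]

/-- `sat` of an exactly invariant set is contained in it. -/
theorem sat_XL (hE : StmtE) (hn : 3 ≤ n) (hv : ConvexIndependent ℝ v) {L : Set (ℂ × ℝ)}
    (hL : XL v L) : sat v L ⊆ L := by
  obtain ⟨-, -, -, -, -, -, -, -, -, -, h⟩ := hE n hn v hv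
  exact h L L hL inter_subset_left

theorem CC_compl (hE : StmtE) (hn : 3 ≤ n) (hv : ConvexIndependent ℝ v) (k : Fin n) :
    MM v \ CC v k =
      ⋃ U : {U : Set (ℂ × ℝ) // IsOpen U ∧ ¬ VX v (sat v U) k}, sat v U.1 := by
  obtain ⟨-, -, -, -, -, -, -, -, hsat, hsatO, -⟩ := hE n hn v hv
  ext p
  simp only [mem_diff, mem_iUnion, Subtype.exists]
  constructor
  · rintro ⟨hM, hC⟩
    have h1 : ¬ ∀ U : Set (ℂ × ℝ), IsOpen U → p ∈ U → VX v (sat v U) k := fun h => hC ⟨hM, h⟩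
    push Not at h1
    obtain ⟨U, hU, hpU, hV⟩ := h1
    exact ⟨U, ⟨hU, hV⟩, (hsat U).2 ⟨hpU, hM⟩⟩
  · rintro ⟨U, ⟨hU, hV⟩, hp⟩
    refine ⟨hp.1, fun hC => ?_⟩
    exact hV ((hC.2 (sat v U) (hsatO U hU) hp).mono' (sat_XL hE hn hv (hsat U).1))

theorem CC_open (hE : StmtE) (hn : 3 ≤ n) (hv : ConvexIndependent ℝ v) (k : Fin n) :
    IsOpen (MM v \ CC v k) := by
  obtain ⟨-, -, -, -, -, -, -, -, -, hsatO, -⟩ := hE n hn v hv
  rw [CC_compl hE hn hv k]
  exact isOpen_iUnion fun U => hsatO U.1 U.2.1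

theorem CC_compl_XL (hE : StmtE) (hn : 3 ≤ n) (hv : ConvexIndependent ℝ v) (k : Fin n) :
    XL v (MM v \ CC v k) := by
  obtain ⟨-, -, -, -, -, -, -, -, hsat, -, -⟩ := hE n hn v hv
  rw [CC_compl hE hn hv k]
  exact XL.iUnion' fun U => (hsat U.1).1

theorem CC_XL (hE : StmtE) (hn : 3 ≤ n) (hv : ConvexIndependent ℝ v) (k : Fin n) :
    XL v (CC v k) := by
  obtain ⟨-, -, hc, -⟩ := hE n hn v hv
  have h := hc _ (CC_compl_XL hE hn hv k)
  rwa [diff_diff_cancel_left (CC_sub k)] at h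

theorem CC_closed (hE : StmtE) (hn : 3 ≤ n) (hv : ConvexIndependent ℝ v) (k : Fin n) :
    MM v ∩ closure (CC v k) ⊆ CC v k := by
  rintro p ⟨hM, hc⟩
  by_contra hC
  obtain ⟨q, hq1, hq2⟩ := mem_closure_iff.1 hc _ (CC_open hE hn hv k) ⟨hM, hC⟩
  exact hq1.2 hq2

theorem CC_meas (hE : StmtE) (hn : 3 ≤ n) (hv : ConvexIndependent ℝ v) (k : Fin n) :
    MeasurableSet (CC v k) := by
  obtain ⟨-, hO, -⟩ := hE n hn v hv
  have h := hO.measurableSet.diff (CC_open hE hn hv k).measurableSet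
  rwa [diff_diff_cancel_left (CC_sub k)] at h

/-- The rays of the vertex `k` belong to `CC v k`. -/
theorem ray_mem_CC (hB : StmtB) (hD : StmtD) (hV : StmtV) (hE : StmtE) (hn : 3 ≤ n)
    (hv : ConvexIndependent ℝ v) (hI : Irr v) (k : Fin n) (θ : ℂ)
    (h : Out v k θ ∨ Out v k (-θ)) : (θ, cr θ (v k)) ∈ CC v k := by
  obtain ⟨-, -, -, -, -, -, -, -, hsat, hsatO, -⟩ := hE n hn v hv
  obtain ⟨-, -, hXO, -, -⟩ := hD n hn v hv
  obtain ⟨-, -, -, -, h5⟩ := hV n hn v hv k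
  refine ⟨ray_mem_MM hn hv h, fun U hU hp => ?_⟩
  rcases hB n hn v hv hI (sat v U) (hXO _ (hsat U).1 (hsatO U hU)) k with h1 | h1
  · exact h1
  · exact absurd ((hsat U).2 ⟨hp, ray_mem_MM hn hv h⟩) (h5 _ (hsatO U hU) h1 θ h)

theorem VX_CC (hB : StmtB) (hD : StmtD) (hV : StmtV) (hE : StmtE) (hn : 3 ≤ n)
    (hv : ConvexIndependent ℝ v) (hI : Irr v) (k : Fin n) : VX v (CC v k) k :=
  Filter.Eventually.of_forall fun θ h => ray_mem_CC hB hD hV hE hn hv hI k θ h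

/-- A line of `CC v k` which meets all basic sets visited by the vertex has orbit closure
`CC v k`. -/
theorem closure_eq (hE : StmtE) (hn : 3 ≤ n) (hv : ConvexIndependent ℝ v) (k : Fin n)
    {p : ℂ × ℝ} (hp : p ∈ CC v k)
    (h : ∀ U ∈ TopologicalSpace.countableBasis (ℂ × ℝ), (∃ q ∈ CC v k, q ∈ U) →
      p ∈ sat v U) :
    MM v ∩ closure (lorb v p) = CC v k := by
  apply Subset.antisymm
  · exact (inter_subset_inter_right _ (closure_mono (lorb_sub (CC_XL hE hn hv k) hp))).trans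
      (CC_closed hE hn hv k)
  · intro q hq
    refine ⟨CC_sub k hq, ?_⟩
    rw [(TopologicalSpace.isBasis_countableBasis (ℂ × ℝ)).mem_closure_iff]
    intro U hU hqU
    obtain ⟨r, hr1, hr2⟩ := (h U hU ⟨q, hq, hqU⟩).2
    exact ⟨r, hr2, hr1⟩

/-- Orbit closures of almost all vertex rays. -/
theorem ray_closure (hB : StmtB) (hD : StmtD) (hV : StmtV) (hE : StmtE) (hn : 3 ≤ n)
    (hv : ConvexIndependent ℝ v) (hI : Irr v) (k : Fin n) :
    ∀ᵐ θ : ℂ, (Out v k θ ∨ Out v k (-θ)) →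
      MM v ∩ closure (lorb v (θ, cr θ (v k))) = CC v k := by
  have hc : (TopologicalSpace.countableBasis (ℂ × ℝ)).Countable :=
    TopologicalSpace.countable_countableBasis _
  have h1 : ∀ᵐ θ : ℂ, ∀ U ∈ TopologicalSpace.countableBasis (ℂ × ℝ),
      VX v (sat v U) k → (Out v k θ ∨ Out v k (-θ)) → (θ, cr θ (v k)) ∈ sat v U := by
    rw [ae_ball_iff hc]
    intro U hU
    by_cases h : VX v (sat v U) k
    · exact Filter.Eventually.mono h fun θ hθ _ => hθ
    · exact Filter.Eventually.of_forall fun θ h' => absurd h' h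
  refine h1.mono fun θ hθ ho => ?_
  refine closure_eq hE hn hv k (ray_mem_CC hB hD hV hE hn hv hI k θ ho) ?_
  rintro U hU ⟨q, hq, hqU⟩
  exact hθ U hU (hq.2 U ((TopologicalSpace.isBasis_countableBasis _).isOpen hU) hqU) ho

/-- If `L` has the vertex `i` and is contained in `CC v j` then `CC v i` is contained in
`CC v j`. -/
theorem CC_le (hB : StmtB) (hD : StmtD) (hV : StmtV) (hE : StmtE) (hn : 3 ≤ n)
    (hv : ConvexIndependent ℝ v) (hI : Irr v) {i j : Fin n} {L : Set (ℂ × ℝ)}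
    (hL : VX v L i) (hs : L ⊆ CC v j) : CC v i ⊆ CC v j := by
  obtain ⟨-, h2, -, -, -⟩ := hV n hn v hv i
  have h : VX v {p | p ∈ L ∧ MM v ∩ closure (lorb v p) = CC v i} i := by
    filter_upwards [hL, ray_closure hB hD hV hE hn hv hI i] with θ h1 h2 ho
    exact ⟨h1 ho, h2 ho⟩
  obtain ⟨p, hp, he⟩ := h2 _ h
  rw [← he]
  exact (inter_subset_inter_right _ (closure_mono (lorb_sub (CC_XL hE hn hv j) (hs hp)))).trans
    (CC_closed hE hn hv j)

theorem ng_CC_sub (hV : StmtV) (hE : StmtE) (hn : 3 ≤ n) (hv : ConvexIndependent ℝ v)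
    (k : Fin n) {p : ℂ × ℝ} (hp : p ∈ CC v k) : ng p ∈ CC v k := by
  obtain ⟨-, -, -, -, -, -, hng, -, hsat, -, hS⟩ := hE n hn v hv
  obtain ⟨-, -, -, h4, -⟩ := hV n hn v hv k
  refine ⟨ng_MM hp.1, fun U hU hpU => ?_⟩
  have h1 := h4 _ (hp.2 (ng ⁻¹' U) (hU.preimage ng_cont) hpU)
  refine h1.mono' ?_
  have h2 : sat v (ng ⁻¹' U) ⊆ ng ⁻¹' (sat v U) := by
    refine hS _ _ (hng _ (hsat U).1) ?_
    rintro q ⟨hq, hqM⟩
    exact (hsat U).2 ⟨hq, ng_MM hqM⟩
  intro q hq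
  have h3 := h2 hq
  rwa [mem_preimage, ng_ng] at h3

theorem ng_CC (hV : StmtV) (hE : StmtE) (hn : 3 ≤ n) (hv : ConvexIndependent ℝ v)
    (k : Fin n) : ng ⁻¹' (CC v k) = CC v k := by
  ext p
  constructor
  · intro h
    have := ng_CC_sub hV hE hn hv k h
    rwa [ng_ng] at this
  · exact fun h => ng_CC_sub hV hE hn hv k h

/-- The sets `CC v k` cover all lines. -/
theorem CC_cover (hB : StmtB) (hC : StmtC) (hD : StmtD) (hE : StmtE) (hn : 3 ≤ n)
    (hv : ConvexIndependent ℝ v) (hI : Irr v) : MM v ⊆ ⋃ k, CC v k := by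
  obtain ⟨-, -, -, -, -, -, -, -, hsat, hsatO, -⟩ := hE n hn v hv
  obtain ⟨-, -, hXO, -, -⟩ := hD n hn v hv
  intro p hM
  by_contra hne
  simp only [mem_iUnion, not_exists] at hne
  have h1 : ∀ k, ∃ U : Set (ℂ × ℝ), IsOpen U ∧ p ∈ U ∧ ¬ VX v (sat v U) k := by
    intro k
    have h1 : ¬ ∀ U : Set (ℂ × ℝ), IsOpen U → p ∈ U → VX v (sat v U) k :=
      fun h => hne k ⟨hM, h⟩
    push Not at h1
    exact h1
  choose U hU hpU hV using h1
  have hO : IsOpen (⋂ k, U k) := isOpen_iInter_of_finite hU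
  have hOF := hXO _ (hsat (⋂ k, U k)).1 (hsatO _ hO)
  have hVN : ∀ k, VN v (sat v (⋂ k, U k)) k := by
    intro k
    rcases hB n hn v hv hI _ hOF k with h | h
    · exact absurd (h.mono' (sat_mono' (iInter_subset U k))) (hV k)
    · exact h
  have h2 := F_open_null (hsatO _ hO) (hC n hn v hv _ hOF hVN)
  have h3 : p ∈ sat v (⋂ k, U k) := (hsat _).2 ⟨mem_iInter.2 hpU, hM⟩
  rw [h2] at h3
  exact h3

theorem CC_int_le (hB : StmtB) (hD : StmtD) (hV : StmtV) (hE : StmtE) (hn : 3 ≤ n)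
    (hv : ConvexIndependent ℝ v) (hI : Irr v) {i j : Fin n}
    (h : (interior (CC v i) ∩ interior (CC v j)).Nonempty) : CC v i ⊆ CC v j := by
  obtain ⟨-, -, -, hcap, hint, -, -, -, hsat, -, -⟩ := hE n hn v hv
  obtain ⟨p, hp⟩ := h
  have hW : XL v (interior (CC v i) ∩ interior (CC v j)) :=
    hcap _ _ (hint _ (CC_XL hE hn hv i)) (hint _ (CC_XL hE hn hv j))
  have h1 := (interior_subset hp.1 : p ∈ CC v i).2 _ (isOpen_interior.inter isOpen_interior) hp
  exact CC_le hB hD hV hE hn hv hI (h1.mono' (sat_XL hE hn hv hW))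
    (fun q hq => interior_subset hq.2)

/-- Density of `sat v U` in the interior of `CC v k`. -/
theorem sat_dense (hV : StmtV) (hE : StmtE) (hn : 3 ≤ n)
    (hv : ConvexIndependent ℝ v) {k : Fin n} {U : Set (ℂ × ℝ)} (h : VX v (sat v U) k) :
    interior (CC v k) ⊆ closure (sat v U) := by
  obtain ⟨-, hO, hc, hcap, hint, hcl, -, -, hsat, -, -⟩ := hE n hn v hv
  obtain ⟨h1, h2, -, -, -⟩ := hV n hn v hv k
  intro p hp
  by_contra hne
  set E := interior (CC v k) ∩ (MM v \ (MM v ∩ closure (sat v U))) with hEdef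
  have hEX : XL v E := hcap _ _ (hint _ (CC_XL hE hn hv k)) (hc _ (hcl _ (hsat U).1))
  have hEo : IsOpen E := by
    have : E = interior (CC v k) ∩ (MM v ∩ (closure (sat v U))ᶜ) := by
      rw [hEdef]; ext q; simp only [mem_inter_iff, mem_diff, mem_compl_iff]; tauto
    rw [this]
    exact isOpen_interior.inter (hO.inter isClosed_closure.isOpen_compl)
  have hpE : p ∈ E := ⟨hp, CC_sub k (interior_subset hp), fun h => hne h.2⟩
  have h3 : VX v E k := ((interior_subset hp : p ∈ CC v k).2 E hEo hpE).mono' (sat_XL hE hn hv hEX)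
  obtain ⟨q, hq1, hq2⟩ := h2 _ ((h1 _ _).2 ⟨h3, h⟩)
  exact hq1.2.2 ⟨sat_sub_MM U hq2, subset_closure hq2⟩

/-- (T) -/
theorem part_T (hB : StmtB) (hC : StmtC) (hD : StmtD) (hV : StmtV) (hE : StmtE) (hn : 3 ≤ n)
    (hv : ConvexIndependent ℝ v) (hI : Irr v) :
    ∃ G : Set (ℂ × ℝ), IsGδ G ∧ MM v ⊆ closure G ∧ ∀ p ∈ G, p ∈ MM v →
      ∃ k, MM v ∩ closure (lorb v p) = CC v k ∧ p ∈ interior (CC v k) := by
  obtain ⟨-, hO, -, -, -, -, -, -, hsat, hsatO, -⟩ := hE n hn v hv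
  have hbas := TopologicalSpace.isBasis_countableBasis (ℂ × ℝ)
  have hc : (TopologicalSpace.countableBasis (ℂ × ℝ)).Countable :=
    TopologicalSpace.countable_countableBasis _
  have : Countable (TopologicalSpace.countableBasis (ℂ × ℝ)) := hc.to_subtype
  -- the open dense sets
  let O : Fin n × (TopologicalSpace.countableBasis (ℂ × ℝ)) → Set (ℂ × ℝ) := fun x =>
    {p | VX v (sat v x.2.1) x.1 → p ∈ sat v x.2.1 ∪ (closure (interior (CC v x.1)))ᶜ}
  have hOo : ∀ x, IsOpen (O x) := by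
    intro x
    by_cases h : VX v (sat v x.2.1) x.1
    · have : O x = sat v x.2.1 ∪ (closure (interior (CC v x.1)))ᶜ := by
        ext p; exact ⟨fun hp => hp h, fun hp _ => hp⟩
      rw [this]
      exact (hsatO _ (hbas.isOpen x.2.2)).union isClosed_closure.isOpen_compl
    · have : O x = univ := by
        ext p; exact ⟨fun _ => mem_univ _, fun _ h' => absurd h' h⟩
      rw [this]
      exact isOpen_univ
  have hOd : ∀ x, Dense (O x) := by
    intro x
    rw [dense_iff_inter_open]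
    intro V hV1 hV2
    by_cases h : VX v (sat v x.2.1) x.1
    · by_cases h1 : V ⊆ closure (interior (CC v x.1))
      · obtain ⟨p, hp⟩ := hV2
        obtain ⟨q, hq1, hq2⟩ := mem_closure_iff.1 (h1 hp) V hV1 hp
        obtain ⟨r, hr1, hr2⟩ := mem_closure_iff.1 (sat_dense hV hE hn hv h hq2)
          (V ∩ interior (CC v x.1)) (hV1.inter isOpen_interior) ⟨hq1, hq2⟩
        exact ⟨r, hr1.1, fun _ => Or.inl hr2⟩
      · obtain ⟨p, hp1, hp2⟩ := Set.not_subset.1 h1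
        exact ⟨p, hp1, fun _ => Or.inr hp2⟩
    · obtain ⟨p, hp⟩ := hV2
      exact ⟨p, hp, fun h' => absurd h' h⟩
  have hF1 : Dense (⋂ k : Fin n, (frontier (closure (CC v k)))ᶜ) :=
    dense_iInter_of_isOpen (fun k => F_front_open _) (fun k => F_front_dense _)
  have hF1o : IsOpen (⋂ k : Fin n, (frontier (closure (CC v k)))ᶜ) :=
    isOpen_iInter_of_finite fun k => F_front_open _
  have hF2 : Dense (⋂ x, O x) := dense_iInter_of_isOpen hOo hOd
  have hF2g : IsGδ (⋂ x, O x) := IsGδ.iInter_of_isOpen hOo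
  refine ⟨(⋂ k : Fin n, (frontier (closure (CC v k)))ᶜ) ∩ ⋂ x, O x,
    hF1o.isGδ.inter hF2g, ?_, ?_⟩
  · have h := hF1.inter_of_isOpen_left hF2 hF1o
    rw [h.closure_eq]
    exact subset_univ _
  · rintro p ⟨hp1, hp2⟩ hM
    obtain ⟨k, hk⟩ := mem_iUnion.1 (CC_cover hB hC hD hE hn hv hI hM)
    have h1 : p ∈ interior (closure (CC v k)) :=
      F_mem_int (mem_iInter.1 hp1 k) (subset_closure hk)
    have h2 : p ∈ interior (CC v k) := by
      refine mem_interior.2 ⟨MM v ∩ interior (closure (CC v k)), ?_, hO.inter isOpen_interior,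
        ⟨hM, h1⟩⟩
      exact (inter_subset_inter_right _ interior_subset).trans (CC_closed hE hn hv k)
    refine ⟨k, closure_eq hE hn hv k hk ?_, h2⟩
    rintro U hU ⟨q, hq, hqU⟩
    have h3 := mem_iInter.1 hp2 (k, ⟨U, hU⟩) (hq.2 U (hbas.isOpen hU) hqU)
    rcases h3 with h3 | h3
    · exact h3
    · exact absurd (subset_closure h2) h3

/-! ### Almost every direction -/

theorem IN_CC (hE : StmtE) (hn : 3 ≤ n) (hv : ConvexIndependent ℝ v) (k : Fin n)
    {p : ℂ × ℝ} (hM : p ∈ MM v) (hp : p ∈ IN (CC v k)) : p ∈ CC v k := by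
  obtain ⟨ε, hε, h⟩ := hp
  by_contra hC
  obtain ⟨δ, hδ, h2⟩ := F_slice_ball (F_slice_open (CC_open hE hn hv k) p.1)
    (show p.2 ∈ {q : ℝ | (p.1, q) ∈ MM v \ CC v k} from ⟨hM, hC⟩)
  obtain ⟨q, hq, hq'⟩ := F_ae_exists (lt_min hε hδ)
    (h.mono fun q hq (hq' : |q - p.2| < min ε δ) => hq (hq'.trans_le (min_le_left _ _)))
  exact (h2 q (hq.trans_le (min_le_right _ _))).2 hq'

/-- Covering lemma. -/
theorem cov (hB : StmtB) (hC : StmtC) (hD : StmtD) (hV : StmtV) (hE : StmtE) (hn : 3 ≤ n)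
    (hv : ConvexIndependent ℝ v) (hI : Irr v) {L : Set (ℂ × ℝ)} (hL : OF v L) :
    ∀ᵐ w : ℂ, ∀ q : ℝ, (w, q) ∈ L → ∃ j, VX v L j ∧ (w, q) ∈ CC v j := by
  classical
  obtain ⟨hcap, -, hXO, -, -⟩ := hD n hn v hv
  have h1 : ∀ S : Finset (Fin n), OF v {p | p ∈ L ∧ ∀ j ∈ S, p ∉ CC v j} := by
    intro S
    induction S using Finset.induction with
    | empty => simpa using hL
    | insert j S hj ih =>
      have h2 := hcap _ _ ih (hXO _ (CC_compl_XL hE hn hv j) (CC_open hE hn hv j))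
      have : {p | p ∈ L ∧ ∀ i ∈ insert j S, p ∉ CC v i} =
          {p | p ∈ L ∧ ∀ i ∈ S, p ∉ CC v i} ∩ (MM v \ CC v j) := by
        ext p
        simp only [mem_setOf_eq, mem_inter_iff, mem_diff, Finset.forall_mem_insert]
        constructor
        · rintro ⟨h3, h4, h5⟩
          exact ⟨⟨h3, h5⟩, hL.sub h3, h4⟩
        · rintro ⟨⟨h3, h5⟩, -, h4⟩
          exact ⟨h3, h4, h5⟩
      rw [this]
      exact h2
  have h2 := h1 (Finset.univ.filter fun j => VX v L j)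
  have h3 : ∀ k, VN v {p | p ∈ L ∧ ∀ j ∈ Finset.univ.filter (fun j => VX v L j), p ∉ CC v j} k := by
    intro k
    rcases hB n hn v hv hI _ h2 k with h | h
    · exfalso
      obtain ⟨h4, h5, -, -, -⟩ := hV n hn v hv k
      have h6 : VX v L k := h.mono' fun p hp => hp.1
      obtain ⟨p, hp1, hp2⟩ := h5 _ ((h4 _ _).2 ⟨h, VX_CC hB hD hV hE hn hv hI k⟩)
      exact hp1.2 k (Finset.mem_filter.2 ⟨Finset.mem_univ _, h6⟩) hp2
    · exact h
  refine (hC n hn v hv _ h2 h3).mono fun w hw q hq => ?_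
  by_contra hne
  push Not at hne
  exact hw q ⟨hq, fun j hj => hne j (Finset.mem_filter.1 hj).2⟩

theorem part_M (hB : StmtB) (hC : StmtC) (hD : StmtD) (hV : StmtV) (hE : StmtE) (hn : 3 ≤ n)
    (hv : ConvexIndependent ℝ v) (hI : Irr v) :
    ∀ᵐ w : ℂ, ∃ G : Set ℝ, IsGδ G ∧ (∀ q : ℝ, (w, q) ∈ MM v → q ∈ closure G) ∧
      ∀ q ∈ G, (w, q) ∈ MM v → ∃ k, MM v ∩ closure (lorb v (w, q)) = CC v k ∧
        ¬ (∀ᵐ w' : ℂ, ∀ᵐ q' : ℝ, (w', q') ∉ CC v k) := by
  classical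
  obtain ⟨-, hO, hcomp, -, -, -, -, -, hsat, hsatO, -⟩ := hE n hn v hv
  obtain ⟨hcap, -, hXO, hLS, hIN⟩ := hD n hn v hv
  have hbas := TopologicalSpace.isBasis_countableBasis (ℂ × ℝ)
  have hc : (TopologicalSpace.countableBasis (ℂ × ℝ)).Countable :=
    TopologicalSpace.countable_countableBasis _
  have : Countable (TopologicalSpace.countableBasis (ℂ × ℝ)) := hc.to_subtype
  have hDk : ∀ k, OF v (IN (CC v k)) := fun k =>
    hIN _ (hLS _ (CC_XL hE hn hv k) (CC_meas hE hn hv k))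
  have hPm : ∀ U ∈ TopologicalSpace.countableBasis (ℂ × ℝ), OF v (IN (MM v \ sat v U)) :=
    fun U hU => hIN _ (hLS _ (hcomp _ (hsat U).1)
      (hO.measurableSet.diff (hsatO _ (hbas.isOpen hU)).measurableSet))
  -- generic directions
  have g1 : ∀ᵐ w : ℂ, ∀ (k : Fin n), ∀ U ∈ TopologicalSpace.countableBasis (ℂ × ℝ), ∀ q : ℝ,
      (w, q) ∈ IN (CC v k) ∩ IN (MM v \ sat v U) →
        ∃ j, VX v (IN (CC v k) ∩ IN (MM v \ sat v U)) j ∧ (w, q) ∈ CC v j := by
    rw [ae_all_iff]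
    intro k
    rw [ae_ball_iff hc]
    intro U hU
    exact cov hB hC hD hV hE hn hv hI (hcap _ _ (hDk k) (hPm U hU))
  have g2 : ∀ᵐ w : ℂ, ∀ k : Fin n, (∀ᵐ w' : ℂ, ∀ᵐ q' : ℝ, (w', q') ∉ CC v k) →
      ∀ q : ℝ, (w, q) ∉ IN (CC v k) := by
    rw [ae_all_iff]
    intro k
    by_cases h : ∀ᵐ w' : ℂ, ∀ᵐ q' : ℝ, (w', q') ∉ CC v k
    · refine h.mono fun w hw _ q hq => ?_
      obtain ⟨ε, hε, h2⟩ := hq
      refine F_ae_ball hε (a := q) ?_
      filter_upwards [hw, h2] with q' h3 h4 h5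
      exact h3 (h4 h5)
    · exact Filter.Eventually.of_forall fun w h' => absurd h' h
  filter_upwards [g1, g2] with w hw1 hw2
  refine ⟨(⋂ k : Fin n, (frontier (closure {q : ℝ | (w, q) ∈ CC v k}))ᶜ) ∩
    ⋂ U : TopologicalSpace.countableBasis (ℂ × ℝ),
      (frontier (closure {q : ℝ | (w, q) ∉ sat v U.1}))ᶜ, ?_, ?_, ?_⟩
  · exact (IsGδ.iInter_of_isOpen fun k => F_front_open _).inter
      (IsGδ.iInter_of_isOpen fun U => F_front_open _)
  · intro q _
    have h1 : Dense (⋂ k : Fin n, (frontier (closure {q : ℝ | (w, q) ∈ CC v k}))ᶜ) :=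
      dense_iInter_of_isOpen (fun k => F_front_open _) (fun k => F_front_dense _)
    have h1o : IsOpen (⋂ k : Fin n, (frontier (closure {q : ℝ | (w, q) ∈ CC v k}))ᶜ) :=
      isOpen_iInter_of_finite fun k => F_front_open _
    have h2 : Dense (⋂ U : TopologicalSpace.countableBasis (ℂ × ℝ),
        (frontier (closure {q : ℝ | (w, q) ∉ sat v U.1}))ᶜ) :=
      dense_iInter_of_isOpen (fun k => F_front_open _) (fun k => F_front_dense _)
    rw [(h1.inter_of_isOpen_left h2 h1o).closure_eq]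
    exact mem_univ _
  · rintro q ⟨hq1, hq2⟩ hM
    -- interior of the slices of `CC`
    have hint : ∀ k, (w, q) ∈ CC v k → (w, q) ∈ IN (CC v k) := by
      intro k hk
      have h1 := F_mem_int (mem_iInter.1 hq1 k)
        (subset_closure (show q ∈ {q : ℝ | (w, q) ∈ CC v k} from hk))
      obtain ⟨ε, hε, h2⟩ := F_slice_ball (isOpen_interior.inter (F_slice_open hO w)) ⟨h1, hM⟩
      refine ⟨ε, hε, Filter.Eventually.of_forall fun q' hq' => ?_⟩
      have h3 := h2 q' hq'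
      by_contra h4
      obtain ⟨r, hr1, hr2⟩ := mem_closure_iff.1 (interior_subset h3.1) _
        (F_slice_open (CC_open hE hn hv k) w) ⟨h3.2, h4⟩
      exact hr1.2 hr2
    -- exterior of the slices of `sat`
    have hext : ∀ U ∈ TopologicalSpace.countableBasis (ℂ × ℝ), (w, q) ∉ sat v U →
        (w, q) ∈ IN (MM v \ sat v U) := by
      intro U hU hn'
      have h1 := F_mem_int (mem_iInter.1 hq2 ⟨U, hU⟩)
        (subset_closure (show q ∈ {q : ℝ | (w, q) ∉ sat v U} from hn'))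
      have hcl : IsClosed {q : ℝ | (w, q) ∉ sat v U} :=
        ⟨by
          have := F_slice_open (hsatO _ (hbas.isOpen hU)) w
          convert this using 1
          ext q'; simp⟩
      obtain ⟨ε, hε, h2⟩ := F_slice_ball (isOpen_interior.inter (F_slice_open hO w)) ⟨h1, hM⟩
      refine ⟨ε, hε, Filter.Eventually.of_forall fun q' hq' => ?_⟩
      have h3 := h2 q' hq'
      have h4 := interior_subset h3.1
      rw [hcl.closure_eq] at h4
      exact ⟨h3.2, h4⟩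
    -- a minimal component
    obtain ⟨k, hk, hmin⟩ : ∃ k, (w, q) ∈ CC v k ∧
        ∀ j, (w, q) ∈ CC v j → CC v j ⊆ CC v k → CC v k ⊆ CC v j := by
      have hfin : (((fun k => CC v k) '' {k | (w, q) ∈ CC v k}) : Set (Set (ℂ × ℝ))).Finite :=
        Set.toFinite _
      have hne : (((fun k => CC v k) '' {k | (w, q) ∈ CC v k}) : Set (Set (ℂ × ℝ))).Nonempty := by
        obtain ⟨k, hk⟩ := mem_iUnion.1 (CC_cover hB hC hD hE hn hv hI hM)
        exact ⟨_, k, hk, rfl⟩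
      obtain ⟨S, hS⟩ := hfin.exists_minimal hne
      obtain ⟨⟨k, hk, rfl⟩, hS2⟩ := hS
      exact ⟨k, hk, fun j hj hjk => hS2 ⟨j, hj, rfl⟩ hjk⟩
    refine ⟨k, closure_eq hE hn hv k hk ?_, fun hnull => hw2 k hnull q (hint k hk)⟩
    rintro U hU ⟨p', hp', hpU⟩
    by_contra hns
    obtain ⟨j, hj1, hj2⟩ := hw1 k U hU q ⟨hint k hk, hext U hU hns⟩
    have h1 : CC v j ⊆ CC v k := by
      refine CC_le hB hD hV hE hn hv hI hj1 ?_
      rintro p ⟨hp, -⟩
      exact IN_CC hE hn hv k ((hDk k).sub hp) hp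
    have h2 : p' ∈ CC v j := hmin j hj2 h1 hp'
    have h3 : VX v (sat v U) j := h2.2 U (hbas.isOpen hU) hpU
    obtain ⟨h4, h5, -, -, -⟩ := hV n hn v hv j
    obtain ⟨p, ⟨-, hp1⟩, hp2⟩ := h5 _ ((h4 _ _).2 ⟨hj1, h3⟩)
    obtain ⟨ε, hε, h6⟩ := hp1
    obtain ⟨δ, hδ, h7⟩ := F_slice_ball (F_slice_open (hsatO _ (hbas.isOpen hU)) p.1)
      (show p.2 ∈ {q : ℝ | (p.1, q) ∈ sat v U} from hp2)
    obtain ⟨r, hr1, hr2⟩ := F_ae_exists (lt_min hε hδ)
      (h6.mono fun q hq (hq' : |q - p.2| < min ε δ) => hq (hq'.trans_le (min_le_left _ _)))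
    exact hr2.2 (h7 r (hr1.trans_le (min_le_right _ _)))

/-- (F) -/
theorem stmtF (hB : StmtB) (hC : StmtC) (hD : StmtD) (hV : StmtV) (hE : StmtE) : StmtF := by
  intro n hn v hv hI
  refine ⟨fun k => ⟨CC_XL hE hn hv k, CC_closed hE hn hv k, ng_CC hV hE hn hv k,
    fun θ h => ray_mem_CC hB hD hV hE hn hv hI k θ h, ray_closure hB hD hV hE hn hv hI k⟩,
    CC_cover hB hC hD hE hn hv hI, ?_, part_T hB hC hD hV hE hn hv hI,
    part_M hB hC hD hV hE hn hv hI⟩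
  intro i j h
  exact Subset.antisymm (CC_int_le hB hD hV hE hn hv hI h)
    (CC_int_le hB hD hV hE hn hv hI (by rwa [inter_comm]))

end Pool.Agent.Lib.BTop
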