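import Pool.Agent.Lib.MP_7bc51d_an_top.Stmts

/-!
# Phase space and the space of oriented lines

Exactly invariant sets of phase points correspond to exactly invariant sets of lines.
-/

set_option autoImplicit false

namespace Pool.Agent.Lib.BTop

open Complex MeasureTheory Set Filter Topology
open Pool.Agent.Lib.Bil

namespace GAux

variable {n : ℕ} {v : Fin n → ℂ}

theorem rl_negl (a w : ℂ) : rl (-a) w = rl a w := by
  simp only [rl, map_neg, neg_div_neg_eq]

theorem cr_line (w x : ℂ) (s : ℝ) : cr w (x + (s : ℂ) * w) = cr w x := by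
  rw [cr_add_right, cr_smul_right, cr_self, mul_zero, add_zero]

/-- Two points of the open polygon on the same oriented line. -/
theorem chord_iff {A : Set (ℂ × ℂ)} (hA : EI v A) {x y w : ℂ} (hw : w ≠ 0) (hx : x ∈ PP v)
    (hy : y ∈ PP v) (h : cr w x = cr w y) : ((x, w) ∈ A ↔ (y, w) ∈ A) := by
  have h0 : cr w (y - x) = 0 := by rw [cr_sub_right, h, sub_self]
  obtain ⟨t, ht⟩ := (cr_eq_zero_iff hw).1 h0
  rcases le_or_gt 0 t with h1 | h1
  · have e : y = x + (t : ℂ) * w := by rw [← ht]; ring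
    have h2 := fwd_of_hyp (hA.2 (x, w)) hx h1 (by simp only; rw [← e]; exact hy)
    simp only at h2
    rw [← e] at h2
    exact h2
  · have e : x = y + ((-t : ℝ) : ℂ) * w := by
      push_cast
      linear_combination -ht
    have h2 := fwd_of_hyp (hA.2 (y, w)) hy (s := -t) (by linarith)
      (by simp only; rw [← e]; exact hx)
    simp only at h2
    rw [← e] at h2
    exact h2.symm

theorem LA_iff {A : Set (ℂ × ℂ)} (hA : EI v A) {p : ℂ × ℂ} (hp : p ∈ Ph v) :
    (p ∈ A ↔ ln p ∈ LA v A) := by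
  constructor
  · intro h
    exact ⟨p, hp, h, rfl⟩
  · rintro ⟨q, hq, hqA, e⟩
    have e1 : q.2 = p.2 := congrArg Prod.fst e
    have e2 : cr q.2 q.1 = cr p.2 p.1 := congrArg Prod.snd e
    rw [e1] at e2
    have h1 := (chord_iff hA hp.2 hq.1 hp.1 e2).1 (by rw [← e1]; exact hqA)
    exact h1

theorem ln_mem_MM {p : ℂ × ℂ} (hp : p ∈ Ph v) : ln p ∈ MM v := ⟨hp.2, p.1, hp.1, rfl⟩

/-- A line leaving through the side `s`: a point of it inside the polygon from which the side is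
reached. -/
theorem ex_point (hn : 3 ≤ n) (hv : ConvexIndependent ℝ v) {s : Fin n × Fin n}
    (hs : IsSide v s.1 s.2) {p : ℂ × ℝ} (hp : p ∈ EX v s) :
    ∃ t ε : ℝ, 0 < t ∧ t < 1 ∧ 0 < ε ∧ cr (v s.2 - v s.1) p.1 < 0 ∧
      cr p.1 (v s.1 + (t : ℂ) * (v s.2 - v s.1)) = p.2 ∧
      v s.1 + (t : ℂ) * (v s.2 - v s.1) + (ε : ℂ) * (-p.1) ∈ PP v := by
  obtain ⟨h1, h2⟩ := hp
  obtain ⟨t, t0, t1, te, tw⟩ := side_line (v := v) (i := s.1) (j := s.2) (w := -p.1) (Q := -p.2)
    (by rw [cr_neg_left]; linarith) (by rw [cr_neg_left]; linarith)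
  obtain ⟨ε, hε, hin⟩ := inward hn hv hs t0 t1 tw
  refine ⟨t, ε, t0, t1, hε, ?_, ?_, hin ε hε le_rfl⟩
  · rw [cr_neg_right] at tw
    linarith
  · rw [cr_neg_left] at te
    linarith

theorem side_not_PP (hv : ConvexIndependent ℝ v) {i j : Fin n} (hij : IsSide v i j) (t : ℝ) :
    v i + (t : ℂ) * (v j - v i) ∉ PP v := by
  intro hb
  have h5 := hij.cr_pos hv hb
  have e : v i + (t : ℂ) * (v j - v i) - v i = (t : ℂ) * (v j - v i) := by ring
  rw [e, cr_smul_right, cr_self, mul_zero] at h5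
  exact lt_irrefl _ h5

theorem side_not_vert (hv : ConvexIndependent ℝ v) {i j : Fin n} (hij : IsSide v i j) {t : ℝ}
    (h0 : 0 < t) (h1 : t < 1) : v i + (t : ℂ) * (v j - v i) ∉ Set.range v := by
  have hne := v_sub_ne hv hij.1
  rintro ⟨k, hk⟩
  by_cases hki : k = i
  · rw [hki] at hk
    have : (t : ℂ) * (v j - v i) = 0 := by linear_combination -hk
    rcases mul_eq_zero.1 this with h5 | h5
    · exact h0.ne' (by exact_mod_cast h5)
    · exact hne h5
  · by_cases hkj : k = j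
    · rw [hkj] at hk
      have : ((1 - t : ℝ) : ℂ) * (v j - v i) = 0 := by
        push_cast; linear_combination hk
      rcases mul_eq_zero.1 this with h5 | h5
      · have : 1 - t = 0 := by exact_mod_cast h5
        linarith
      · exact hne h5
    · have h5 := hij.2 k hki hkj
      have e : v i + (t : ℂ) * (v j - v i) - v i = (t : ℂ) * (v j - v i) := by ring
      rw [hk, e, cr_smul_right, cr_self, mul_zero] at h5
      exact lt_irrefl _ h5

theorem cr_rl_pos {e w : ℂ} (hne : e ≠ 0) (h : cr e w < 0) : 0 < cr e (rl e w) := by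
  have h1 := cr_rl hne e w
  rw [rl_self hne] at h1
  rw [h1]
  linarith

/-- The line after the reflection at a point of the side. -/
theorem RL_eq {s : Fin n × Fin n} (hne : v s.2 - v s.1 ≠ 0) (w : ℂ) (t : ℝ) {p : ℂ × ℝ}
    (hw : p.1 = w) (hQ : cr w (v s.1 + (t : ℂ) * (v s.2 - v s.1)) = p.2) (r : ℝ) :
    ln (v s.1 + (t : ℂ) * (v s.2 - v s.1) + (r : ℂ) * rl (v s.2 - v s.1) w,
      rl (v s.2 - v s.1) w) = RL v s p := by
  have h1 := rfh_eq s hne w (v s.1 + (t : ℂ) * (v s.2 - v s.1))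
  rw [RR_line hne, hQ] at h1
  simp only [ln, RL]
  rw [cr_line, h1, hw]

theorem LA_sym (hn : 3 ≤ n) (hv : ConvexIndependent ℝ v) {A : Set (ℂ × ℂ)} (hA : EI v A)
    (s : Fin n × Fin n) (hs : IsSide v s.1 s.2) (p : ℂ × ℝ) (hp : p ∈ EX v s) :
    (RL v s p ∈ LA v A ↔ p ∈ LA v A) := by
  obtain ⟨t, τ, t0, t1, hτ, hcr, hQ, hx⟩ := ex_point hn hv hs hp
  have hne := v_sub_ne hv hs.1
  set b := v s.1 + (t : ℂ) * (v s.2 - v s.1) with hb
  have hw : p.1 ≠ 0 := by
    intro h0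
    rw [h0, cr_zero_right] at hcr
    exact lt_irrefl _ hcr
  set u := rl (v s.2 - v s.1) p.1 with hu
  have hupos : 0 < cr (v s.2 - v s.1) u := cr_rl_pos hne hcr
  have hu0 : u ≠ 0 := by
    intro h0
    rw [h0, cr_zero_right] at hupos
    exact lt_irrefl _ hupos
  obtain ⟨ε, hε, hin⟩ := inward hn hv hs t0 t1 hupos
  have hz : b + (ε : ℂ) * u ∈ PP v := hin ε hε le_rfl
  obtain ⟨τ₂, hτ₂, hK₂, hP₂, _⟩ := exists_exit _ u hz hu0
  have e3 : b + (ε : ℂ) * u + (τ₂ : ℂ) * u = b + ((ε + τ₂ : ℝ) : ℂ) * u := by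
    push_cast; ring
  rw [e3] at hK₂ hP₂
  have ex : b + (τ : ℂ) * (-p.1) + (τ : ℂ) * p.1 = b := by ring
  have hbK : b ∈ KK v := side_point_mem_KK t0.le t1.le
  have hbP : b ∉ PP v := side_not_PP hv hs t
  have hbv : b ∉ Set.range v := side_not_vert hv hs t0 t1
  have hbseg : b ∈ segment ℝ (v s.1) (v s.2) := by
    refine ⟨1 - t, t, by linarith, t0.le, by ring, ?_⟩
    simp only [real_smul, ofReal_sub, ofReal_one, hb]; ring
  have hfin := (hA.2 (b + (τ : ℂ) * (-p.1), p.1) hx hw τ hτ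
    (mem_frontier.2 (by simp only; rw [ex]; exact ⟨hbK, hbP⟩))).2
    (by simp only; rw [ex]; exact hbv) s.1 s.2 hs.1 (by simp only; rw [ex]; exact hbseg)
    (ε + τ₂) (by linarith)
    (mem_frontier.2 (by simp only; rw [ex]; exact ⟨hK₂, hP₂⟩)) ε hε (by linarith)
  simp only at hfin
  rw [ex] at hfin
  change (_ ↔ (b + (ε : ℂ) * u, u) ∈ A) at hfin
  have hq1 : (b + (τ : ℂ) * (-p.1), p.1) ∈ Ph v := ⟨hx, hw⟩
  have hq2 : (b + (ε : ℂ) * u, u) ∈ Ph v := ⟨hz, hu0⟩
  have hl1 : ln (b + (τ : ℂ) * (-p.1), p.1) = p := by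
    have e4 : b + (τ : ℂ) * (-p.1) = b + ((-τ : ℝ) : ℂ) * p.1 := by push_cast; ring
    simp only [ln]
    rw [e4, cr_line, hQ]
  have hl2 : ln (b + (ε : ℂ) * u, u) = RL v s p := RL_eq hne p.1 t rfl hQ ε
  have h1 := LA_iff hA hq1
  have h2 := LA_iff hA hq2
  rw [hl1] at h1
  rw [hl2] at h2
  exact h2.symm.trans (hfin.symm.trans h1)

theorem LA_scale {A : Set (ℂ × ℂ)} (hA : EI v A) {r : ℝ} (hr : 0 < r) {p : ℂ × ℝ}
    (hp : p ∈ LA v A) : (((r : ℂ) * p.1, r * p.2) : ℂ × ℝ) ∈ LA v A := by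
  obtain ⟨q, hq, hqA, rfl⟩ := hp
  have hr0 : (r : ℂ) ≠ 0 := by exact_mod_cast hr.ne'
  refine ⟨(q.1, (r : ℂ) * q.2), ⟨hq.1, mul_ne_zero hr0 hq.2⟩, (hA.1 q.1 q.2 r hr).1 hqA, ?_⟩
  simp only [ln]
  rw [cr_smul_left]

theorem xl_LA (hn : 3 ≤ n) (hv : ConvexIndependent ℝ v) {A : Set (ℂ × ℂ)} (hA : EI v A) :
    XL v (LA v A) where
  sub := by
    rintro _ ⟨p, hp, _, rfl⟩
    exact ln_mem_MM hp
  cone := fun r hr p => by
    refine ⟨fun h => ?_, fun h => LA_scale hA hr h⟩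
    have h1 := LA_scale hA (inv_pos.2 hr) h
    have hr' : (r : ℂ) ≠ 0 := by exact_mod_cast hr.ne'
    have e : ((((r⁻¹ : ℝ) : ℂ) * ((r : ℂ) * p.1), r⁻¹ * (r * p.2)) : ℂ × ℝ) = p := by
      ext
      · simp only [ofReal_inv]
        field_simp
      · simp only
        field_simp
    simp only at h1
    rw [e] at h1
    exact h1
  sym := LA_sym hn hv hA

theorem mem_PP_fwd {x w : ℂ} {τ s : ℝ} (hx : x ∈ PP v) (hy : x + (τ : ℂ) * w ∈ KK v)
    (h0 : 0 ≤ s) (h1 : s < τ) : x + (s : ℂ) * w ∈ PP v := by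
  have hτ : 0 < τ := lt_of_le_of_lt h0 h1
  have h2 := convex_KK.combo_interior_self_mem_interior hx hy (a := 1 - s / τ) (b := s / τ)
    (by rw [sub_pos, div_lt_one hτ]; exact h1) (by positivity) (by ring)
  have e : (1 - s / τ) • x + (s / τ) • (x + (τ : ℂ) * w) = x + (s : ℂ) * w := by
    simp only [real_smul]
    have h5 : ((s / τ : ℝ) : ℂ) * τ = s := by
      rw [← ofReal_mul]; congr 1; field_simp
    rw [ofReal_sub, ofReal_one]
    linear_combination w * h5
  rw [e] at h2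
  exact h2

/-- The side containing a boundary point which lies on a chord between two vertices. -/
theorem side_of_chord (hn : 3 ≤ n) (hv : ConvexIndependent ℝ v) {y : ℂ} (hyK : y ∈ KK v)
    (hyP : y ∉ PP v) (hyv : y ∉ Set.range v) {i j : Fin n} (hij : i ≠ j)
    (hseg : y ∈ segment ℝ (v i) (v j)) :
    ∃ s : Fin n × Fin n, IsSide v s.1 s.2 ∧ (∀ w, rl (v j - v i) w = rl (v s.2 - v s.1) w) ∧
      ∃ t : ℝ, 0 < t ∧ t < 1 ∧ y = v s.1 + (t : ℂ) * (v s.2 - v s.1) := by
  obtain ⟨i', j', hs, t, t0, t1, ht⟩ := exists_side hn hv hyK hyP hyv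
  refine ⟨(i', j'), hs, ?_, t, t0, t1, ht⟩
  obtain ⟨a, b, ha, hb, hab, hy⟩ := hseg
  simp only [real_smul] at hy
  have ha0 : a ≠ 0 := by
    rintro rfl
    have hb1 : b = 1 := by linarith
    subst hb1
    apply hyv
    refine ⟨j, ?_⟩
    rw [← hy]; simp
  have hb0 : b ≠ 0 := by
    rintro rfl
    have ha1 : a = 1 := by linarith
    subst ha1
    apply hyv
    refine ⟨i, ?_⟩
    rw [← hy]; simp
  have hapos : 0 < a := lt_of_le_of_ne ha (Ne.symm ha0)
  have hbpos : 0 < b := lt_of_le_of_ne hb (Ne.symm hb0)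
  have hz : a * cr (v j' - v i') (v i - v i') + b * cr (v j' - v i') (v j - v i') = 0 := by
    have e1 : (a : ℂ) * (v i - v i') + (b : ℂ) * (v j - v i') = (t : ℂ) * (v j' - v i') := by
      have hab' : (a : ℂ) + b = 1 := by exact_mod_cast hab
      linear_combination hy + ht - v i' * hab'
    have e2 := congrArg (cr (v j' - v i')) e1
    rw [cr_add_right, cr_smul_right, cr_smul_right, cr_smul_right, cr_self, mul_zero] at e2
    exact e2
  have n1 := hs.cr_nonneg_vert i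
  have n2 := hs.cr_nonneg_vert j
  have m1 : i = i' ∨ i = j' := by
    by_contra hcon
    push Not at hcon
    have h3 := hs.2 i hcon.1 hcon.2
    have h4 := mul_pos hapos h3
    have h5 := mul_nonneg hb n2
    linarith
  have m2 : j = i' ∨ j = j' := by
    by_contra hcon
    push Not at hcon
    have h3 := hs.2 j hcon.1 hcon.2
    have h4 := mul_pos hbpos h3
    have h5 := mul_nonneg ha n1
    linarith
  intro w
  rcases m1 with m1 | m1 <;> rcases m2 with m2 | m2
  · exact absurd (m1.trans m2.symm) hij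
  · rw [m1, m2]
  · rw [m1, m2]
    have : v i' - v j' = -(v j' - v i') := by ring
    rw [this, rl_negl]
  · exact absurd (m1.trans m2.symm) hij

theorem ei_PA (hn : 3 ≤ n) (hv : ConvexIndependent ℝ v) {L : Set (ℂ × ℝ)} (hL : XL v L) :
    EI v (PA v L) := by
  refine ⟨fun x w c hc => ?_, fun p => ?_⟩
  · have hc0 : (c : ℂ) ≠ 0 := by exact_mod_cast hc.ne'
    have h1 : ln (x, (c : ℂ) * w) = (((c : ℂ) * (ln (x, w)).1, c * (ln (x, w)).2) : ℂ × ℝ) := by
      simp only [ln]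
      rw [cr_smul_left]
    constructor
    · rintro ⟨⟨h2, h3⟩, h4⟩
      refine ⟨⟨h2, mul_ne_zero hc0 h3⟩, ?_⟩
      rw [h1]
      exact (hL.cone c hc _).2 h4
    · rintro ⟨⟨h2, h3⟩, h4⟩
      refine ⟨⟨h2, fun h => h3 (by simp only at h ⊢; rw [h, mul_zero])⟩, ?_⟩
      rw [h1] at h4
      exact (hL.cone c hc _).1 h4
  · intro hx hw τ hτ hfr
    obtain ⟨hyK, hyP⟩ := mem_frontier.1 hfr
    refine ⟨fun s h0 h1 => ?_, fun hyv i j hij hseg σ hσ hfr2 r hr0 hr1 => ?_⟩
    · have hs : p.1 + (s : ℂ) * p.2 ∈ PP v := mem_PP_fwd hx hyK h0 h1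
      have e : ln (p.1 + (s : ℂ) * p.2, p.2) = ln p := by
        simp only [ln]
        rw [cr_line]
      constructor
      · rintro ⟨_, h3⟩
        refine ⟨⟨hs, hw⟩, ?_⟩
        rw [e]
        exact h3
      · rintro ⟨_, h3⟩
        rw [e] at h3
        exact ⟨⟨hx, hw⟩, h3⟩
    · obtain ⟨s, hs, hrl, t, t0, t1, ht⟩ := side_of_chord hn hv hyK hyP hyv hij hseg
      have hne := v_sub_ne hv hs.1
      have hrl2 := hrl p.2
      change p.1 + (τ : ℂ) * p.2 + (σ : ℂ) * rl (v j - v i) p.2 ∈ _ at hfr2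
      change (p ∈ PA v L ↔ (p.1 + (τ : ℂ) * p.2 + (r : ℂ) * rl (v j - v i) p.2,
        rl (v j - v i) p.2) ∈ PA v L)
      rw [hrl2] at hfr2 ⊢
      rw [ht] at hfr2 ⊢
      have hK2 : v s.1 + (t : ℂ) * (v s.2 - v s.1) + (σ : ℂ) * rl (v s.2 - v s.1) p.2 ∈ KK v :=
        (mem_frontier.1 hfr2).1
      have hcr : cr (v s.2 - v s.1) p.2 < 0 := by
        have h3 := hs.cr_pos hv hx
        have h4 : p.1 - v s.1 = (t : ℂ) * (v s.2 - v s.1) - (τ : ℂ) * p.2 := by
          linear_combination ht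
        rw [h4, cr_sub_right, cr_smul_right, cr_smul_right, cr_self] at h3
        by_contra hcon
        push Not at hcon
        nlinarith
      have hupos : 0 < cr (v s.2 - v s.1) (rl (v s.2 - v s.1) p.2) := cr_rl_pos hne hcr
      have hu0 : rl (v s.2 - v s.1) p.2 ≠ 0 := by
        intro h0
        rw [h0, cr_zero_right] at hupos
        exact lt_irrefl _ hupos
      obtain ⟨ε, hε, hin⟩ := inward hn hv hs t0 t1 hupos
      have hz : v s.1 + (t : ℂ) * (v s.2 - v s.1) + (r : ℂ) * rl (v s.2 - v s.1) p.2 ∈ PP v := by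
        rcases le_or_gt r ε with h | h
        · exact hin r hr0 h
        · have h5 := mem_PP_fwd (x := v s.1 + (t : ℂ) * (v s.2 - v s.1) +
              (ε : ℂ) * rl (v s.2 - v s.1) p.2) (w := rl (v s.2 - v s.1) p.2) (τ := σ - ε)
              (s := r - ε) (hin ε hε le_rfl) (by
                have e5 : v s.1 + (t : ℂ) * (v s.2 - v s.1) + (ε : ℂ) * rl (v s.2 - v s.1) p.2 +
                  ((σ - ε : ℝ) : ℂ) * rl (v s.2 - v s.1) p.2 =
                  v s.1 + (t : ℂ) * (v s.2 - v s.1) + (σ : ℂ) * rl (v s.2 - v s.1) p.2 := by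
                  push_cast; ring
                rw [e5]
                exact hK2) (by linarith) (by linarith)
          have e6 : v s.1 + (t : ℂ) * (v s.2 - v s.1) + (ε : ℂ) * rl (v s.2 - v s.1) p.2 +
              ((r - ε : ℝ) : ℂ) * rl (v s.2 - v s.1) p.2 =
              v s.1 + (t : ℂ) * (v s.2 - v s.1) + (r : ℂ) * rl (v s.2 - v s.1) p.2 := by
            push_cast; ring
          rw [e6] at h5
          exact h5
      have hQ : cr p.2 (v s.1 + (t : ℂ) * (v s.2 - v s.1)) = (ln p).2 := by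
        rw [← ht]
        exact cr_line _ _ _
      have hl := RL_eq hne p.2 t (p := ln p) rfl hQ r
      have hpos : 0 < cr p.2 (v s.2 - v s.1) := by
        rw [cr_swap]; linarith
      have hex : ln p ∈ EX v s := by
        have h6 : (ln p).2 = cr p.2 (v s.1) + t * cr p.2 (v s.2 - v s.1) := by
          rw [← hQ, cr_add_right, cr_smul_right]
        have h7 : cr p.2 (v s.2) = cr p.2 (v s.1) + cr p.2 (v s.2 - v s.1) := by
          rw [cr_sub_right]; ring
        constructor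
        · change cr p.2 (v s.1) < (ln p).2
          rw [h6]
          nlinarith [mul_pos t0 hpos]
        · change (ln p).2 < cr p.2 (v s.2)
          rw [h6, h7]
          nlinarith [mul_pos (sub_pos.2 t1) hpos]
      have hsym := hL.sym s hs (ln p) hex
      constructor
      · rintro ⟨_, h3⟩
        refine ⟨⟨hz, hu0⟩, ?_⟩
        rw [hl]
        exact hsym.2 h3
      · rintro ⟨_, h3⟩
        rw [hl] at h3
        exact ⟨⟨hx, hw⟩, hsym.1 h3⟩

end GAux

open GAux

/-- (G) -/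
theorem stmtG (hE : StmtE) : StmtG := by
  intro n hn v hv
  have h2 : ∀ L : Set (ℂ × ℝ), XL v L → EI v (PA v L) := fun L hL => ei_PA hn hv hL
  refine ⟨fun A hA => ⟨xl_LA hn hv hA, fun p hp => LA_iff hA hp⟩, h2, fun p hp => ?_⟩
  obtain ⟨_, _, _, _, _, _, _, hlorb, _⟩ := hE n hn v hv
  obtain ⟨hX, hmem⟩ := hlorb (ln p) (ln_mem_MM hp)
  apply Subset.antisymm
  · intro q hq
    exact hq _ (h2 _ hX) ⟨hp, hmem⟩
  · intro q hq A hA hpA
    refine (LA_iff hA hq.1).2 ?_
    exact hq.2 _ (xl_LA hn hv hA) ((LA_iff hA hp).1 hpA)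

end Pool.Agent.Lib.BTop
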