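import Pool.Agent.Lib.MP_7bc51d_an_top.Stmts
import Pool.Agent.Lib.MP_7bc51d_an.Cont

/-!
# Topology of the projection of the phase space to the space of oriented lines (module G')
-/

set_option autoImplicit false

namespace Pool.Agent.Lib.BTop

open Complex MeasureTheory Set Filter Topology
open Pool.Agent.Lib.Bil

namespace GpAux

variable {n : ℕ} {v : Fin n → ℂ}

theorem isOpen_Ph : IsOpen (Ph v) := by
  have h1 : IsOpen {p : ℂ × ℂ | p.1 ∈ PP v} := isOpen_PP.preimage continuous_fst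
  have h2 : IsOpen {p : ℂ × ℂ | p.2 ≠ 0} := isOpen_ne.preimage continuous_snd
  exact h1.inter h2

theorem continuous_ln : Continuous ln := by
  unfold ln
  exact continuous_snd.prodMk (continuous_cr.comp (continuous_snd.prodMk continuous_fst))

theorem ln_mem_MM {p : ℂ × ℂ} (hp : p ∈ Ph v) : ln p ∈ MM v := ⟨hp.2, p.1, hp.1, rfl⟩

/-- Local section of the projection to lines. -/
noncomputable def sec (x : ℂ) (l : ℂ × ℝ) : ℂ × ℂ := (x + bs l.1 (l.2 - cr l.1 x), l.1)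

theorem ln_sec {x : ℂ} {l : ℂ × ℝ} (hl : l.1 ≠ 0) : ln (sec x l) = l := by
  unfold ln sec
  ext1
  · rfl
  · change cr l.1 (x + bs l.1 (l.2 - cr l.1 x)) = l.2
    rw [cr_add_right, cr_bs hl]; ring

theorem bs_zero (w : ℂ) : bs w 0 = 0 := by unfold bs; simp

theorem tendsto_sec {p : ℂ × ℂ} (hp : p.2 ≠ 0) : Tendsto (sec p.1) (𝓝 (ln p)) (𝓝 p) := by
  have h0 : sec p.1 (ln p) = p := by
    unfold ln sec
    ext1
    · change p.1 + bs p.2 (cr p.2 p.1 - cr p.2 p.1) = p.1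
      rw [sub_self, bs_zero, add_zero]
    · rfl
  have hc : ContinuousAt (sec p.1) (ln p) := by
    have hne : (ln p).1.re ^ 2 + (ln p).1.im ^ 2 ≠ 0 := (esq_pos hp).ne'
    have h1 : ContinuousAt (fun l : ℂ × ℝ => l.2 - cr l.1 p.1) (ln p) :=
      (continuous_snd.sub (continuous_cr.comp
        (continuous_fst.prodMk continuous_const))).continuousAt
    have h2 : ContinuousAt (fun l : ℂ × ℝ => l.1.re ^ 2 + l.1.im ^ 2) (ln p) := by
      have : Continuous (fun l : ℂ × ℝ => l.1.re ^ 2 + l.1.im ^ 2) := by fun_prop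
      exact this.continuousAt
    have h3 : ContinuousAt (fun l : ℂ × ℝ =>
        (((l.2 - cr l.1 p.1) / (l.1.re ^ 2 + l.1.im ^ 2) : ℝ) : ℂ)) (ln p) :=
      Complex.continuous_ofReal.continuousAt.comp (h1.div h2 hne)
    have h4 : ContinuousAt (fun l : ℂ × ℝ => I * l.1) (ln p) :=
      (continuous_const.mul continuous_fst).continuousAt
    have h5 : ContinuousAt (fun l : ℂ × ℝ => p.1 + bs l.1 (l.2 - cr l.1 p.1)) (ln p) :=
      continuousAt_const.add (h3.mul h4)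
    exact h5.prodMk continuous_fst.continuousAt
  have h := hc.tendsto
  rw [h0] at h
  exact h

theorem closure_PA (L : Set (ℂ × ℝ)) :
    Ph v ∩ closure (PA v L) = {p | p ∈ Ph v ∧ ln p ∈ closure L} := by
  ext p
  constructor
  · rintro ⟨hp, hc⟩
    exact ⟨hp, map_mem_closure continuous_ln hc (fun q hq => hq.2)⟩
  · rintro ⟨hp, hc⟩
    refine ⟨hp, ?_⟩
    rw [mem_closure_iff_frequently] at hc ⊢
    have hT := tendsto_sec hp.2
    refine hT.frequently ?_
    have h1 : ∀ᶠ l in 𝓝 (ln p), sec p.1 l ∈ Ph v := hT (isOpen_Ph.mem_nhds hp)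
    refine (hc.and_eventually h1).mono ?_
    rintro l ⟨hl, hs⟩
    refine ⟨hs, ?_⟩
    rw [ln_sec hs.2]
    exact hl

theorem isGdelta_preimage {X Y : Type*} [TopologicalSpace X] [TopologicalSpace Y] {f : X → Y}
    (hf : Continuous f) {G : Set Y} (hG : IsGδ G) : IsGδ (f ⁻¹' G) := by
  obtain ⟨T, hT, hc, rfl⟩ := hG
  rw [sInter_eq_biInter, preimage_iInter₂]
  exact IsGδ.biInter hc (fun t ht => ((hT t ht).preimage hf).isGδ)

theorem ae_scale {r : ℝ} (hr : r ≠ 0) {p : ℝ → Prop} (h : ∀ᵐ q, p q) : ∀ᵐ q : ℝ, p (r * q) := by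
  have h2 := Measure.addHaar_preimage_smul (volume : Measure ℝ) hr {q | ¬ p q}
  have h3 : volume {q : ℝ | ¬ p q} = 0 := h
  rw [h3, mul_zero] at h2
  exact h2

theorem cone_ae {L : Set (ℂ × ℝ)}
    (hcone : ∀ r : ℝ, 0 < r → ∀ p : ℂ × ℝ, ((((r : ℂ) * p.1, r * p.2) : ℂ × ℝ) ∈ L ↔ p ∈ L))
    (z : ℂ) (r : ℝ) (hr : 0 < r) :
    (∀ᵐ q : ℝ, (z, q) ∉ L) ↔ ∀ᵐ q : ℝ, ((r : ℂ) * z, q) ∉ L := by
  constructor
  · intro h
    filter_upwards [ae_scale (inv_pos.2 hr).ne' h] with q hq hmem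
    apply hq
    have := hcone r hr (z, r⁻¹ * q)
    simp only [] at this
    rw [mul_inv_cancel_left₀ hr.ne'] at this
    exact this.1 hmem
  · intro h
    filter_upwards [ae_scale hr.ne' h] with q hq hmem
    exact hq ((hcone r hr (z, q)).2 hmem)

theorem pos_of_not_null {L : Set (ℂ × ℝ)}
    (hcone : ∀ r : ℝ, 0 < r → ∀ p : ℂ × ℝ, ((((r : ℂ) * p.1, r * p.2) : ℂ × ℝ) ∈ L ↔ p ∈ L))
    (hsub : L ⊆ MM v) (hL : ¬ (∀ᵐ w' : ℂ, ∀ᵐ q' : ℝ, (w', q') ∉ L)) :
    0 < volume (PA v L ∩ (PP v ×ˢ Metric.ball (0 : ℂ) 1)) := by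
  rw [pos_iff_ne_zero]
  intro h0
  apply hL
  apply ae_of_ae_ball (D := fun w' => ∀ᵐ q' : ℝ, (w', q') ∉ L)
    (fun z r hr => cone_ae hcone z r hr)
  have h1 : ∀ᵐ p : ℂ × ℂ ∂((volume : Measure ℂ).prod (volume : Measure ℂ)),
      p ∉ PA v L ∩ (PP v ×ˢ Metric.ball (0 : ℂ) 1) := by
    rw [← measure_eq_zero_iff_ae_notMem]
    exact h0
  have h2 : ∀ᵐ p : ℂ × ℂ ∂((volume : Measure ℂ).prod (volume : Measure ℂ)),
      p.swap ∉ PA v L ∩ (PP v ×ˢ Metric.ball (0 : ℂ) 1) :=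
    (Measure.measurePreserving_swap (μ := (volume : Measure ℂ))
      (ν := (volume : Measure ℂ))).quasiMeasurePreserving.ae h1
  have h3 := Measure.ae_ae_of_ae_prod h2
  have h4 : ∀ᵐ w : ℂ, w ≠ 0 := by simp [ae_iff]
  filter_upwards [h3, h4] with w hw hw0 hwb
  have h5 : ∀ᵐ x : ℂ, x ∈ PP v → (w, cr w x) ∉ L := by
    filter_upwards [hw] with x hx hxP hmem
    apply hx
    refine ⟨⟨⟨hxP, hw0⟩, hmem⟩, hxP, ?_⟩
    rw [Metric.mem_ball, dist_zero_right]
    exact hwb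
  filter_upwards [ae_heights_open isOpen_PP hw0 (p := fun Q => (w, Q) ∉ L) h5] with Q hQ hmem
  exact hQ (hsub hmem).2 hmem

end GpAux

open GpAux in
/-- Module G': topology of the projection to lines. -/
theorem stmtG' : StmtG' := by
  intro n _ v _
  refine ⟨isOpen_Ph, fun p hp => ln_mem_MM hp, closure_PA, ?_, ?_, ?_, ?_⟩
  · intro L
    have h1 : IsOpen (Ph v ∩ ln ⁻¹' (interior L)) :=
      isOpen_Ph.inter (isOpen_interior.preimage continuous_ln)
    refine interior_maximal (fun p hp => ⟨hp.1, interior_subset hp.2⟩) h1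
  · intro G hG hd
    refine ⟨isOpen_Ph.isGδ.inter (isGdelta_preimage continuous_ln hG), ?_⟩
    intro p hp
    have h1 : p ∈ {p | p ∈ Ph v ∧ ln p ∈ closure G} := ⟨hp, hd (ln_mem_MM hp)⟩
    rw [← closure_PA] at h1
    exact h1.2
  · intro w G hw hG hd
    have hc : Continuous (fun x : ℂ => cr w x) :=
      continuous_cr.comp (continuous_const.prodMk continuous_id)
    refine ⟨isOpen_PP.isGδ.inter (isGdelta_preimage hc hG), ?_⟩
    intro x hx
    have h1 : cr w x ∈ closure G := hd _ ⟨hw, x, hx, rfl⟩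
    have hT : Tendsto (fun q : ℝ => x + bs w (q - cr w x)) (𝓝 (cr w x)) (𝓝 x) := by
      have hcont : Continuous (fun q : ℝ => x + bs w (q - cr w x)) := by unfold bs; fun_prop
      have h := hcont.tendsto (cr w x)
      rw [sub_self, bs_zero, add_zero] at h
      exact h
    rw [mem_closure_iff_frequently] at h1 ⊢
    refine hT.frequently ?_
    have h2 : ∀ᶠ q in 𝓝 (cr w x), x + bs w (q - cr w x) ∈ PP v := hT (isOpen_PP.mem_nhds hx)
    refine (h1.and_eventually h2).mono ?_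
    rintro q ⟨hq, hs⟩
    refine ⟨hs, ?_⟩
    have h3 : cr w (x + bs w (q - cr w x)) = q := by
      rw [cr_add_right, cr_bs hw]; ring
    rw [h3]
    exact hq
  · intro L _ hcone hsub hL
    exact pos_of_not_null hcone hsub hL

end Pool.Agent.Lib.BTop
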