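import Pool.Agent.Lib.MP_7bc51d_an_top.Stmts

/-!
# Module H: the line set of a measurable almost everywhere invariant set of phase points
-/

set_option autoImplicit false

namespace Pool.Agent.Lib.BTop

open Complex MeasureTheory Set Filter Topology
open Pool.Agent.Lib.Bil

namespace ModH

variable {n : ℕ} {v : Fin n → ℂ}

theorem FA_one {A : Set (ℂ × ℂ)} (w : ℂ) (Q : ℝ) : FA v A w Q = 1 ↔ (w, Q) ∈ Lset v A := by
  unfold FA
  by_cases h : (w, Q) ∈ Lset v A
  · rw [indicator_of_mem h]; simp [h]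
  · rw [indicator_of_notMem h]; simp [h]

theorem FA_iff {A : Set (ℂ × ℂ)} {w w' : ℂ} {Q Q' : ℝ} (h : FA v A w Q = FA v A w' Q') :
    (w, Q) ∈ Lset v A ↔ (w', Q') ∈ Lset v A := by
  rw [← FA_one, ← FA_one, h]

theorem ind_iff {A : Set (ℂ × ℂ)} {w x : ℂ} {Q : ℝ}
    (h : FA v A w Q = A.indicator 1 (x, w)) : (w, Q) ∈ Lset v A ↔ (x, w) ∈ A := by
  rw [← FA_one, h]
  by_cases hx : (x, w) ∈ A
  · rw [indicator_of_mem hx]; simp [hx]
  · rw [indicator_of_notMem hx]; simp [hx]

theorem norm_bs_sub {w : ℂ} (hw : w ≠ 0) (Q Q' : ℝ) :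
    ‖bs w Q - bs w Q'‖ * ‖w‖ = |Q - Q'| := by
  have hn : 0 < ‖w‖ := norm_pos_iff.2 hw
  have h1 : bs w Q - bs w Q' = (((Q - Q') / (w.re ^ 2 + w.im ^ 2) : ℝ) : ℂ) * (I * w) := by
    unfold bs
    push_cast
    ring
  rw [h1, norm_mul, norm_mul, norm_real, Complex.norm_I, one_mul, normsq_eq, Real.norm_eq_abs,
    abs_div, abs_of_pos (pow_pos hn 2)]
  field_simp

end ModH

open ModH in
theorem stmtH (hE : StmtE) : StmtH := by
  intro n hn v hv A hA hcone hH
  obtain ⟨hMM, hMo, -⟩ := hE n hn v hv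
  have hI : Inv v A := inv_of_hyp hv hH
  have hch : ∀ᵐ w, ChordAt v A w := chord_of_hyp hH
  refine ⟨⟨inter_subset_right, (measurableSet_Lset hA).inter hMo.measurableSet, ?_, ?_⟩, ?_⟩
  · intro r hr p
    have h1 : (((r : ℂ) * p.1, r * p.2) : ℂ × ℝ) ∈ Lset v A ↔ p ∈ Lset v A :=
      FA_iff (FA_cone hcone hr p.1 p.2)
    rw [mem_inter_iff, mem_inter_iff, h1, hMM.cone r hr p]
  · have h1 : ∀ᵐ w : ℂ, ∀ s : Fin n × Fin n, IsSide v s.1 s.2 → SymW v (FA v A) s w := by
      rw [ae_all_iff]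
      intro s
      by_cases hs : IsSide v s.1 s.2
      · filter_upwards [symW_of_symAt (v_sub_ne hv hs.1) (symAt_FA hn hv hI hch hs)] with w hw _
        exact hw
      · exact Eventually.of_forall (fun w h => absurd h hs)
    filter_upwards [h1] with w hw s hs
    filter_upwards [hw s hs] with q hq hE1
    have h2 : RL v s (w, q) ∈ Lset v A ↔ (w, q) ∈ Lset v A := FA_iff (hq hE1.1 hE1.2)
    rw [mem_inter_iff, mem_inter_iff, h2, hMM.sym s hs _ hE1]
  · have h0 : ∀ᵐ w : ℂ, w ≠ 0 := by simp [ae_iff]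
    filter_upwards [FA_ae hch, h0] with w hw hw0 x hx
    have hnw : 0 < ‖w‖ := norm_pos_iff.2 hw0
    obtain ⟨ρ, hρ, hball⟩ := Metric.isOpen_iff.1 isOpen_PP x hx
    constructor
    · rintro ⟨ε, hε, h1⟩
      have h2 := ae_height hw0 h1
      refine ⟨min ρ (ε / ‖w‖), lt_min hρ (by positivity), ?_⟩
      filter_upwards [hw, h2] with y h3 h4 h5
      have h6 : y ∈ PP v := hball (by
        rw [Metric.mem_ball, dist_eq_norm]
        exact h5.trans_le (min_le_left _ _))
      have h7 : |cr w y - cr w x| < ε := by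
        rw [← cr_sub_right]
        refine (Bil.abs_cr_le w (y - x)).trans_lt ?_
        have h8 : ‖y - x‖ < ε / ‖w‖ := h5.trans_le (min_le_right _ _)
        rw [lt_div_iff₀ hnw] at h8
        linarith
      exact (ind_iff (h3 h6)).1 (h4 h7).1
    · rintro ⟨δ, hδ, h1⟩
      set δ' := min ρ δ with hδ'
      have hδ'0 : 0 < δ' := lt_min hρ hδ
      have h2 : ∀ᵐ y : ℂ, ‖y - x‖ < δ' → (w, cr w y) ∈ Lset v A := by
        filter_upwards [hw, h1] with y h3 h4 h5
        have h6 : y ∈ PP v := hball (by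
          rw [Metric.mem_ball, dist_eq_norm]
          exact h5.trans_le (min_le_left _ _))
        exact (ind_iff (h3 h6)).2 (h4 (h5.trans_le (min_le_right _ _)))
      refine ⟨δ' * ‖w‖, by positivity, ?_⟩
      filter_upwards [ae_chi hw0 h2] with Q hQ hQx
      set s₀ : ℝ := dt w x / (w.re ^ 2 + w.im ^ 2) with hs₀
      have hx0 : bs w (cr w x) + (s₀ : ℂ) * w = x := bs_eq hw0
      have hy0 : ‖bs w Q + (s₀ : ℂ) * w - x‖ < δ' := by
        have h3 : bs w Q + (s₀ : ℂ) * w - x = bs w Q - bs w (cr w x) := by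
          linear_combination hx0
        rw [h3]
        have h4 := norm_bs_sub hw0 Q (cr w x)
        change |Q - cr w x| < δ' * ‖w‖ at hQx
        rw [← h4] at hQx
        exact lt_of_mul_lt_mul_right hQx hnw.le
      have hcr : ∀ s : ℝ, cr w (bs w Q + (s : ℂ) * w) = Q := by
        intro s
        rw [cr_add_right, cr_bs hw0, cr_smul_right, cr_self, mul_zero, add_zero]
      refine ⟨?_, hw0, bs w Q + (s₀ : ℂ) * w, hball (by
        rw [Metric.mem_ball, dist_eq_norm]
        exact hy0.trans_le (min_le_left _ _)), hcr s₀⟩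
      have hopen : IsOpen {s : ℝ | ‖bs w Q + (s : ℂ) * w - x‖ < δ'} :=
        isOpen_lt (by fun_prop) continuous_const
      have hpos : 0 < volume {s : ℝ | ‖bs w Q + (s : ℂ) * w - x‖ < δ'} :=
        hopen.measure_pos volume ⟨s₀, hy0⟩
      by_contra hcon
      apply hpos.ne'
      rw [measure_eq_zero_iff_ae_notMem]
      filter_upwards [hQ] with s hs hmem
      have h3 := hs hmem
      rw [hcr s] at h3
      exact hcon h3

end Pool.Agent.Lib.BTop
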