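import Pool.Agent.Lib.MP_7bc51d_an_top.Stmts
import Pool.Agent.Lib.MP_7bc51d_an.Label2
import Pool.Agent.Lib.MP_7bc51d_an.Global
import Pool.Agent.Lib.MP_7bc51d_an.Distinct

/-!
# Project OC, module V: easy facts on the rays at a vertex
-/

set_option autoImplicit false

namespace Pool.Agent.Lib.BTop

open Complex MeasureTheory Set Filter Topology
open Pool.Agent.Lib.Bil

/-- a property that holds for almost all rays of a vertex holds for some outgoing ray -/
theorem exists_ray {n : ℕ} (hn : 3 ≤ n) {v : Fin n → ℂ} (hv : ConvexIndependent ℝ v) (k : Fin n)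
    {P : ℂ → Prop} (h : ∀ᵐ θ : ℂ, (Out v k θ ∨ Out v k (-θ)) → P θ) : ∃ θ, Out v k θ ∧ P θ := by
  by_contra hcon
  push Not at hcon
  refine exists_Out hn hv k (measure_mono_null (fun θ hθ => ?_) (ae_iff.mp h))
  change ¬ ((Out v k θ ∨ Out v k (-θ)) → P θ)
  intro h2
  exact hcon θ hθ (h2 (Or.inl hθ))

/-- (D') vertices of intersections, of disjoint sets, of open sets. -/
theorem stmtV : StmtV := by
  intro n hn v hv k
  refine ⟨fun L L' => ⟨fun h => ⟨?_, ?_⟩, fun h => ?_⟩, fun L h => ?_, fun L h h' => ?_,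
    fun L h => ?_, fun L hL h θ hθ hmem => ?_⟩
  · filter_upwards [h] with θ h1 h2
    exact (h1 h2).1
  · filter_upwards [h] with θ h1 h2
    exact (h1 h2).2
  · filter_upwards [h.1, h.2] with θ h1 h2 h3
    exact ⟨h1 h3, h2 h3⟩
  · obtain ⟨θ, -, hθ⟩ := exists_ray hn hv k h
    exact ⟨_, hθ⟩
  · have h2 : ∀ᵐ θ : ℂ, (Out v k θ ∨ Out v k (-θ)) → False := by
      filter_upwards [h, h'] with θ h1 h2 h3
      exact h2 h3 (h1 h3)
    obtain ⟨θ, -, hθ⟩ := exists_ray hn hv k h2
    exact hθ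
  · filter_upwards [ae_neg h] with θ h1 h2
    have h3 : Out v k (-θ) ∨ Out v k (- -θ) := by
      rw [neg_neg]
      exact h2.symm
    have h4 := h1 h3
    rw [cr_neg_left] at h4
    exact h4
  · have hopen : IsOpen {θ' : ℂ | (Out v k θ' ∨ Out v k (-θ')) ∧ (θ', cr θ' (v k)) ∈ L} := by
      have h1 : IsOpen {θ' : ℂ | Out v k θ'} := isOpen_Out k
      have h2 : IsOpen {θ' : ℂ | Out v k (-θ')} := h1.preimage continuous_neg
      have hc : Continuous (fun θ' : ℂ => ((θ', cr θ' (v k)) : ℂ × ℝ)) := by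
        unfold cr
        fun_prop
      exact (h1.union h2).inter (hL.preimage hc)
    refine (hopen.measure_pos volume ⟨θ, hθ, hmem⟩).ne' ?_
    refine measure_mono_null (fun θ' hθ' => ?_) (ae_iff.mp h)
    change ¬ ((Out v k θ' ∨ Out v k (-θ')) → (θ', cr θ' (v k)) ∉ L)
    intro h2
    exact h2 hθ'.1 hθ'.2

end Pool.Agent.Lib.BTop
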