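import Pool.Agent.Lib.MP_7bc51d_an_top.A
import Pool.Agent.Lib.MP_7bc51d_an_top.B
import Pool.Agent.Lib.MP_7bc51d_an_top.C
import Pool.Agent.Lib.MP_7bc51d_an_top.D
import Pool.Agent.Lib.MP_7bc51d_an_top.V
import Pool.Agent.Lib.MP_7bc51d_an_top.E
import Pool.Agent.Lib.MP_7bc51d_an_top.F
import Pool.Agent.Lib.MP_7bc51d_an_top.G
import Pool.Agent.Lib.MP_7bc51d_an_top.Gp
import Pool.Agent.Lib.MP_7bc51d_an_top.H
import Pool.Agent.Lib.MP_7bc51d_an_top.Final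

/-!
# Orbit closures of irrational polygonal billiards: assembly
-/

set_option autoImplicit false

namespace Pool.Agent.Lib.BTop

open Complex MeasureTheory Set Filter Topology
open Pool.Agent.Lib.Bil

variable {n : ℕ} {v : Fin n → ℂ}

theorem orbit_closures (hn : 3 ≤ n) (hv : ConvexIndependent ℝ v) (hirr : Irr v) :
    (∀ k, IsClosed (CP v k) ∧ (∀ x w : ℂ, (x, w) ∈ CP v k → (x, -w) ∈ CP v k) ∧
      (∀ x ∈ PP v, (x, x - v k) ∈ CP v k) ∧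
      (∀ᵐ x : ℂ, x ∈ PP v → closure (orb v (x, x - v k)) = CP v k)) ∧
    (Ph v ⊆ ⋃ k, CP v k) ∧
    (∀ i j, (interior (CP v i) ∩ interior (CP v j)).Nonempty → CP v i = CP v j) ∧
    (∃ G : Set (ℂ × ℂ), IsGδ G ∧ Ph v ⊆ closure G ∧ ∀ p ∈ G, p ∈ Ph v →
      ∃ k, closure (orb v p) = CP v k ∧ p ∈ interior (CP v k)) ∧
    (∀ᵐ w : ℂ, ∃ G : Set ℂ, IsGδ G ∧ PP v ⊆ closure G ∧ ∀ x ∈ G, x ∈ PP v →
      ∃ k, closure (orb v (x, w)) = CP v k ∧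
        0 < volume (CP v k ∩ (PP v ×ˢ Metric.ball (0 : ℂ) 1))) :=
  orbits hn hv hirr (stmtF (stmtB stmtA stmtD) stmtC stmtD stmtV stmtE) (stmtG stmtE) stmtG' stmtE

theorem zero_one_law (hn : 3 ≤ n) (hv : ConvexIndependent ℝ v) (hirr : Irr v)
    {A : Set (ℂ × ℂ)} (hA : MeasurableSet A)
    (hcone : ∀ x w : ℂ, ∀ c : ℝ, 0 < c → ((x, w) ∈ A ↔ (x, (c : ℂ) * w) ∈ A))
    (hI : ∀ᵐ p ∂(volume : Measure (ℂ × ℂ)), HypAt v A p) :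
    (∀ k, (∀ᵐ x : ℂ, x ∈ PP v → (x, x - v k) ∈ eI A) ∨
      (∀ᵐ x : ℂ, x ∈ PP v → (x, x - v k) ∉ eI A)) ∧
    ((∀ k, ∀ᵐ x : ℂ, x ∈ PP v → (x, x - v k) ∉ eI A) →
      ∀ᵐ w : ℂ, ∀ x ∈ PP v, (x, w) ∉ eI A) :=
  zero_one hn hv hirr (stmtB stmtA stmtD) stmtC stmtD (stmtH stmtE) hA hcone hI

end Pool.Agent.Lib.BTop
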