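import Pool.Agent.Lib.MP_7bc51d_an_top.Stmts

/-!
# No births

An open one-sided strip of an invariant set of lines along a vertex ray contains the ray, for almost
every ray going out of the vertex.
-/

set_option autoImplicit false

namespace Pool.Agent.Lib.BTop

open Complex MeasureTheory Set Filter Topology
open Pool.Agent.Lib.Bil
open scoped ENNReal

variable {n : ℕ} {v : Fin n → ℂ}

/-- The line `(w, Q)` is not in `L`, the adjacent strip of width `δ` on the side `τ` is. -/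
def Tk (L : Set (ℂ × ℝ)) (w : ℂ) (Q τ δ : ℝ) : Prop :=
  (w, Q) ∉ L ∧ ∀ h : ℝ, 0 < h → h < δ → (w, Q + τ * h) ∈ L

theorem OF.meas_mem {L : Set (ℂ × ℝ)} (hL : OF v L) {a : ℂ → ℝ} (ha : Continuous a) :
    MeasurableSet {w : ℂ | (w, a w) ∈ L} := by
  have : {w : ℂ | (w, a w) ∈ L} = ⋃ N : ℕ, {w : ℂ | ∀ q, a w - 1 / ((N : ℝ) + 1) < q →
      q < a w + 1 / ((N : ℝ) + 1) → (w, q) ∈ L} := by
    ext w
    simp only [mem_ofPred_eq, mem_iUnion]
    constructor
    · intro h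
      obtain ⟨ε, hε, hb⟩ := Metric.isOpen_iff.1 (hL.op w) (a w) h
      obtain ⟨N, hN⟩ := exists_nat_one_div_lt hε
      refine ⟨N, fun q h1 h2 => hb ?_⟩
      rw [Metric.mem_ball, Real.dist_eq, abs_lt]
      constructor <;> linarith
    · rintro ⟨N, h⟩
      have : (0 : ℝ) < 1 / ((N : ℝ) + 1) := by positivity
      exact h _ (by linarith) (by linarith)
  rw [this]
  exact MeasurableSet.iUnion fun N =>
    hL.meas _ _ (ha.sub continuous_const) (ha.add continuous_const)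

theorem OF.meas_strip {L : Set (ℂ × ℝ)} (hL : OF v L) {a : ℂ → ℝ} (ha : Continuous a) {τ : ℝ}
    (hτ : τ = 1 ∨ τ = -1) (δ : ℝ) :
    MeasurableSet {w : ℂ | ∀ h : ℝ, 0 < h → h < δ → (w, a w + τ * h) ∈ L} := by
  rcases hτ with rfl | rfl
  · have : {w : ℂ | ∀ h : ℝ, 0 < h → h < δ → (w, a w + 1 * h) ∈ L} =
        {w : ℂ | ∀ q : ℝ, a w < q → q < a w + δ → (w, q) ∈ L} := by
      ext w
      simp only [mem_ofPred_eq]
      constructor
      · intro h q h1 h2
        have := h (q - a w) (by linarith) (by linarith)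
        rwa [one_mul, add_sub_cancel] at this
      · intro h t h1 h2
        exact h _ (by linarith) (by linarith)
    rw [this]
    exact hL.meas _ _ ha (ha.add continuous_const)
  · have : {w : ℂ | ∀ h : ℝ, 0 < h → h < δ → (w, a w + -1 * h) ∈ L} =
        {w : ℂ | ∀ q : ℝ, a w - δ < q → q < a w → (w, q) ∈ L} := by
      ext w
      simp only [mem_ofPred_eq]
      constructor
      · intro h q h1 h2
        have := h (a w - q) (by linarith) (by linarith)
        rwa [show a w + -1 * (a w - q) = q by ring] at this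
      · intro h t h1 h2
        exact h _ (by linarith) (by linarith)
    rw [this]
    exact hL.meas _ _ (ha.sub continuous_const) ha

theorem cont_cr (y : ℂ) : Continuous (fun w : ℂ => cr w y) := by unfold cr; fun_prop

theorem OF.meas_Tk {L : Set (ℂ × ℝ)} (hL : OF v L) {a : ℂ → ℝ} (ha : Continuous a) {τ : ℝ}
    (hτ : τ = 1 ∨ τ = -1) (δ : ℝ) : MeasurableSet {w : ℂ | Tk L w (a w) τ δ} :=
  (hL.meas_mem ha).compl.inter (hL.meas_strip ha hτ δ)

/-- Sign of the strip after the reflections of `g`. -/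
def sg (τ : ℝ) (g : List (Fin n × Fin n)) : ℝ := τ * (-1) ^ g.length

theorem sg_pm {τ : ℝ} (hτ : τ = 1 ∨ τ = -1) (g : List (Fin n × Fin n)) :
    sg τ g = 1 ∨ sg τ g = -1 := by
  unfold sg
  rcases hτ with rfl | rfl <;> rcases neg_one_pow_eq_or ℝ g.length with h | h <;> rw [h] <;> simp

theorem sg_cons (τ : ℝ) (s : Fin n × Fin n) (g : List (Fin n × Fin n)) :
    sg τ (s :: g) = - sg τ g := by
  unfold sg
  rw [List.length_cons, pow_succ]
  ring

theorem Tk.sep {L : Set (ℂ × ℝ)} {w : ℂ} {Q Q' τ δ : ℝ} (hτ : τ = 1 ∨ τ = -1)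
    (h : Tk L w Q τ δ) (h' : Tk L w Q' τ δ) (hne : Q ≠ Q') : δ ≤ |Q - Q'| := by
  by_contra hcon
  push Not at hcon
  rcases lt_or_gt_of_ne hne with hlt | hlt
  · rw [abs_of_neg (by linarith)] at hcon
    rcases hτ with rfl | rfl
    · apply h'.1
      have := h.2 (Q' - Q) (by linarith) (by linarith)
      rwa [show Q + 1 * (Q' - Q) = Q' by ring] at this
    · apply h.1
      have := h'.2 (Q' - Q) (by linarith) (by linarith)
      rwa [show Q' + -1 * (Q' - Q) = Q by ring] at this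
  · rw [abs_of_pos (by linarith)] at hcon
    rcases hτ with rfl | rfl
    · apply h.1
      have := h'.2 (Q - Q') (by linarith) (by linarith)
      rwa [show Q' + 1 * (Q - Q') = Q by ring] at this
    · apply h'.1
      have := h.2 (Q - Q') (by linarith) (by linarith)
      rwa [show Q + -1 * (Q - Q') = Q' by ring] at this

theorem pack {R δ : ℝ} (S : Finset ℝ) (hS : ∀ x ∈ S, |x| ≤ R)
    (hsep : ∀ x ∈ S, ∀ y ∈ S, x ≠ y → δ ≤ |x - y|) :
    (S.card : ℝ≥0∞) * ENNReal.ofReal δ ≤ ENNReal.ofReal (2 * R + δ) := by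
  have h1 : volume (⋃ x ∈ S, Ico x (x + δ)) = ∑ x ∈ S, volume (Ico x (x + δ)) := by
    apply measure_biUnion_finset
    · intro x hx y hy hxy
      rw [Function.onFun, Set.disjoint_left]
      rintro z ⟨z1, z2⟩ ⟨z3, z4⟩
      have := hsep x hx y hy hxy
      rcases le_total 0 (x - y) with h | h
      · rw [abs_of_nonneg h] at this; linarith
      · rw [abs_of_nonpos h] at this; linarith
    · exact fun x _ => measurableSet_Ico
  have h2 : ∑ x ∈ S, volume (Ico x (x + δ)) = (S.card : ℝ≥0∞) * ENNReal.ofReal δ := by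
    rw [Finset.sum_congr rfl (fun x _ => by rw [Real.volume_Ico, add_sub_cancel_left]),
      Finset.sum_const, nsmul_eq_mul]
  rw [← h2, ← h1]
  have h3 : (⋃ x ∈ S, Ico x (x + δ)) ⊆ Ico (-R) (R + δ) := by
    intro z hz
    simp only [mem_iUnion] at hz
    obtain ⟨x, hx, z1, z2⟩ := hz
    have := abs_le.1 (hS x hx)
    exact ⟨by linarith, by linarith⟩
  refine (measure_mono h3).trans ?_
  rw [Real.volume_Ico]
  apply le_of_eq
  congr 1
  ring

/-- Directions of the rays of `k` with code `g` whose line after `g` has an adjacent strip of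
width `δ`. -/
def SS (v : Fin n → ℂ) (L : Set (ℂ × ℝ)) (k : Fin n) (τ δ : ℝ) (g : List (Fin n × Fin n)) :
    Set ℂ :=
  {θ | (‖θ‖ < 1 ∧ Out v k θ ∧ Rz v g (v k) θ) ∧
    Tk L (Lo v g θ) (cr (Lo v g θ) (Fo v g (v k))) (sg τ g) δ}

theorem measurableSet_base (k : Fin n) (g : List (Fin n × Fin n)) :
    MeasurableSet {θ : ℂ | ‖θ‖ < 1 ∧ Out v k θ ∧ Rz v g (v k) θ} := by
  refine (measurableSet_lt measurable_norm measurable_const).inter
      ((isOpen_Out k).measurableSet.inter ?_)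
  have : IsOpen {θ : ℂ | Rz v g (v k) θ} :=
    (isOpen_Rz (v := v) g).preimage (f := fun θ : ℂ => (v k, θ)) (by fun_prop)
  exact this.measurableSet

theorem measurableSet_SS {L : Set (ℂ × ℝ)} (hL : OF v L) (k : Fin n) {τ : ℝ}
    (hτ : τ = 1 ∨ τ = -1) (δ : ℝ) (g : List (Fin n × Fin n)) :
    MeasurableSet (SS v L k τ δ g) := by
  refine (measurableSet_base k g).inter ?_
  exact (continuous_Lo g).measurable
    (hL.meas_Tk (a := fun w => cr w (Fo v g (v k))) (cont_cr _) (sg_pm hτ g) δ)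

theorem SS_empty {L : Set (ℂ × ℝ)} {k : Fin n} {τ δ : ℝ} {g : List (Fin n × Fin n)}
    (hg : ¬ Val v g) : SS v L k τ δ g = ∅ := by
  ext θ
  simp only [mem_empty_iff_false, iff_false]
  exact fun h => hg h.1.2.2.val

theorem image_meas (hv : ConvexIndependent ℝ v) {g : List (Fin n × Fin n)} {S : Set ℂ}
    (hS : MeasurableSet S) (h : ¬ Val v g → S = ∅) :
    MeasurableSet (Lo v g '' S) ∧ volume (Lo v g '' S) = volume S := by
  by_cases hg : Val v g
  · exact ⟨(Lo_emb hv hg).measurableSet_image' hS, volume_Lo_image hv hg S⟩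
  · rw [h hg, image_empty]
    exact ⟨MeasurableSet.empty, rfl⟩

/-- Bound for the heights of the lines with a code. -/
theorem height_bound (hv : ConvexIndependent ℝ v) {k : Fin n} {θ : ℂ}
    (g : List (Fin n × Fin n)) (hg : Rz v g (v k) θ) :
    |cr (Lo v g θ) (Fo v g (v k))| ≤ ‖θ‖ * ∑ i, ‖v i‖ := by
  have hb : ∀ (w : ℂ) (i : Fin n), |cr w (v i)| ≤ ‖w‖ * ∑ i, ‖v i‖ := by
    intro w i
    refine (abs_cr_le w (v i)).trans ?_
    gcongr
    exact Finset.single_le_sum (f := fun i => ‖v i‖) (fun j _ => norm_nonneg _)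
      (Finset.mem_univ i)
  cases g with
  | nil => exact hb θ k
  | cons s g =>
    obtain ⟨r1, r2, r3, r4⟩ := hg
    have hne := v_sub_ne hv r2.1
    obtain ⟨c1, c2⟩ := cross_after hne r3 r4
    change |cr (rl (v s.2 - v s.1) (Lo v g θ)) (RR v s.1 s.2 (Fo v g (v k)))| ≤ _
    rw [rfh_eq s hne]
    have b1 := hb (rl (v s.2 - v s.1) (Lo v g θ)) s.1
    have b2 := hb (rl (v s.2 - v s.1) (Lo v g θ)) s.2
    rw [norm_rl hne, norm_Lo hv r1.val] at b1 b2
    rw [abs_le] at b1 b2 ⊢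
    constructor <;> linarith

/-- For fixed `w` at most `C / δ` codes of a given parity. -/
theorem count (hn : 3 ≤ n) (hv : ConvexIndependent ℝ v) {L : Set (ℂ × ℝ)} {k : Fin n} {τ : ℝ}
    (δ : ℝ) (w : ℂ) (σ : ℝ) (hσ : σ = 1 ∨ σ = -1)
    (G : Finset (List (Fin n × Fin n)))
    (hG : ∀ g ∈ G, w ∈ Lo v g '' SS v L k τ δ g ∧ sg τ g = σ) :
    (G.card : ℝ≥0∞) * ENNReal.ofReal δ ≤ ENNReal.ofReal (2 * (∑ i, ‖v i‖) + δ) := by
  classical
  have hinj : Set.InjOn (fun g => cr w (Fo v g (v k))) (G : Set (List (Fin n × Fin n))) := by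
    intro g hg g' hg' heq
    obtain ⟨⟨θ, hθ, hθw⟩, -⟩ := hG g hg
    obtain ⟨⟨θ', hθ', hθw'⟩, -⟩ := hG g' hg'
    simp only at heq
    refine code_unique hn hv g g' θ θ' hθ.1.2.1 hθ'.1.2.1 hθ.1.2.2 hθ'.1.2.2
      (hθw.trans hθw'.symm) ?_
    rw [hθw, hθw']
    exact heq
  rw [← Finset.card_image_of_injOn hinj]
  apply pack
  · intro x hx
    obtain ⟨g, hg, rfl⟩ := Finset.mem_image.1 hx
    obtain ⟨⟨θ, hθ, hθw⟩, -⟩ := hG g hg
    have h1 := height_bound hv g hθ.1.2.2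
    rw [hθw] at h1
    refine h1.trans ?_
    have h2 : ‖θ‖ ≤ 1 := hθ.1.1.le
    have h3 : 0 ≤ ∑ i, ‖v i‖ := Finset.sum_nonneg fun i _ => norm_nonneg _
    nlinarith
  · intro x hx y hy hxy
    obtain ⟨g, hg, rfl⟩ := Finset.mem_image.1 hx
    obtain ⟨g', hg', rfl⟩ := Finset.mem_image.1 hy
    obtain ⟨⟨θ, hθ, hθw⟩, h1⟩ := hG g hg
    obtain ⟨⟨θ', hθ', hθw'⟩, h2⟩ := hG g' hg'
    have t1 := hθ.2
    have t2 := hθ'.2
    rw [hθw, h1] at t1
    rw [hθw', h2] at t2
    exact Tk.sep hσ t1 t2 hxy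

theorem tsum_SS (hn : 3 ≤ n) (hv : ConvexIndependent ℝ v) {L : Set (ℂ × ℝ)} (hL : OF v L)
    (k : Fin n) {τ : ℝ} (hτ : τ = 1 ∨ τ = -1) {δ : ℝ} (hδ : 0 < δ) :
    ∑' g, volume (SS v L k τ δ g) ≠ ⊤ := by
  classical
  set C : ℝ≥0∞ := 2 * ENNReal.ofReal (2 * (∑ i, ‖v i‖) + δ) / ENNReal.ofReal δ with hC
  have hδ0 : ENNReal.ofReal δ ≠ 0 := by
    rw [ne_eq, ENNReal.ofReal_eq_zero, not_le]; exact hδ
  have hCt : C ≠ ⊤ := by
    rw [hC]
    exact ENNReal.div_ne_top (ENNReal.mul_ne_top (by simp) ENNReal.ofReal_ne_top) hδ0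
  have hbound : ∀ G : Finset (List (Fin n × Fin n)),
      ∑ g ∈ G, volume (SS v L k τ δ g) ≤ C * volume (Metric.ball (0 : ℂ) 1) := by
    intro G
    have h1 : ∀ g, volume (SS v L k τ δ g) =
        ∫⁻ w, (Lo v g '' SS v L k τ δ g).indicator (fun _ => (1 : ℝ≥0∞)) w := by
      intro g
      obtain ⟨m1, m2⟩ := image_meas hv (measurableSet_SS hL k hτ δ g) (fun h => SS_empty h)
      rw [lintegral_indicator m1, setLIntegral_const, one_mul, m2]
    simp_rw [h1]
    rw [← lintegral_finsetSum _ (fun g _ => (measurable_const.indicator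
      (image_meas hv (measurableSet_SS hL k hτ δ g) (fun h => SS_empty h)).1))]
    have h2 : C * volume (Metric.ball (0 : ℂ) 1) =
        ∫⁻ w, (Metric.ball (0 : ℂ) 1).indicator (fun _ => C) w := by
      rw [lintegral_indicator Metric.isOpen_ball.measurableSet, setLIntegral_const]
    rw [h2]
    apply lintegral_mono
    intro w
    simp only
    set Gw := G.filter (fun g => w ∈ Lo v g '' SS v L k τ δ g) with hGw
    have e1 : ∑ g ∈ G, (Lo v g '' SS v L k τ δ g).indicator (fun _ => (1 : ℝ≥0∞)) w =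
        (Gw.card : ℝ≥0∞) := by
      rw [hGw, Finset.card_filter, Nat.cast_sum]
      apply Finset.sum_congr rfl
      intro g _
      simp only [indicator]
      split_ifs <;> simp
    rw [e1]
    rcases Gw.eq_empty_or_nonempty with hemp | ⟨g₀, hg₀⟩
    · rw [hemp, Finset.card_empty]; simp
    have hnorm : w ∈ Metric.ball (0 : ℂ) 1 := by
      obtain ⟨θ, hθ, hθw⟩ := (Finset.mem_filter.1 hg₀).2
      rw [Metric.mem_ball, dist_zero_right, ← hθw, norm_Lo hv hθ.1.2.2.val]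
      exact hθ.1.1
    rw [indicator_of_mem hnorm]
    have c1 := count hn hv (L := L) (k := k) (τ := τ) δ w 1 (Or.inl rfl)
      (Gw.filter (fun g => sg τ g = 1)) (fun g hg => by
        rw [Finset.mem_filter, hGw, Finset.mem_filter] at hg
        exact ⟨hg.1.2, hg.2⟩)
    have c2 := count hn hv (L := L) (k := k) (τ := τ) δ w (-1) (Or.inr rfl)
      (Gw.filter (fun g => ¬ sg τ g = 1)) (fun g hg => by
        rw [Finset.mem_filter, hGw, Finset.mem_filter] at hg
        exact ⟨hg.1.2, (sg_pm hτ g).resolve_left hg.2⟩)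
    have c3 : Gw.card = (Gw.filter (fun g => sg τ g = 1)).card +
        (Gw.filter (fun g => ¬ sg τ g = 1)).card :=
      (Finset.card_filter_add_card_filter_not _).symm
    rw [hC, ENNReal.le_div_iff_mul_le (Or.inl hδ0) (Or.inl ENNReal.ofReal_ne_top), c3,
      Nat.cast_add, add_mul, two_mul]
    exact add_le_add c1 c2
  have hts : ∑' g, volume (SS v L k τ δ g) ≤ C * volume (Metric.ball (0 : ℂ) 1) := by
    rw [ENNReal.tsum_eq_iSup_sum]
    exact iSup_le hbound
  exact ne_top_of_le_ne_top (ENNReal.mul_ne_top hCt measure_ball_lt_top.ne) hts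

/-- Exits: a vertex `l` lies in the adjacent strip. -/
def EE (v : Fin n → ℂ) (L : Set (ℂ × ℝ)) (k : Fin n) (τ δ : ℝ) (l : Fin n) (σ : ℝ)
    (g : List (Fin n × Fin n)) : Set ℂ :=
  {θ | θ ∈ SS v L k τ δ g ∧ sg τ g = σ ∧
    0 < σ * (cr (Lo v g θ) (v l) - cr (Lo v g θ) (Fo v g (v k))) ∧
    σ * (cr (Lo v g θ) (v l) - cr (Lo v g θ) (Fo v g (v k))) < δ}

/-- Directions in which the line of the vertex `l` is in `L` at distance less than `δ` from the
complement. -/
def Bad (v : Fin n → ℂ) (L : Set (ℂ × ℝ)) (l : Fin n) (σ δ : ℝ) : Set ℂ :=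
  {w | w ∈ Metric.ball (0 : ℂ) 1 ∧ (w, cr w (v l)) ∈ L ∧
    ¬ ∀ h : ℝ, 0 < h → h < δ → (w, cr w (v l) + -σ * h) ∈ L}

theorem neg_pm {σ : ℝ} (hσ : σ = 1 ∨ σ = -1) : -σ = 1 ∨ -σ = -1 := by
  rcases hσ with rfl | rfl
  · right; rfl
  · left; norm_num

theorem sq_pm {σ : ℝ} (hσ : σ = 1 ∨ σ = -1) : σ * σ = 1 := by
  rcases hσ with rfl | rfl <;> norm_num

theorem measurableSet_Bad {L : Set (ℂ × ℝ)} (hL : OF v L) (l : Fin n) {σ : ℝ}
    (hσ : σ = 1 ∨ σ = -1) (δ : ℝ) : MeasurableSet (Bad v L l σ δ) :=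
  Metric.isOpen_ball.measurableSet.inter ((hL.meas_mem (cont_cr _)).inter
    (hL.meas_strip (cont_cr _) (neg_pm hσ) δ).compl)

theorem Bad_tendsto {L : Set (ℂ × ℝ)} (hL : OF v L) (l : Fin n) {σ : ℝ}
    (hσ : σ = 1 ∨ σ = -1) :
    Tendsto (fun N : ℕ => volume (Bad v L l σ (1 / ((N : ℝ) + 1)))) atTop (𝓝 0) := by
  have hempty : (⋂ N : ℕ, Bad v L l σ (1 / ((N : ℝ) + 1))) = ∅ := by
    ext w
    simp only [mem_iInter, mem_empty_iff_false, iff_false, not_forall]
    by_cases h : (w, cr w (v l)) ∈ L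
    · obtain ⟨ε, hε, hb⟩ := Metric.isOpen_iff.1 (hL.op w) _ h
      obtain ⟨N, hN⟩ := exists_nat_one_div_lt hε
      refine ⟨N, fun hB => hB.2.2 (fun t h1 h2 => hb ?_)⟩
      rw [Metric.mem_ball, Real.dist_eq, add_sub_cancel_left, abs_mul, abs_neg, abs_of_pos h1]
      have : |σ| = 1 := by rcases hσ with rfl | rfl <;> simp
      rw [this]
      linarith
    · exact ⟨0, fun hB => h hB.2.1⟩
  have h1 := tendsto_measure_iInter_atTop (μ := (volume : Measure ℂ))
    (s := fun N : ℕ => Bad v L l σ (1 / ((N : ℝ) + 1)))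
    (fun N => (measurableSet_Bad hL l hσ _).nullMeasurableSet)
    (by
      intro N M hNM w hw
      refine ⟨hw.1, hw.2.1, fun hcon => hw.2.2 (fun h h1 h2 => hcon h h1 (h2.trans_le ?_))⟩
      have : (N : ℝ) ≤ M := by exact_mod_cast hNM
      gcongr)
    ⟨0, ((measure_mono (fun w hw => hw.1)).trans_lt
      (measure_ball_lt_top (μ := (volume : Measure ℂ)) (x := 0) (r := 1))).ne⟩
  rw [hempty, measure_empty] at h1
  exact h1

theorem measurableSet_EE {L : Set (ℂ × ℝ)} (hL : OF v L) (k : Fin n) {τ : ℝ}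
    (hτ : τ = 1 ∨ τ = -1) (δ : ℝ) (l : Fin n) (σ : ℝ) (g : List (Fin n × Fin n)) :
    MeasurableSet (EE v L k τ δ l σ g) := by
  have hc : Continuous (fun θ : ℂ =>
      σ * (cr (Lo v g θ) (v l) - cr (Lo v g θ) (Fo v g (v k)))) := by
    have h1 := (cont_cr (v l)).comp (continuous_Lo (v := v) g)
    have h2 := (cont_cr (Fo v g (v k))).comp (continuous_Lo (v := v) g)
    exact continuous_const.mul (h1.sub h2)
  by_cases hσ : sg τ g = σ
  · have : EE v L k τ δ l σ g = SS v L k τ δ g ∩ ({θ | 0 <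
        σ * (cr (Lo v g θ) (v l) - cr (Lo v g θ) (Fo v g (v k)))} ∩ {θ |
        σ * (cr (Lo v g θ) (v l) - cr (Lo v g θ) (Fo v g (v k))) < δ}) := by
      ext θ
      constructor
      · exact fun h => ⟨h.1, h.2.2.1, h.2.2.2⟩
      · exact fun h => ⟨h.1, hσ, h.2.1, h.2.2⟩
    rw [this]
    exact (measurableSet_SS hL k hτ δ g).inter ((isOpen_lt continuous_const hc).measurableSet.inter
      (isOpen_lt hc continuous_const).measurableSet)
  · have : EE v L k τ δ l σ g = ∅ := by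
      ext θ
      simp only [mem_empty_iff_false, iff_false]
      exact fun h => hσ h.2.1
    rw [this]
    exact MeasurableSet.empty

theorem tsum_EE (hn : 3 ≤ n) (hv : ConvexIndependent ℝ v) {L : Set (ℂ × ℝ)} (hL : OF v L)
    (k : Fin n) {τ : ℝ} (hτ : τ = 1 ∨ τ = -1) (δ : ℝ) (l : Fin n) {σ : ℝ}
    (hσ : σ = 1 ∨ σ = -1) :
    ∑' g, volume (EE v L k τ δ l σ g) ≤ volume (Bad v L l σ δ) := by
  have hE : ∀ g, ¬ Val v g → EE v L k τ δ l σ g = ∅ := by
    intro g hg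
    ext θ
    simp only [mem_empty_iff_false, iff_false]
    exact fun h => hg h.1.1.2.2.val
  have him := fun g => image_meas hv (measurableSet_EE hL k hτ δ l σ g) (hE g)
  have hdisj : Pairwise (Function.onFun Disjoint (fun g => Lo v g '' EE v L k τ δ l σ g)) := by
    intro g g' hgg
    rw [Function.onFun, Set.disjoint_left]
    rintro w ⟨θ, hθ, hθw⟩ ⟨θ', hθ', hθw'⟩
    apply hgg
    obtain ⟨a1, a2, a3, a4⟩ := hθ
    obtain ⟨b1, b2, b3, b4⟩ := hθ'
    refine code_unique hn hv g g' θ θ' a1.1.2.1 b1.1.2.1 a1.1.2.2 b1.1.2.2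
      (hθw.trans hθw'.symm) ?_
    have t1 := a1.2
    have t2 := b1.2
    rw [hθw, a2] at t1
    rw [hθw', b2] at t2
    rw [hθw] at a3 a4 ⊢
    rw [hθw'] at b3 b4 ⊢
    by_contra hne
    have := Tk.sep hσ t1 t2 hne
    rcases le_total 0 (cr w (Fo v g (v k)) - cr w (Fo v g' (v k))) with h | h
    · rw [abs_of_nonneg h] at this
      rcases hσ with rfl | rfl <;> linarith
    · rw [abs_of_nonpos h] at this
      rcases hσ with rfl | rfl <;> linarith
  calc ∑' g, volume (EE v L k τ δ l σ g) = ∑' g, volume (Lo v g '' EE v L k τ δ l σ g) := by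
        congr 1; funext g; exact (him g).2.symm
    _ = volume (⋃ g, Lo v g '' EE v L k τ δ l σ g) :=
        (measure_iUnion hdisj (fun g => (him g).1)).symm
    _ ≤ volume (Bad v L l σ δ) := by
        apply measure_mono
        intro w hw
        obtain ⟨g, θ, hθ, hθw⟩ := mem_iUnion.1 hw
        obtain ⟨a1, a2, a3, a4⟩ := hθ
        have t1 := a1.2
        rw [hθw, a2] at t1
        rw [hθw] at a3 a4
        refine ⟨?_, ?_, ?_⟩
        · rw [Metric.mem_ball, dist_zero_right, ← hθw, norm_Lo hv a1.1.2.2.val]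
          exact a1.1.1
        · have := t1.2 _ a3 a4
          rwa [← mul_assoc, sq_pm hσ, one_mul, add_sub_cancel] at this
        · intro hcon
          apply t1.1
          have := hcon _ a3 a4
          rwa [← mul_assoc, neg_mul, sq_pm hσ, show cr w (v l) +
            -1 * (cr w (v l) - cr w (Fo v g (v k))) = cr w (Fo v g (v k)) by ring] at this

/-- Exact symmetry of `L` at the direction `w`. -/
def SymX (v : Fin n → ℂ) (L : Set (ℂ × ℝ)) (w : ℂ) : Prop :=
  ∀ s : Fin n × Fin n, IsSide v s.1 s.2 → ∀ q : ℝ, (w, q) ∈ EX v s →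
    (RL v s (w, q) ∈ L ↔ (w, q) ∈ L)

/-- The adjacent strip is reflected. -/
theorem Tk.reflect {L : Set (ℂ × ℝ)} {w : ℂ} (hw : SymX v L w) {s : Fin n × Fin n}
    (hs : IsSide v s.1 s.2) {Q τ δ : ℝ} (h1 : cr w (v s.1) < Q) (h2 : Q < cr w (v s.2))
    (hT : Tk L w Q τ δ)
    (hin : ∀ h : ℝ, 0 < h → h < δ → cr w (v s.1) < Q + τ * h ∧ Q + τ * h < cr w (v s.2)) :
    Tk L (rl (v s.2 - v s.1) w) (rfh v s w Q) (-τ) δ := by
  constructor
  · intro hcon
    exact hT.1 ((hw s hs Q ⟨h1, h2⟩).1 hcon)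
  · intro h h3 h4
    have h5 := (hw s hs (Q + τ * h) (hin h h3 h4)).2 (hT.2 h h3 h4)
    have h6 : RL v s (w, Q + τ * h) = (rl (v s.2 - v s.1) w, rfh v s w Q + -τ * h) := by
      unfold RL rfh
      simp only [Prod.mk.injEq, true_and]
      ring
    rwa [h6] at h5

theorem SS_subset (hn : 3 ≤ n) (hv : ConvexIndependent ℝ v) {L : Set (ℂ × ℝ)} (hL : OF v L)
    (k : Fin n) {τ : ℝ} (hτ : τ = 1 ∨ τ = -1) {δ : ℝ} (hδ : 0 < δ) :
    ∀ᵐ θ : ℂ, θ ∈ SS v L k τ δ [] →
      ∃ (l : Fin n) (g : List (Fin n × Fin n)), θ ∈ EE v L k τ δ l 1 g ∨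
        θ ∈ EE v L k τ δ l (-1) g := by
  have hfin := ae_finite_setOfPred_mem (tsum_SS hn hv hL k hτ hδ)
  have h0 : ∀ᵐ w : ℂ, w ≠ 0 := by simp [ae_iff]
  have hsym : ∀ᵐ w : ℂ, ∀ g : List (Fin n × Fin n), Val v g → SymX v L (Lo v g w) :=
    ae_Lo hv (p := fun w => SymX v L w) hL.sym
  filter_upwards [hfin, h0, ae_fwdFree (v := v) (v k), hsym] with θ g1 g2 g3 g4 hθ
  obtain ⟨a, a1, a2, a3, a4⟩ := exists_arcs_vertex hn hv g2 g3 hθ.1.2.1
  have hlen : ∀ j, (a j).g.length = j := by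
    intro j
    induction j with
    | zero => rw [a1]; rfl
    | succ j ih => rw [a3, List.length_cons, ih]
  have hinj : Function.Injective (fun j => (a j).g) := by
    intro j j' hj
    simp only at hj
    rw [← hlen j, ← hlen j', hj]
  have hnot : ¬ ∀ j, θ ∈ SS v L k τ δ (a j).g := by
    intro hall
    have h1 : Set.Infinite {i | θ ∈ SS v L k τ δ i} := by
      apply (Set.infinite_range_of_injective hinj).mono
      rintro g ⟨j, rfl⟩
      exact hall j
    exact h1 g1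
  have hex : ∃ j, θ ∈ SS v L k τ δ (a j).g ∧ θ ∉ SS v L k τ δ (a (j + 1)).g := by
    by_contra hcon
    push Not at hcon
    apply hnot
    intro j
    induction j with
    | zero => rw [a1]; exact hθ
    | succ j ih => exact hcon j ih
  obtain ⟨j, hj1, hj2⟩ := hex
  obtain ⟨c1, c2⟩ := arc_cross (v k) θ (a j)
  set g := (a j).g with hg
  set s := (a j).s with hs
  set w := Lo v g θ with hw
  set Q := cr w (Fo v g (v k)) with hQ
  have hside : IsSide v s.1 s.2 := (a j).hs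
  have hne := v_sub_ne hv hside.1
  have hpm := sg_pm hτ g
  by_contra hcon
  push Not at hcon
  apply hj2
  have hnoE : ∀ l, 0 < sg τ g * (cr w (v l) - Q) → δ ≤ sg τ g * (cr w (v l) - Q) := by
    intro l hl
    by_contra hlt
    push Not at hlt
    rcases hpm with h | h
    · exact (hcon l g).1 ⟨hj1, h, by rw [h] at hl; exact hl, by rw [h] at hlt; exact hlt⟩
    · exact (hcon l g).2 ⟨hj1, h, by rw [h] at hl; exact hl, by rw [h] at hlt; exact hlt⟩
  have hT := hj1.2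
  have hrefl : Tk L (rl (v s.2 - v s.1) w) (rfh v s w Q) (-sg τ g) δ := by
    refine Tk.reflect (g4 g (a j).valid) hside c1 c2 hT ?_
    intro h h1 h2
    rcases hpm with hp | hp
    · have := hnoE s.2 (by rw [hp]; linarith)
      rw [hp] at this ⊢
      constructor <;> linarith
    · have := hnoE s.1 (by rw [hp]; linarith)
      rw [hp] at this ⊢
      constructor <;> linarith
  have hrz := arcs_rz a a1 a3 (j + 1)
  refine ⟨⟨hj1.1.1, hj1.1.2.1, hrz⟩, ?_⟩
  rw [a3 j]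
  change Tk L (rl (v s.2 - v s.1) w) (cr (rl (v s.2 - v s.1) w) (RR v s.1 s.2 (Fo v g (v k))))
    (sg τ (s :: g)) δ
  rw [rfh_eq s hne, sg_cons]
  exact hrefl

theorem vol_SS_le (hn : 3 ≤ n) (hv : ConvexIndependent ℝ v) {L : Set (ℂ × ℝ)} (hL : OF v L)
    (k : Fin n) {τ : ℝ} (hτ : τ = 1 ∨ τ = -1) {δ : ℝ} (hδ : 0 < δ) :
    volume (SS v L k τ δ []) ≤
      ∑ l : Fin n, (volume (Bad v L l 1 δ) + volume (Bad v L l (-1) δ)) := by
  have h1 : volume (SS v L k τ δ []) ≤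
      volume (⋃ l : Fin n, ((⋃ g, EE v L k τ δ l 1 g) ∪ ⋃ g, EE v L k τ δ l (-1) g)) := by
    apply measure_mono_ae
    filter_upwards [SS_subset hn hv hL k hτ hδ] with θ hθ hmem
    obtain ⟨l, g, h⟩ := hθ hmem
    refine mem_iUnion.2 ⟨l, ?_⟩
    rcases h with h | h
    · exact Or.inl (mem_iUnion.2 ⟨g, h⟩)
    · exact Or.inr (mem_iUnion.2 ⟨g, h⟩)
  refine h1.trans ((measure_iUnion_fintype_le _ _).trans ?_)
  apply Finset.sum_le_sum
  intro l _
  refine (measure_union_le _ _).trans (add_le_add ?_ ?_)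
  · exact (measure_iUnion_le _).trans (tsum_EE hn hv hL k hτ δ l (Or.inl rfl))
  · exact (measure_iUnion_le _).trans (tsum_EE hn hv hL k hτ δ l (Or.inr rfl))

theorem vol_SS_zero (hn : 3 ≤ n) (hv : ConvexIndependent ℝ v) {L : Set (ℂ × ℝ)} (hL : OF v L)
    (k : Fin n) {τ : ℝ} (hτ : τ = 1 ∨ τ = -1) {δ : ℝ} (hδ : 0 < δ) :
    volume (SS v L k τ δ []) = 0 := by
  have hlim : Tendsto (fun N : ℕ => ∑ l : Fin n, (volume (Bad v L l 1 (1 / ((N : ℝ) + 1))) +
      volume (Bad v L l (-1) (1 / ((N : ℝ) + 1))))) atTop (𝓝 (∑ l : Fin n, (0 + 0))) :=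
    tendsto_finsetSum _ fun l _ =>
      (Bad_tendsto hL l (Or.inl rfl)).add (Bad_tendsto hL l (Or.inr rfl))
  simp only [add_zero, Finset.sum_const_zero] at hlim
  refine le_antisymm ?_ zero_le
  refine ge_of_tendsto hlim ?_
  obtain ⟨N₀, hN₀⟩ := exists_nat_one_div_lt hδ
  filter_upwards [eventually_ge_atTop N₀] with N hN
  have hNpos : (0 : ℝ) < 1 / ((N : ℝ) + 1) := by positivity
  refine le_trans (measure_mono ?_) (vol_SS_le hn hv hL k hτ hNpos)
  intro θ hθ
  refine ⟨hθ.1, hθ.2.1, fun h h1 h2 => hθ.2.2 h h1 (h2.trans_le ?_)⟩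
  refine le_trans ?_ hN₀.le
  have : (N₀ : ℝ) ≤ N := by exact_mod_cast hN
  gcongr

theorem noBirth (hn : 3 ≤ n) (hv : ConvexIndependent ℝ v) {L : Set (ℂ × ℝ)} (hL : OF v L)
    (k : Fin n) {τ : ℝ} (hτ : τ = 1 ∨ τ = -1) :
    ∀ᵐ θ : ℂ, Out v k θ → ∀ δ : ℝ, 0 < δ →
      (∀ h : ℝ, 0 < h → h < δ → (θ, cr θ (v k) + τ * h) ∈ L) → (θ, cr θ (v k)) ∈ L := by
  have hball : ∀ᵐ θ : ℂ, ‖θ‖ < 1 → (Out v k θ → ∀ δ : ℝ, 0 < δ →
      (∀ h : ℝ, 0 < h → h < δ → (θ, cr θ (v k) + τ * h) ∈ L) → (θ, cr θ (v k)) ∈ L) := by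
    have h1 : ∀ᵐ θ : ℂ, ∀ N : ℕ, θ ∉ SS v L k τ (1 / ((N : ℝ) + 1)) [] := by
      rw [ae_all_iff]
      intro N
      exact measure_eq_zero_iff_ae_notMem.1 (vol_SS_zero hn hv hL k hτ (by positivity))
    filter_upwards [h1] with θ hθ hn1 hout δ hδ hstrip
    by_contra hcon
    obtain ⟨N, hN⟩ := exists_nat_one_div_lt hδ
    apply hθ N
    refine ⟨⟨hn1, hout, trivial⟩, ?_, ?_⟩
    · exact hcon
    · intro h h1 h2
      have e : sg τ ([] : List (Fin n × Fin n)) = τ := by simp [sg]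
      rw [e]
      exact hstrip h h1 (h2.trans hN)
  refine ae_of_ae_ball ?_ hball
  have key : ∀ z : ℂ, ∀ r : ℝ, 0 < r → ((Out v k z → ∀ δ : ℝ, 0 < δ →
      (∀ h : ℝ, 0 < h → h < δ → (z, cr z (v k) + τ * h) ∈ L) → (z, cr z (v k)) ∈ L) →
      (Out v k ((r : ℂ) * z) → ∀ δ : ℝ, 0 < δ → (∀ h : ℝ, 0 < h → h < δ →
        ((r : ℂ) * z, cr ((r : ℂ) * z) (v k) + τ * h) ∈ L) →
        ((r : ℂ) * z, cr ((r : ℂ) * z) (v k)) ∈ L)) := by
    intro z r hr H hout δ hδ hstrip
    have h1 := H ((Out_scale hr z).2 hout) (δ / r) (by positivity) (by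
      intro h h1 h2
      rw [lt_div_iff₀ hr] at h2
      have h3 := hstrip (h * r) (by positivity) h2
      refine (hL.cone r hr (z, cr z (v k) + τ * h)).1 ?_
      simp only
      rwa [cr_smul_left, show r * cr z (v k) + τ * (h * r) = r * (cr z (v k) + τ * h) by ring]
        at h3)
    have h2 := (hL.cone r hr (z, cr z (v k))).2 h1
    rwa [cr_smul_left]
  intro z r hr
  constructor
  · exact key z r hr
  · intro H
    have h1 := key ((r : ℂ) * z) r⁻¹ (by positivity) H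
    have e : ((r⁻¹ : ℝ) : ℂ) * ((r : ℂ) * z) = z := by
      rw [← mul_assoc, ← ofReal_mul, inv_mul_cancel₀ hr.ne', ofReal_one, one_mul]
    rw [e] at h1
    exact h1

/-- No births. -/
theorem stmtA : StmtA := by
  intro n hn v hv L hL k
  filter_upwards [noBirth hn hv hL k (Or.inl rfl), noBirth hn hv hL k (Or.inr rfl)]
    with θ h1 h2 hout δ hδ
  constructor
  · intro h
    exact h1 hout δ hδ (fun t t1 t2 => h _ (by linarith) (by linarith))
  · intro h
    exact h2 hout δ hδ (fun t t1 t2 => h _ (by linarith) (by linarith))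

end Pool.Agent.Lib.BTop
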