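import Pool.Agent.Lib.MP_7bc51d_an_top.Stmts

/-!
# Orbit closures of irrational polygonal billiards: phase space form
-/

set_option autoImplicit false

namespace Pool.Agent.Lib.BTop

open Complex MeasureTheory Set Filter Topology
open Pool.Agent.Lib.Bil

variable {n : ℕ} {v : Fin n → ℂ}

/-- Closed sets of phase points belonging to the vertices. -/
def CP (v : Fin n → ℂ) (k : Fin n) : Set (ℂ × ℂ) := closure (PA v (CC v k))

theorem out_of_mem (k : Fin n) {x : ℂ} (hx : x ∈ PP v) : Out v k (x - v k) := by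
  refine ⟨1, one_pos, fun t ht ht2 => ?_⟩
  rcases eq_or_lt_of_le ht2 with rfl | ht3
  · simpa using hx
  apply convex_KK.openSegment_self_interior_subset_interior (vert_mem_KK k) hx
  rw [openSegment_eq_image]
  refine ⟨t, ⟨ht, ht3⟩, ?_⟩
  simp only [real_smul]
  push_cast
  ring

theorem ln_ray (k : Fin n) (x : ℂ) : ln (x, x - v k) = (x - v k, cr (x - v k) (v k)) := by
  unfold ln
  simp only [Prod.mk.injEq, true_and]
  have h : cr (x - v k) (x - v k) = 0 := cr_self _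
  rw [cr_sub_right] at h
  linarith

/-- A property of almost every direction holds at almost every point seen from `v k`. -/
theorem ae_ray (k : Fin n) {p : ℂ → Prop} (h : ∀ᵐ θ : ℂ, p θ) : ∀ᵐ x : ℂ, p (x - v k) :=
  (measurePreserving_sub_right volume (v k)).quasiMeasurePreserving.ae h

theorem ne_of_mem_PP (hv : ConvexIndependent ℝ v) (hn : 3 ≤ n) (k : Fin n) {x : ℂ}
    (hx : x ∈ PP v) : x - v k ≠ 0 := by
  intro h
  have hxk : x = v k := sub_eq_zero.1 h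
  obtain ⟨j, hj⟩ := exists_next hn hv k
  have := IsSide.cr_pos hv hj hx
  rw [hxk, sub_self, cr_zero_right] at this
  exact lt_irrefl _ this

theorem closure_PA (hn : 3 ≤ n) (hv : ConvexIndependent ℝ v) (hG' : StmtG') {L M : Set (ℂ × ℝ)}
    (h : MM v ∩ closure L = M) : closure (PA v L) = closure (PA v M) := by
  obtain ⟨g1, g2, g3, -⟩ := hG' n hn v hv
  apply Subset.antisymm
  · apply closure_minimal _ isClosed_closure
    intro p hp
    apply subset_closure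
    exact ⟨hp.1, h ▸ ⟨g2 p hp.1, subset_closure hp.2⟩⟩
  · apply closure_minimal _ isClosed_closure
    intro p hp
    have h1 : ln p ∈ closure L := by
      have := hp.2
      rw [← h] at this
      exact this.2
    have h2 : p ∈ Ph v ∩ closure (PA v L) := by
      rw [g3 L]
      exact ⟨hp.1, h1⟩
    exact h2.2

theorem ln_interior (hn : 3 ≤ n) (hv : ConvexIndependent ℝ v) (hG' : StmtG') {L : Set (ℂ × ℝ)}
    (hL : MM v ∩ closure L ⊆ L) {p : ℂ × ℂ} (hp : p ∈ Ph v)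
    (hint : p ∈ interior (closure (PA v L))) : ln p ∈ interior L := by
  obtain ⟨g1, g2, g3, -⟩ := hG' n hn v hv
  by_contra hcon
  have h1 : ln p ∈ closure Lᶜ := by
    rw [closure_compl]
    exact hcon
  have h2 : p ∈ Ph v ∩ closure (PA v Lᶜ) := by
    rw [g3]
    exact ⟨hp, h1⟩
  obtain ⟨q, hq1, hq2⟩ := mem_closure_iff.1 h2.2 _ isOpen_interior hint
  have h3 : q ∈ Ph v ∩ closure (PA v L) := ⟨hq2.1, interior_subset hq1⟩
  rw [g3] at h3
  exact hq2.2 (hL ⟨g2 q hq2.1, h3.2⟩)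

/-- Orbit closures. -/
theorem orbits (hn : 3 ≤ n) (hv : ConvexIndependent ℝ v) (hirr : Irr v) (hF : StmtF)
    (hG : StmtG) (hG' : StmtG') (hE : StmtE) :
    (∀ k, IsClosed (CP v k) ∧ (∀ x w : ℂ, (x, w) ∈ CP v k → (x, -w) ∈ CP v k) ∧
      (∀ x ∈ PP v, (x, x - v k) ∈ CP v k) ∧
      (∀ᵐ x : ℂ, x ∈ PP v → closure (orb v (x, x - v k)) = CP v k)) ∧
    (Ph v ⊆ ⋃ k, CP v k) ∧
    (∀ i j, (interior (CP v i) ∩ interior (CP v j)).Nonempty → CP v i = CP v j) ∧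
    (∃ G : Set (ℂ × ℂ), IsGδ G ∧ Ph v ⊆ closure G ∧ ∀ p ∈ G, p ∈ Ph v →
      ∃ k, closure (orb v p) = CP v k ∧ p ∈ interior (CP v k)) ∧
    (∀ᵐ w : ℂ, ∃ G : Set ℂ, IsGδ G ∧ PP v ⊆ closure G ∧ ∀ x ∈ G, x ∈ PP v →
      ∃ k, closure (orb v (x, w)) = CP v k ∧
        0 < volume (CP v k ∩ (PP v ×ˢ Metric.ball (0 : ℂ) 1))) := by
  obtain ⟨f1, f2, f3, ⟨G, f4, f5, f6⟩, f7⟩ := hF n hn v hv hirr
  obtain ⟨-, -, g3⟩ := hG n hn v hv
  obtain ⟨t1, t2, t3, t4, t5, t6, t7⟩ := hG' n hn v hv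
  have hMo := (hE n hn v hv).2.1
  have hmeas : ∀ k, MeasurableSet (CC v k) := by
    intro k
    have h1 : CC v k = MM v ∩ closure (CC v k) :=
      Subset.antisymm (fun p hp => ⟨hp.1, subset_closure hp⟩) (f1 k).2.1
    rw [h1]
    exact hMo.measurableSet.inter isClosed_closure.measurableSet
  refine ⟨?_, ?_, ?_, ?_, ?_⟩
  · intro k
    obtain ⟨c1, c2, c3, c4, c5⟩ := f1 k
    refine ⟨isClosed_closure, ?_, ?_, ?_⟩
    · intro x w hxw
      have hcont : Continuous (fun p : ℂ × ℂ => (p.1, -p.2)) := by fun_prop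
      have h1 : (fun p : ℂ × ℂ => (p.1, -p.2)) '' closure (PA v (CC v k)) ⊆
          closure ((fun p : ℂ × ℂ => (p.1, -p.2)) '' PA v (CC v k)) :=
        image_closure_subset_closure_image hcont
      have h2 : (fun p : ℂ × ℂ => (p.1, -p.2)) '' PA v (CC v k) ⊆ PA v (CC v k) := by
        rintro _ ⟨p, ⟨⟨hp1, hp2⟩, hp3⟩, rfl⟩
        refine ⟨⟨hp1, neg_ne_zero.2 hp2⟩, ?_⟩
        have h3 : ng (ln (p.1, -p.2)) = ln p := by
          unfold ng ln
          simp only [neg_neg, cr_neg_left]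
        change ln (p.1, -p.2) ∈ CC v k
        rw [← c3]
        change ng (ln (p.1, -p.2)) ∈ CC v k
        rw [h3]
        exact hp3
      exact closure_mono h2 (h1 ⟨(x, w), hxw, rfl⟩)
    · intro x hx
      apply subset_closure
      refine ⟨⟨hx, ne_of_mem_PP hv hn k hx⟩, ?_⟩
      rw [ln_ray]
      exact c4 _ (Or.inl (out_of_mem k hx))
    · filter_upwards [ae_ray (v := v) k c5] with x hx hxP
      have hph : (x, x - v k) ∈ Ph v := ⟨hxP, ne_of_mem_PP hv hn k hxP⟩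
      rw [g3 _ hph, ln_ray]
      exact closure_PA hn hv hG' (hx (Or.inl (out_of_mem k hxP)))
  · intro p hp
    obtain ⟨k, hk⟩ := mem_iUnion.1 (f2 (t2 p hp))
    exact mem_iUnion.2 ⟨k, subset_closure ⟨hp, hk⟩⟩
  · rintro i j ⟨p, hp1, hp2⟩
    have h1 : p ∈ closure (Ph v) :=
      closure_mono (fun q hq => hq.1) (interior_subset hp1)
    obtain ⟨q, ⟨hq1, hq2⟩, hq3⟩ := mem_closure_iff.1 h1 _
      (isOpen_interior.inter isOpen_interior) ⟨hp1, hp2⟩
    have h2 := ln_interior hn hv hG' (f1 i).2.1 hq3 hq1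
    have h3 := ln_interior hn hv hG' (f1 j).2.1 hq3 hq2
    unfold CP
    rw [f3 i j ⟨_, h2, h3⟩]
  · refine ⟨PA v G, (t5 G f4 f5).1, (t5 G f4 f5).2, ?_⟩
    intro p hp hph
    obtain ⟨k, hk1, hk2⟩ := f6 _ hp.2 (t2 p hph)
    refine ⟨k, ?_, ?_⟩
    · rw [g3 _ hph]
      exact closure_PA hn hv hG' hk1
    · exact interior_mono subset_closure (t4 _ ⟨hph, hk2⟩)
  · have h0 : ∀ᵐ w : ℂ, w ≠ 0 := by simp [ae_iff]
    filter_upwards [f7, h0] with w hw hw0
    obtain ⟨H, h1, h2, h3⟩ := hw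
    refine ⟨{x | x ∈ PP v ∧ cr w x ∈ H}, (t6 w H hw0 h1 h2).1, (t6 w H hw0 h1 h2).2, ?_⟩
    intro x hx hxP
    have hph : (x, w) ∈ Ph v := ⟨hxP, hw0⟩
    obtain ⟨k, hk1, hk2⟩ := h3 _ hx.2 (t2 _ hph)
    refine ⟨k, ?_, ?_⟩
    · rw [g3 _ hph]
      exact closure_PA hn hv hG' hk1
    · have h4 := t7 (CC v k) (hmeas k) (f1 k).1.cone (f1 k).1.sub hk2
      refine lt_of_lt_of_le h4 (measure_mono ?_)
      exact inter_subset_inter_left _ subset_closure

/-- Zero-one law for measurable invariant sets. -/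
theorem zero_one (hn : 3 ≤ n) (hv : ConvexIndependent ℝ v) (hirr : Irr v) (hB : StmtB)
    (hC : StmtC) (hD : StmtD) (hH : StmtH) {A : Set (ℂ × ℂ)} (hA : MeasurableSet A)
    (hcone : ∀ x w : ℂ, ∀ c : ℝ, 0 < c → ((x, w) ∈ A ↔ (x, (c : ℂ) * w) ∈ A))
    (hI : ∀ᵐ p ∂(volume : Measure (ℂ × ℂ)), HypAt v A p) :
    (∀ k, (∀ᵐ x : ℂ, x ∈ PP v → (x, x - v k) ∈ eI A) ∨
      (∀ᵐ x : ℂ, x ∈ PP v → (x, x - v k) ∉ eI A)) ∧
    ((∀ k, ∀ᵐ x : ℂ, x ∈ PP v → (x, x - v k) ∉ eI A) →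
      ∀ᵐ w : ℂ, ∀ x ∈ PP v, (x, w) ∉ eI A) := by
  obtain ⟨h1, h2⟩ := hH n hn v hv A hA hcone hI
  have h3 := (hD n hn v hv).2.2.2.2 _ h1
  have hkey : ∀ k, ∀ᵐ x : ℂ, x ∈ PP v →
      ((x - v k, cr (x - v k) (v k)) ∈ IN (Lset v A ∩ MM v) ↔ (x, x - v k) ∈ eI A) := by
    intro k
    filter_upwards [ae_ray (v := v) k h2] with x hx hxP
    have h4 := hx x hxP
    have h5 := ln_ray (v := v) k x
    unfold ln at h5
    simp only [Prod.mk.injEq, true_and] at h5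
    rw [h5] at h4
    exact h4
  have hX : ∀ k, VX v (IN (Lset v A ∩ MM v)) k → ∀ᵐ x : ℂ, x ∈ PP v → (x, x - v k) ∈ eI A := by
    intro k hk
    filter_upwards [ae_ray (v := v) k hk, hkey k] with x h4 h5 hxP
    exact (h5 hxP).1 (h4 (Or.inl (out_of_mem k hxP)))
  have hN : ∀ k, VN v (IN (Lset v A ∩ MM v)) k → ∀ᵐ x : ℂ, x ∈ PP v →
      (x, x - v k) ∉ eI A := by
    intro k hk
    filter_upwards [ae_ray (v := v) k hk, hkey k] with x h4 h5 hxP hcon
    exact h4 (Or.inl (out_of_mem k hxP)) ((h5 hxP).2 hcon)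
  constructor
  · intro k
    rcases hB n hn v hv hirr _ h3 k with h | h
    · exact Or.inl (hX k h)
    · exact Or.inr (hN k h)
  · intro hall
    have hVN : ∀ k, VN v (IN (Lset v A ∩ MM v)) k := by
      intro k
      rcases hB n hn v hv hirr _ h3 k with h | h
      · exfalso
        have h4 : ∀ᵐ x : ℂ, x ∉ PP v := by
          filter_upwards [hX k h, hall k] with x h5 h6 hxP
          exact h6 hxP (h5 hxP)
        have h5 : volume (PP v) = 0 := measure_eq_zero_iff_ae_notMem.2 h4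
        exact (isOpen_PP.measure_pos volume (PP_nonempty hn hv)).ne' h5
      · exact h
    filter_upwards [hC n hn v hv _ h3 hVN, h2] with w h4 h5 x hxP hcon
    exact h4 _ ((h5 x hxP).2 hcon)

end Pool.Agent.Lib.BTop
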