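import Pool.Agent.Lib.MP_7bc51d_an.LemE
import Pool.Agent.Lib.MP_7bc51d_an.Hyp

/-!
# Orbit closures of irrational polygonal billiards: definitions and module statements

Oriented lines of direction `w` are coded by pairs `(w, Q)`, where `Q = cr w x` is the height of all
points `x` of the line.
-/

set_option autoImplicit false

namespace Pool.Agent.Lib.BTop

open Complex MeasureTheory Set Filter Topology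
open Pool.Agent.Lib.Bil

/-- Oriented lines meeting the open polygon. -/
def MM {n : ℕ} (v : Fin n → ℂ) : Set (ℂ × ℝ) := {p | p.1 ≠ 0 ∧ ∃ x ∈ PP v, cr p.1 x = p.2}

/-- Reflection of a line at the side `s`. -/
noncomputable def RL {n : ℕ} (v : Fin n → ℂ) (s : Fin n × Fin n) (p : ℂ × ℝ) : ℂ × ℝ :=
  (rl (v s.2 - v s.1) p.1, rfh v s p.1 p.2)

/-- Lines leaving the polygon through the relative interior of the side `s`. -/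
def EX {n : ℕ} (v : Fin n → ℂ) (s : Fin n × Fin n) : Set (ℂ × ℝ) :=
  {p | cr p.1 (v s.1) < p.2 ∧ p.2 < cr p.1 (v s.2)}

/-- Line with opposite orientation. -/
def ng (p : ℂ × ℝ) : ℂ × ℝ := (-p.1, -p.2)

/-- Exactly invariant sets of lines. -/
structure XL {n : ℕ} (v : Fin n → ℂ) (L : Set (ℂ × ℝ)) : Prop where
  sub : L ⊆ MM v
  cone : ∀ r : ℝ, 0 < r → ∀ p : ℂ × ℝ, ((((r : ℂ) * p.1, r * p.2) : ℂ × ℝ) ∈ L ↔ p ∈ L)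
  sym : ∀ s : Fin n × Fin n, IsSide v s.1 s.2 → ∀ p ∈ EX v s, (RL v s p ∈ L ↔ p ∈ L)

/-- Measurable, almost everywhere invariant sets of lines. -/
structure LS {n : ℕ} (v : Fin n → ℂ) (L : Set (ℂ × ℝ)) : Prop where
  sub : L ⊆ MM v
  meas : MeasurableSet L
  cone : ∀ r : ℝ, 0 < r → ∀ p : ℂ × ℝ, ((((r : ℂ) * p.1, r * p.2) : ℂ × ℝ) ∈ L ↔ p ∈ L)
  sym : ∀ᵐ w : ℂ, ∀ s : Fin n × Fin n, IsSide v s.1 s.2 → ∀ᵐ q : ℝ, (w, q) ∈ EX v s →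
    (RL v s (w, q) ∈ L ↔ (w, q) ∈ L)

/-- Invariant sets of lines with open slices. -/
structure OF {n : ℕ} (v : Fin n → ℂ) (L : Set (ℂ × ℝ)) : Prop where
  sub : L ⊆ MM v
  cone : ∀ r : ℝ, 0 < r → ∀ p : ℂ × ℝ, ((((r : ℂ) * p.1, r * p.2) : ℂ × ℝ) ∈ L ↔ p ∈ L)
  op : ∀ w : ℂ, IsOpen {q : ℝ | (w, q) ∈ L}
  meas : ∀ a b : ℂ → ℝ, Continuous a → Continuous b →
    MeasurableSet {w : ℂ | ∀ q : ℝ, a w < q → q < b w → (w, q) ∈ L}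
  sym : ∀ᵐ w : ℂ, ∀ s : Fin n × Fin n, IsSide v s.1 s.2 → ∀ q : ℝ, (w, q) ∈ EX v s →
    (RL v s (w, q) ∈ L ↔ (w, q) ∈ L)

/-- Essential interior of `L` in its slices `L_w`. -/
def IN (L : Set (ℂ × ℝ)) : Set (ℂ × ℝ) :=
  {p | ∃ ε : ℝ, 0 < ε ∧ ∀ᵐ q : ℝ, |q - p.2| < ε → (p.1, q) ∈ L}

/-- Almost every ray at the vertex `k` (outgoing or incoming) lies in `L`. -/
def VX {n : ℕ} (v : Fin n → ℂ) (L : Set (ℂ × ℝ)) (k : Fin n) : Prop :=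
  ∀ᵐ θ : ℂ, (Out v k θ ∨ Out v k (-θ)) → (θ, cr θ (v k)) ∈ L

/-- Almost no ray at the vertex `k` (outgoing or incoming) lies in `L`. -/
def VN {n : ℕ} (v : Fin n → ℂ) (L : Set (ℂ × ℝ)) (k : Fin n) : Prop :=
  ∀ᵐ θ : ℂ, (Out v k θ ∨ Out v k (-θ)) → (θ, cr θ (v k)) ∉ L

/-- All angles are irrational multiples of `π`. -/
def Irr {n : ℕ} (v : Fin n → ℂ) : Prop :=
  ∀ p k q : Fin n, IsSide v k q → IsSide v p k → ∀ m : ℕ, 0 < m →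
    (((v q - v k) / (v p - v k)) ^ m).im ≠ 0

/-- Lines of the orbit of the line `p`. -/
def lorb {n : ℕ} (v : Fin n → ℂ) (p : ℂ × ℝ) : Set (ℂ × ℝ) := {q | ∀ L, XL v L → p ∈ L → q ∈ L}

/-- Lines whose orbit meets `U`. -/
def sat {n : ℕ} (v : Fin n → ℂ) (U : Set (ℂ × ℝ)) : Set (ℂ × ℝ) :=
  {p | p ∈ MM v ∧ (lorb v p ∩ U).Nonempty}

/-- Lines all of whose neighbourhoods are visited by almost all rays of the vertex `k`. -/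
def CC {n : ℕ} (v : Fin n → ℂ) (k : Fin n) : Set (ℂ × ℝ) :=
  {p | p ∈ MM v ∧ ∀ U : Set (ℂ × ℝ), IsOpen U → p ∈ U → VX v (sat v U) k}

/-! ### Phase space -/

/-- Open phase space (velocities are not normalised). -/
def Ph {n : ℕ} (v : Fin n → ℂ) : Set (ℂ × ℂ) := {p | p.1 ∈ PP v ∧ p.2 ≠ 0}

/-- Line of a phase point. -/
noncomputable def ln (p : ℂ × ℂ) : ℂ × ℝ := (p.2, cr p.2 p.1)

/-- Phase points whose line belongs to `L`. -/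
def PA {n : ℕ} (v : Fin n → ℂ) (L : Set (ℂ × ℝ)) : Set (ℂ × ℂ) := {p | p ∈ Ph v ∧ ln p ∈ L}

/-- Lines of the phase points of `A`. -/
def LA {n : ℕ} (v : Fin n → ℂ) (A : Set (ℂ × ℂ)) : Set (ℂ × ℝ) :=
  {l | ∃ p, p ∈ Ph v ∧ p ∈ A ∧ ln p = l}

/-- Exact invariance of a set of phase points: scaling of the velocity and the billiard flow. -/
def EI {n : ℕ} (v : Fin n → ℂ) (A : Set (ℂ × ℂ)) : Prop :=
  (∀ x w : ℂ, ∀ c : ℝ, 0 < c → ((x, w) ∈ A ↔ (x, (c : ℂ) * w) ∈ A)) ∧ ∀ p, HypAt v A p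

/-- Orbit of a phase point (with all positive multiples of the velocities). -/
def orb {n : ℕ} (v : Fin n → ℂ) (p : ℂ × ℂ) : Set (ℂ × ℂ) := {q | ∀ A, EI v A → p ∈ A → q ∈ A}

/-- Phase points essentially interior to the slice of `A`. -/
def eI (A : Set (ℂ × ℂ)) : Set (ℂ × ℂ) :=
  {p | ∃ ε : ℝ, 0 < ε ∧ ∀ᵐ y : ℂ, ‖y - p.1‖ < ε → (y, p.2) ∈ A}

/-! ### Module statements -/

/-- (A) no births: an open one-sided strip of `L` along a vertex ray contains the ray, for almost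
every ray going out of the vertex. -/
def StmtA : Prop := ∀ (n : ℕ), 3 ≤ n → ∀ v : Fin n → ℂ, ConvexIndependent ℝ v →
  ∀ L : Set (ℂ × ℝ), OF v L → ∀ k : Fin n, ∀ᵐ θ : ℂ, Out v k θ → ∀ δ : ℝ, 0 < δ →
    ((∀ q : ℝ, cr θ (v k) < q → q < cr θ (v k) + δ → (θ, q) ∈ L) → (θ, cr θ (v k)) ∈ L) ∧
    ((∀ q : ℝ, cr θ (v k) - δ < q → q < cr θ (v k) → (θ, q) ∈ L) → (θ, cr θ (v k)) ∈ L)

/-- (B) 0-1 law at the vertices. -/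
def StmtB : Prop := ∀ (n : ℕ), 3 ≤ n → ∀ v : Fin n → ℂ, ConvexIndependent ℝ v → Irr v →
  ∀ L : Set (ℂ × ℝ), OF v L → ∀ k : Fin n, VX v L k ∨ VN v L k

/-- (C) a set of lines with open slices which has no vertex is empty. -/
def StmtC : Prop := ∀ (n : ℕ), 3 ≤ n → ∀ v : Fin n → ℂ, ConvexIndependent ℝ v →
  ∀ L : Set (ℂ × ℝ), OF v L → (∀ k, VN v L k) → ∀ᵐ w : ℂ, ∀ Q : ℝ, (w, Q) ∉ L

/-- (D) calculus of invariant sets of lines with open slices. -/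
def StmtD : Prop := ∀ (n : ℕ), 3 ≤ n → ∀ v : Fin n → ℂ, ConvexIndependent ℝ v →
  (∀ L L' : Set (ℂ × ℝ), OF v L → OF v L' → OF v (L ∩ L')) ∧
  (∀ L : Set (ℂ × ℝ), OF v L → OF v (ng ⁻¹' L)) ∧
  (∀ L : Set (ℂ × ℝ), XL v L → IsOpen L → OF v L) ∧
  (∀ L : Set (ℂ × ℝ), XL v L → MeasurableSet L → LS v L) ∧
  (∀ L : Set (ℂ × ℝ), LS v L → OF v (IN L))

/-- (D') vertices of intersections, of disjoint sets, of open sets. -/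
def StmtV : Prop := ∀ (n : ℕ), 3 ≤ n → ∀ v : Fin n → ℂ, ConvexIndependent ℝ v →
  ∀ k : Fin n,
  (∀ L L' : Set (ℂ × ℝ), VX v (L ∩ L') k ↔ VX v L k ∧ VX v L' k) ∧
  (∀ L : Set (ℂ × ℝ), VX v L k → L.Nonempty) ∧
  (∀ L : Set (ℂ × ℝ), VX v L k → ¬ VN v L k) ∧
  (∀ L : Set (ℂ × ℝ), VX v L k → VX v (ng ⁻¹' L) k) ∧
  (∀ L : Set (ℂ × ℝ), IsOpen L → VN v L k → ∀ θ, (Out v k θ ∨ Out v k (-θ)) →
    (θ, cr θ (v k)) ∉ L)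

/-- (E) exactly invariant sets of lines: complements, interiors, closures, orbits, saturations. -/
def StmtE : Prop := ∀ (n : ℕ), 3 ≤ n → ∀ v : Fin n → ℂ, ConvexIndependent ℝ v →
  XL v (MM v) ∧ IsOpen (MM v) ∧
  (∀ L : Set (ℂ × ℝ), XL v L → XL v (MM v \ L)) ∧
  (∀ L L' : Set (ℂ × ℝ), XL v L → XL v L' → XL v (L ∩ L')) ∧
  (∀ L : Set (ℂ × ℝ), XL v L → XL v (interior L)) ∧
  (∀ L : Set (ℂ × ℝ), XL v L → XL v (MM v ∩ closure L)) ∧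
  (∀ L : Set (ℂ × ℝ), XL v L → XL v (ng ⁻¹' L)) ∧
  (∀ p : ℂ × ℝ, p ∈ MM v → XL v (lorb v p) ∧ p ∈ lorb v p) ∧
  (∀ U : Set (ℂ × ℝ), XL v (sat v U) ∧ U ∩ MM v ⊆ sat v U) ∧
  (∀ U : Set (ℂ × ℝ), IsOpen U → IsOpen (sat v U)) ∧
  (∀ (U L : Set (ℂ × ℝ)), XL v L → U ∩ MM v ⊆ L → sat v U ⊆ L)

/-- (F) orbit closures at the level of lines. -/
def StmtF : Prop := ∀ (n : ℕ), 3 ≤ n → ∀ v : Fin n → ℂ, ConvexIndependent ℝ v → Irr v →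
  (∀ k, XL v (CC v k) ∧ MM v ∩ closure (CC v k) ⊆ CC v k ∧ ng ⁻¹' (CC v k) = CC v k ∧
    (∀ θ, (Out v k θ ∨ Out v k (-θ)) → (θ, cr θ (v k)) ∈ CC v k) ∧
    (∀ᵐ θ : ℂ, (Out v k θ ∨ Out v k (-θ)) →
      MM v ∩ closure (lorb v (θ, cr θ (v k))) = CC v k)) ∧
  (MM v ⊆ ⋃ k, CC v k) ∧
  (∀ i j, (interior (CC v i) ∩ interior (CC v j)).Nonempty → CC v i = CC v j) ∧
  (∃ G : Set (ℂ × ℝ), IsGδ G ∧ MM v ⊆ closure G ∧ ∀ p ∈ G, p ∈ MM v →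
    ∃ k, MM v ∩ closure (lorb v p) = CC v k ∧ p ∈ interior (CC v k)) ∧
  (∀ᵐ w : ℂ, ∃ G : Set ℝ, IsGδ G ∧ (∀ q : ℝ, (w, q) ∈ MM v → q ∈ closure G) ∧
    ∀ q ∈ G, (w, q) ∈ MM v → ∃ k, MM v ∩ closure (lorb v (w, q)) = CC v k ∧
      ¬ (∀ᵐ w' : ℂ, ∀ᵐ q' : ℝ, (w', q') ∉ CC v k))

/-- (G) phase space and lines. -/
def StmtG : Prop := ∀ (n : ℕ), 3 ≤ n → ∀ v : Fin n → ℂ, ConvexIndependent ℝ v →
  (∀ A : Set (ℂ × ℂ), EI v A → XL v (LA v A) ∧ ∀ p ∈ Ph v, (p ∈ A ↔ ln p ∈ LA v A)) ∧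
  (∀ L : Set (ℂ × ℝ), XL v L → EI v (PA v L)) ∧
  (∀ p ∈ Ph v, orb v p = PA v (lorb v (ln p)))

/-- (G') topology of the projection to lines. -/
def StmtG' : Prop := ∀ (n : ℕ), 3 ≤ n → ∀ v : Fin n → ℂ, ConvexIndependent ℝ v →
  IsOpen (Ph v) ∧
  (∀ p, p ∈ Ph v → ln p ∈ MM v) ∧
  (∀ L : Set (ℂ × ℝ), Ph v ∩ closure (PA v L) = {p | p ∈ Ph v ∧ ln p ∈ closure L}) ∧
  (∀ L : Set (ℂ × ℝ), PA v (interior L) ⊆ interior (PA v L)) ∧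
  (∀ G : Set (ℂ × ℝ), IsGδ G → MM v ⊆ closure G → IsGδ (PA v G) ∧ Ph v ⊆ closure (PA v G)) ∧
  (∀ (w : ℂ) (G : Set ℝ), w ≠ 0 → IsGδ G → (∀ q : ℝ, (w, q) ∈ MM v → q ∈ closure G) →
    IsGδ {x | x ∈ PP v ∧ cr w x ∈ G} ∧ PP v ⊆ closure {x | x ∈ PP v ∧ cr w x ∈ G}) ∧
  (∀ L : Set (ℂ × ℝ), MeasurableSet L →
    (∀ r : ℝ, 0 < r → ∀ p : ℂ × ℝ, ((((r : ℂ) * p.1, r * p.2) : ℂ × ℝ) ∈ L ↔ p ∈ L)) →
    L ⊆ MM v → ¬ (∀ᵐ w' : ℂ, ∀ᵐ q' : ℝ, (w', q') ∉ L) →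
    0 < volume (PA v L ∩ (PP v ×ˢ Metric.ball (0 : ℂ) 1)))

/-- (H) the line set of a measurable almost everywhere invariant set of phase points. -/
def StmtH : Prop := ∀ (n : ℕ), 3 ≤ n → ∀ v : Fin n → ℂ, ConvexIndependent ℝ v →
  ∀ A : Set (ℂ × ℂ), MeasurableSet A →
    (∀ x w : ℂ, ∀ c : ℝ, 0 < c → ((x, w) ∈ A ↔ (x, (c : ℂ) * w) ∈ A)) →
    (∀ᵐ p ∂(volume : Measure (ℂ × ℂ)), HypAt v A p) →
    LS v (Lset v A ∩ MM v) ∧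
    ∀ᵐ w : ℂ, ∀ x ∈ PP v, ((w, cr w x) ∈ IN (Lset v A ∩ MM v) ↔ (x, w) ∈ eI A)

end Pool.Agent.Lib.BTop
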